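import Pool.Agent.Lib.MP_673eb1_lc.C50.Sys
import Pool.Agent.Lib.MP_673eb1_lc.DioC

/-!
MP_673eb1_lc, project C50: the ENCODER. The set `{t | Sys A R t}` is Diophantine over `R`, if the
valuation rings of the three primes are (and `R` is good).
-/

set_option autoImplicit false

open NumberField IsDedekindDomain

namespace Pool.Agent.C50

open Pool.Agent.Lib.MP_673eb1_lc

section Basic

variable {q f : ℕ} [Fact q.Prime] {K : Type} [Field K]

/-- The coordinates, as a linear equivalence. -/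
def coE (D : PerData q f) : LL D K ≃ₗ[K] (Bool × ZMod q → K) where
  toFun y := co D y
  invFun x := ⟨fun c => x (false, c), fun c => x (true, c)⟩
  left_inv y := rfl
  right_inv x := by
    funext j
    rcases j with ⟨b, c⟩
    cases b <;> rfl
  map_add' x y := by
    funext j
    rcases j with ⟨b, c⟩
    cases b <;> simp [co]
  map_smul' r x := by
    funext j
    rcases j with ⟨b, c⟩
    cases b <;> simp [co]

/-- The basis of `L` over `K` which gives the coordinates `co`. -/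
noncomputable def bL (D : PerData q f) : Module.Basis (Bool × ZMod q) K (LL D K) :=
  Module.Basis.ofEquivFun (coE D)

theorem bL_repr (D : PerData q f) (y : LL D K) (j : Bool × ZMod q) :
    (bL D).repr y j = co D y j := rfl

instance finL (D : PerData q f) : FiniteDimensional K (LL D K) := Module.Finite.of_basis (bL D)

variable {V : Type*} [AddCommGroup V] [Module K V] {D : PerData q f} {R : Subring K}

theorem isPol_co {φ : V → LL D K} (hφ : IsPol K φ) (j : Bool × ZMod q) :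
    IsPol K (fun v => co D (φ v) j) :=
  (IsPol.linear ((bL D).coord j)).comp hφ

theorem isPol_star {φ : V → LL D K} (hφ : IsPol K φ) : IsPol K (fun v => star (φ v)) := by
  let l : LL D K →ₗ[K] LL D K :=
    { toFun := fun y => star y
      map_add' := fun x y => star_add x y
      map_smul' := fun r x => by ext <;> simp }
  exact (IsPol.linear l).comp hφ

theorem isPol_sL {φ : V → LL D K} (hφ : IsPol K φ) : IsPol K (fun v => sL D (φ v)) := by
  let l : LL D K →ₗ[K] LL D K :=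
    { toFun := fun y => sL D y
      map_add' := fun x y => map_add _ x y
      map_smul' := fun r x => rfl }
  exact (IsPol.linear l).comp hφ

theorem isPol_sL_iter {φ : V → LL D K} (hφ : IsPol K φ) (n : ℕ) :
    IsPol K (fun v => (sL D)^[n] (φ v)) := by
  induction n with
  | zero => exact hφ
  | succ n ih =>
    simp only [Function.iterate_succ_apply']
    exact isPol_sL ih

theorem isPol_algebraMap {φ : V → K} (hφ : IsPol K φ) :
    IsPol K (fun v => algebraMap K (LL D K) (φ v)) :=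
  (IsPol.linear (Algebra.linearMap K (LL D K))).comp hφ

theorem isPol_hD (g : ℕ) {φ : V → K} (hφ : IsPol K φ) : IsPol K (fun v => hD D g (φ v)) := by
  unfold hD
  exact IsPol.prod _ fun c _ =>
    (((isPol_algebraMap hφ).sub (IsPol.const _)).pow 2).add (IsPol.const _)

theorem isPol_nL {φ : V → LL D K} (hφ : IsPol K φ) : IsPol K (fun v => nL D (φ v)) := by
  unfold nL
  exact IsPol.prod _ fun i _ => (isPol_sL_iter hφ i).mul (isPol_star (isPol_sL_iter hφ i))

theorem dio_InR {φ : V → LL D K} (hφ : IsPol K φ) : Dio R {v | InR D (R : Set K) (φ v)} :=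
  Dio.memRb (bL D) hφ

theorem dio_InS {T : Set K} (hT : Dio R T) {φ : V → LL D K} (hφ : IsPol K φ) :
    Dio R {v | InR D T (φ v)} :=
  Dio.iInter (S := fun j => {v | co D (φ v) j ∈ T}) fun j => hT.preimage (isPol_co hφ j)

theorem dio_IsT {φ : V → LL D K} (hφ : IsPol K φ) : Dio R {v | QR.IsT D (-1 : K) (φ v)} :=
  (Dio.eq (hφ.mul (isPol_star hφ)) (IsPol.const 1)).inter
    (Dio.eq (IsPol.prod _ fun i _ => isPol_sL_iter hφ i) (IsPol.const 1))

theorem dio_exR {P : V → LL D K → Prop} (h : Dio R {x : V × LL D K | P x.1 x.2}) :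
    Dio R {v | ∃ z, InR D (R : Set K) z ∧ P v z} := by
  have h1 := Dio.exRb (bL D) h
  exact h1

end Basic

section Main

variable {q f : ℕ} [Fact q.Prime] {K : Type} [Field K] [NumberField K] {D : PerData q f}
  {R : Subring K} {V : Type*} [AddCommGroup V] [Module K V]

theorem dio_Sm {A : SPar D K} (h2 : Dio R (A.V 2)) {φ ψ : V → LL D K} (hφ : IsPol K φ)
    (hψ : IsPol K ψ) : Dio R {v | A.Sm (φ v) (ψ v)} := by
  refine Dio.iInter (S := fun j => {v | ∀ j', co D (φ v) j ^ A.c * co D (ψ v) j' /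
    (A.l 2 : K) ^ A.c0 ∈ A.V 2}) fun j => ?_
  refine Dio.iInter (S := fun j' => {v | co D (φ v) j ^ A.c * co D (ψ v) j' /
    (A.l 2 : K) ^ A.c0 ∈ A.V 2}) fun j' => ?_
  refine h2.preimage (φ := fun v => co D (φ v) j ^ A.c * co D (ψ v) j' / (A.l 2 : K) ^ A.c0) ?_
  simp only [div_eq_mul_inv]
  exact (((isPol_co hφ j).pow _).mul (isPol_co hψ j')).mul (IsPol.const _)

/-- **The encoder**: the system defines a Diophantine set. -/
theorem dio_Sys (A : SPar D K) (hG : GoodR R) (hV : ∀ i, Dio R (A.V i)) :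
    Dio R {t : K | Sys A (R : Set K) t} := by
  -- the coordinate functions
  have hx : ∀ i : Fin 8, IsPol K (fun x : K × (Fin 8 → LL D K) => x.2 i) := fun i =>
    IsPol.linear ((LinearMap.proj i : (Fin 8 → LL D K) →ₗ[K] LL D K).comp
      (LinearMap.snd K K (Fin 8 → LL D K)))
  have ht : IsPol K (fun x : K × (Fin 8 → LL D K) => x.1) := IsPol.fst
  -- torus elements
  have hT : ∀ (i : Fin 8) (a b : Fin 3), Dio R {x : K × (Fin 8 → LL D K) |
      QR.IsT D (-1 : K) (x.2 i) ∧ InR D (R : Set K) (x.2 i) ∧ InR D (A.V a) (x.2 i) ∧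
        InR D (A.V b) (x.2 i)} := fun i a b =>
    (dio_IsT (hx i)).inter ((dio_InR (hx i)).inter
      ((dio_InS (hV a) (hx i)).inter (dio_InS (hV b) (hx i))))
  -- divisibility
  have hdiv : ∀ φ ψ : K × (Fin 8 → LL D K) → LL D K, IsPol K φ → IsPol K ψ →
      Dio R {x | ∃ z, InR D (R : Set K) z ∧ φ x = ψ x * z} := fun φ ψ hφ hψ =>
    dio_exR (P := fun x z => φ x = ψ x * z)
      (Dio.eq (hφ.comp IsPol.fst) ((hψ.comp IsPol.fst).mul IsPol.snd))
  have hne : ∀ φ ψ : K × (Fin 8 → LL D K) → LL D K, IsPol K φ → IsPol K ψ →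
      Dio R {x | φ x ≠ ψ x} := by
    intro φ ψ hφ hψ
    have h1 := Dio.ne (R := R) hG (hφ.sub hψ)
    simpa only [ne_eq, sub_eq_zero] using h1
  have h0 : Dio R {x : K × (Fin 8 → LL D K) | x.1 ∈ R ∧ x.1 ∈ A.V 2} :=
    (Dio.memR ht).inter ((hV 2).preimage ht)
  have h1b : Dio R {x : K × (Fin 8 → LL D K) | ∀ j, ∃ z, InR D (R : Set K) z ∧
      x.2 0 - 1 = hD D A.g (co D ((x.2 1) ^ A.m) j) * z} :=
    Dio.iInter (S := fun j => {x : K × (Fin 8 → LL D K) | ∃ z, InR D (R : Set K) z ∧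
      x.2 0 - 1 = hD D A.g (co D ((x.2 1) ^ A.m) j) * z}) fun j =>
      hdiv _ _ ((hx 0).sub (IsPol.const 1)) (isPol_hD _ (isPol_co ((hx 1).pow _) j))
  have h2 : Dio R {x : K × (Fin 8 → LL D K) | ∃ w' : LL D K, InR D (R : Set K) w' ∧
      ((∀ i, InR D (A.V i) w') ∧ x.2 7 = 1 + ((A.l 0 * A.l 1 * A.l 2 : ℕ) : LL D K) * w')} := by
    refine dio_exR (P := fun (x : K × (Fin 8 → LL D K)) (w' : LL D K) =>
      (∀ i, InR D (A.V i) w') ∧
        x.2 7 = 1 + ((A.l 0 * A.l 1 * A.l 2 : ℕ) : LL D K) * w') ?_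
    refine Dio.inter (Dio.iInter (S := fun i => {x : (K × (Fin 8 → LL D K)) × LL D K |
      InR D (A.V i) x.2}) fun i => dio_InS (hV i) IsPol.snd) ?_
    exact Dio.eq ((hx 7).comp IsPol.fst) ((IsPol.const 1).add ((IsPol.const _).mul IsPol.snd))
  have h2b : Dio R {x : K × (Fin 8 → LL D K) | (x.2 7 * star (sL D (x.2 7))) ^ A.mu ≠
      (sL D (x.2 7) * star (x.2 7)) ^ A.mu} :=
    hne (fun x => (x.2 7 * star (sL D (x.2 7))) ^ A.mu)
      (fun x => (sL D (x.2 7) * star (x.2 7)) ^ A.mu)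
      (((hx 7).mul (isPol_star (isPol_sL (hx 7)))).pow _)
      (((isPol_sL (hx 7)).mul (isPol_star (hx 7))).pow _)
  have h3 : Dio R {x : K × (Fin 8 → LL D K) | ∃ z, InR D (R : Set K) z ∧
      ∑ i ∈ Finset.range (A.l 2), ((x.2 4) ^ A.m) ^ i = x.2 7 * z} :=
    hdiv _ _ (IsPol.sum _ fun i _ => ((hx 4).pow _).pow i) (hx 7)
  have h5 : Dio R {x : K × (Fin 8 → LL D K) | ∃ ga : LL D K, A.Sm (x.2 0) ga ∧
      ((x.2 6) ^ A.m - 1) - algebraMap K (LL D K) x.1 * ((x.2 5) ^ A.m - 1) =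
        ((x.2 5) ^ A.m - 1) * ga} := by
    refine Dio.exK (W := LL D K) hG (S := {y : (K × (Fin 8 → LL D K)) × LL D K |
      A.Sm (y.1.2 0) y.2 ∧ ((y.1.2 6) ^ A.m - 1) - algebraMap K (LL D K) y.1.1 *
        ((y.1.2 5) ^ A.m - 1) = ((y.1.2 5) ^ A.m - 1) * y.2}) ?_
    refine (dio_Sm (hV 2) ((hx 0).comp IsPol.fst) IsPol.snd).inter (Dio.eq ?_ ?_)
    · exact ((((hx 6).comp IsPol.fst).pow _).sub (IsPol.const 1)).sub
        ((isPol_algebraMap (ht.comp IsPol.fst)).mul
          ((((hx 5).comp IsPol.fst).pow _).sub (IsPol.const 1)))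
    · exact ((((hx 5).comp IsPol.fst).pow _).sub (IsPol.const 1)).mul IsPol.snd
  have key := Dio.exK (W := Fin 8 → LL D K) hG
    ((hT 0 0 1).inter <| (hT 1 1 2).inter <| (hT 2 1 2).inter <| (hT 3 1 2).inter <|
      (hT 4 1 2).inter <| (hT 5 0 2).inter <| (hT 6 0 2).inter <| h0.inter <|
      (hne _ _ (hx 0) (IsPol.const 1)).inter <|
      (hdiv _ _ ((hx 0).sub (IsPol.const 1)) (isPol_hD A.g ht)).inter <| h1b.inter <|
      h2.inter <| h2b.inter <| h3.inter <|
      (hdiv _ _ (((hx 2).pow A.m).sub ((hx 5).pow A.m)) (isPol_nL (hx 7))).inter <|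
      (hdiv _ _ (((hx 3).pow A.m).sub ((hx 6).pow A.m)) (isPol_nL (hx 7))).inter <|
      (dio_Sm (hV 2) (hx 0) (((hx 2).pow A.m).sub (IsPol.const (A.P ^ A.m)))).inter <|
      (dio_Sm (hV 2) (hx 0) (((hx 3).pow A.m).sub ((hx 1).pow A.m))).inter <|
      (dio_Sm (hV 2) (hx 0) (((hx 5).pow A.m).sub (IsPol.const 1))).inter <|
      (dio_Sm (hV 2) (hx 0) (((hx 4).pow A.m).sub (IsPol.const 1))).inter <|
      (hne _ _ ((hx 5).pow A.m) (IsPol.const 1)).inter h5)
  convert key using 1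
  ext t
  constructor
  · rintro ⟨S, k, a, c, G, b, d, w, h1, h2, h3, h4, h5, h6, h7, h8, h9, h10, h11, h12, h13, h14,
      h15, h16, h17, h18, h19, h20, h21, h22⟩
    have hex : ∃ w' : LL D K, InR D (R : Set K) w' ∧ ((∀ i, InR D (A.V i) w') ∧
        w = 1 + ((A.l 0 * A.l 1 * A.l 2 : ℕ) : LL D K) * w') := by
      obtain ⟨w', ha, hb, hc⟩ := h12
      exact ⟨w', ha, hb, hc⟩
    exact ⟨![S, k, a, c, G, b, d, w], h1, h2, h3, h4, h5, h6, h7, h8, h9, h10, h11, hex, h13, h14,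
      h15, h16, h17, h18, h19, h20, h21, h22⟩
  · rintro ⟨x, h1, h2, h3, h4, h5, h6, h7, h8, h9, h10, h11, ⟨w', ha, hb, hc⟩, h13, h14, h15, h16,
      h17, h18, h19, h20, h21, h22⟩
    exact ⟨x 0, x 1, x 2, x 3, x 4, x 5, x 6, x 7, h1, h2, h3, h4, h5, h6, h7, h8, h9, h10, h11,
      ⟨w', ha, hb, hc⟩, h13, h14, h15, h16, h17, h18, h19, h20, h21, h22⟩

end Main

end Pool.Agent.C50
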