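import Pool.Agent.Lib.MP_673eb1_lc.C50.CompSpec
import Pool.Agent.Lib.MP_673eb1_lc.C50.Enc

/-!
MP_673eb1_lc, project C50: `S_BR1`.
-/

set_option autoImplicit false

open NumberField IsDedekindDomain

namespace Pool.Agent.C50

open Pool.Agent.Lib.MP_673eb1_lc Pool.Agent.ZD Pool.Agent.ZT WithZero

variable {q f : ℕ} [Fact q.Prime] {D : PerData q f} {K L : Type} [Field K] [NumberField K] [Field L]
  [NumberField L] [Algebra K L]

/-- the coordinates of an element of `L` as a linear map -/
noncomputable def coL (F : Fr D K L) (j : Bool × ZMod q) : L →ₗ[K] K :=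
  ((bL D).coord j).comp F.e.symm.toLinearMap

theorem coL_apply (F : Fr D K L) (j : Bool × ZMod q) (y : L) :
    coL F j y = co D (F.e.symm y) j := rfl

/-- a common denominator of the coordinates of the algebraic integers -/
theorem exists_den (F : Fr D K L) : ∃ C : ℕ, C ≠ 0 ∧
    ∀ (y : 𝓞 L) (j : Bool × ZMod q), IsIntegral ℤ ((C : K) * coL F j (y : L)) := by
  classical
  obtain ⟨s, hs⟩ := (Module.Finite.fg_top : (⊤ : Submodule (𝓞 K) (𝓞 L)).FG)
  have halg : Algebra.IsAlgebraic ℤ K :=
    (IsFractionRing.comap_isAlgebraic_iff (A := ℤ) (K := ℚ) (C := K)).2 inferInstance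
  obtain ⟨a, ha, hint⟩ := Algebra.IsAlgebraic.exists_integral_multiples (R := ℤ) (A := K)
    ((s ×ˢ (Finset.univ : Finset (Bool × ZMod q))).image fun x => coL F x.2 ((x.1 : 𝓞 L) : L))
  refine ⟨a.natAbs, Int.natAbs_ne_zero.2 ha, fun y j => ?_⟩
  have h1 : ∀ y : 𝓞 L, IsIntegral ℤ ((a : K) * coL F j (y : L)) := by
    intro y
    have hy : y ∈ Submodule.span (𝓞 K) (s : Set (𝓞 L)) := by rw [hs]; trivial
    induction hy using Submodule.span_induction with
    | mem x hx =>
      have h := hint (coL F j (x : L))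
        (Finset.mem_image.2 ⟨(x, j), Finset.mem_product.2 ⟨hx, Finset.mem_univ _⟩, rfl⟩)
      rwa [zsmul_eq_mul] at h
    | zero =>
      have e : ((0 : 𝓞 L) : L) = 0 := map_zero _
      rw [e, map_zero, mul_zero]
      exact isIntegral_zero
    | add x y _ _ hx hy =>
      have e : ((x + y : 𝓞 L) : L) = (x : L) + (y : L) := map_add _ _ _
      rw [e, map_add, mul_add]
      exact hx.add hy
    | smul r x _ hx =>
      have e : ((r • x : 𝓞 L) : L) = (r : K) • (x : L) := by
        rw [Algebra.smul_def, Algebra.smul_def]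
        rfl
      rw [e, map_smul, smul_eq_mul]
      have e2 : (a : K) * ((r : K) * coL F j (x : L)) = (r : K) * ((a : K) * coL F j (x : L)) := by
        ring
      rw [e2]
      exact (r.2).mul hx
  rcases Int.natAbs_eq a with h | h
  · have e : ((a.natAbs : ℕ) : K) = (a : K) := by
      conv_rhs => rw [h]
      rw [Int.cast_natCast]
    rw [e]
    exact h1 y
  · have e : ((a.natAbs : ℕ) : K) = -(a : K) := by
      conv_rhs => rw [h]
      rw [Int.cast_neg, Int.cast_natCast, neg_neg]
    rw [e, neg_mul]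
    exact (h1 y).neg

omit [Fact q.Prime] in
/-- an element which is integral above `v`, times an element prime to `v`, is integral -/
theorem exists_mul_int (v : HeightOneSpectrum (𝓞 K)) (y : L)
    (hy : ∀ w ∈ abv L v, w.valuation L y ≤ 1) :
    ∃ s : 𝓞 K, s ∉ v.asIdeal ∧
      ∀ w : HeightOneSpectrum (𝓞 L), w.valuation L (algebraMap K L (s : K) * y) ≤ 1 := by
  classical
  have hfin := HeightOneSpectrum.Support.finite (𝓞 L) y
  -- for every bad prime `w` an element of `K` which kills the pole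
  have h1 : ∀ w : HeightOneSpectrum (𝓞 L), w ∉ abv L v →
      ∃ s : 𝓞 K, s ∉ v.asIdeal ∧ w.valuation L (algebraMap K L (s : K) * y) ≤ 1 := by
    intro w hw
    have hne : (w.under (𝓞 K)) ≠ v := hw
    obtain ⟨s, hs, hs2⟩ : ∃ s ∈ (w.under (𝓞 K)).asIdeal, s ∉ v.asIdeal := by
      by_contra hcon
      push Not at hcon
      have hle : (w.under (𝓞 K)).asIdeal ≤ v.asIdeal := hcon
      have := (w.under (𝓞 K)).isMaximal.eq_of_le v.isPrime.ne_top hle
      exact hne (HeightOneSpectrum.ext this)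
    by_cases hy0 : y = 0
    · refine ⟨s, hs2, ?_⟩
      rw [hy0, mul_zero, map_zero]
      exact zero_le_one
    have hws : w.valuation L (algebraMap K L (s : K)) < 1 := by
      rw [(val_under w (s : K)).1]
      exact (HeightOneSpectrum.valuation_lt_one_iff_mem (K := K) (w.under (𝓞 K)) s).2 hs
    have hw0 : w.valuation L y ≠ 0 := by rwa [Ne, map_eq_zero]
    obtain ⟨m, hm⟩ : ∃ m : ℤ, w.valuation L y = exp m := ⟨log (w.valuation L y), (exp_log hw0).symm⟩
    have hws2 : w.valuation L (algebraMap K L (s : K)) ≤ exp (-1 : ℤ) := by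
      rcases eq_or_ne (w.valuation L (algebraMap K L (s : K))) 0 with h | h
      · rw [h]
        exact zero_le
      · rw [← exp_log h] at hws ⊢
        rw [← exp_zero, exp_lt_exp] at hws
        rw [exp_le_exp]
        omega
    refine ⟨s ^ m.toNat, fun h => hs2 (v.isPrime.mem_of_pow_mem _ h), ?_⟩
    have e : algebraMap K L ((s ^ m.toNat : 𝓞 K) : K) = algebraMap K L (s : K) ^ m.toNat := by
      rw [← map_pow]
      rfl
    rw [e, map_mul, map_pow, hm]
    calc (w.valuation L (algebraMap K L (s : K))) ^ m.toNat * exp m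
        ≤ (exp (-1 : ℤ)) ^ m.toNat * exp m := mul_le_mul_left (pow_le_pow_left₀ zero_le hws2 _) _
      _ ≤ 1 := by
        rw [← exp_nsmul, ← exp_add, ← exp_zero, exp_le_exp, nsmul_eq_mul]
        omega
  have h2 : ∀ w : HeightOneSpectrum (𝓞 L), ∃ s : 𝓞 K, s ∉ v.asIdeal ∧
      w.valuation L (algebraMap K L (s : K) * y) ≤ 1 := by
    intro w
    by_cases hw : w ∈ abv L v
    · refine ⟨1, fun h => v.isPrime.ne_top ((Ideal.eq_top_iff_one _).2 h), ?_⟩
      have e : algebraMap K L ((1 : 𝓞 K) : K) = 1 := by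
        have : ((1 : 𝓞 K) : K) = 1 := map_one _
        rw [this, map_one]
      rw [e, one_mul]
      exact hy w hw
    · exact h1 w hw
  choose s hs hs2 using h2
  refine ⟨∏ w ∈ hfin.toFinset, s w, ?_, ?_⟩
  · intro h
    obtain ⟨w, -, hw⟩ := (v.isPrime.prod_mem_iff).1 h
    exact hs w hw
  · intro w
    have hint : ∀ r : 𝓞 K, w.valuation L (algebraMap K L (r : K)) ≤ 1 := by
      intro r
      have e : algebraMap K L (r : K) = ((algebraMap (𝓞 K) (𝓞 L) r : 𝓞 L) : L) := rfl
      rw [e]
      exact w.valuation_le_one _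
    by_cases hw : w ∈ hfin.toFinset
    · have e : (∏ w ∈ hfin.toFinset, s w) = (∏ w ∈ hfin.toFinset.erase w, s w) * s w :=
        (Finset.prod_erase_mul _ _ hw).symm
      have e2 : algebraMap K L ((((∏ w ∈ hfin.toFinset.erase w, s w) * s w : 𝓞 K)) : K) * y =
          algebraMap K L ((∏ w ∈ hfin.toFinset.erase w, s w : 𝓞 K) : K) *
            (algebraMap K L (s w : K) * y) := by
        have e3 : ((((∏ w ∈ hfin.toFinset.erase w, s w) * s w : 𝓞 K)) : K) =
          ((∏ w ∈ hfin.toFinset.erase w, s w : 𝓞 K) : K) * (s w : K) := map_mul _ _ _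
        rw [e3, map_mul, mul_assoc]
      rw [e, e2, map_mul]
      exact mul_le_one' (hint _) (hs2 w)
    · have h3 : ¬ 1 < w.valuation L y := fun h => hw (hfin.mem_toFinset.2 h)
      rw [map_mul]
      exact mul_le_one' (hint _) (not_lt.1 h3)

/-- If `y` is integral above `v`, then the coordinates of `C y` are integral at `v`. -/
theorem val_coL_le (F : Fr D K L) {C : ℕ}
    (hC : ∀ (y : 𝓞 L) (j : Bool × ZMod q), IsIntegral ℤ ((C : K) * coL F j (y : L)))
    (v : HeightOneSpectrum (𝓞 K)) (y : L) (hy : ∀ w ∈ abv L v, w.valuation L y ≤ 1)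
    (j : Bool × ZMod q) : v.valuation K ((C : K) * coL F j y) ≤ 1 := by
  obtain ⟨s, hs, hs2⟩ := exists_mul_int v y hy
  obtain ⟨z, hz⟩ := HeightOneSpectrum.mem_integers_of_valuation_le_one L
    (algebraMap K L (s : K) * y) hs2
  have h1 := hC z j
  have e1 : (z : L) = (s : K) • y := by
    rw [Algebra.smul_def]
    exact hz
  rw [e1, map_smul, smul_eq_mul] at h1
  have h2 : v.valuation K ((C : K) * ((s : K) * coL F j y)) ≤ 1 :=
    v.valuation_le_one (⟨_, h1⟩ : 𝓞 K)
  have h3 : v.valuation K (s : K) = 1 := by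
    have h4 := v.valuation_le_one (K := K) s
    rcases h4.lt_or_eq with h | h
    · exact absurd ((HeightOneSpectrum.valuation_lt_one_iff_mem (K := K) v s).1 h) hs
    · exact h
  rw [map_mul, map_mul, h3, one_mul, ← map_mul] at h2
  exact h2

/-- **BR1** -/
theorem br1 : S_BR1 := by
  intro q f _ D K L _ _ _ _ _ F
  obtain ⟨C, hC0, hC⟩ := exists_den F
  refine ⟨C, hC0, fun W y hy j => ?_⟩
  change ∀ v ∉ W, v.valuation K (co D (F.e.symm y) j) ≤ 1
  intro v hv
  have hCL : (C : L) ≠ 0 := Nat.cast_ne_zero.2 hC0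
  have h1 := val_coL_le F hC v ((C : L)⁻¹ * y) (fun w hw => by
    have hw2 : w.under (𝓞 K) ∉ W := by
      have : w.under (𝓞 K) = v := hw
      rwa [this]
    rw [map_mul, map_inv₀]
    have h0 : w.valuation L (C : L) ≠ 0 := by rwa [Ne, map_eq_zero]
    calc (w.valuation L (C : L))⁻¹ * w.valuation L y
        ≤ (w.valuation L (C : L))⁻¹ * w.valuation L (C : L) := mul_le_mul_right (hy w hw2) _
      _ = 1 := inv_mul_cancel₀ h0) j
  have e : (C : K) * coL F j ((C : L)⁻¹ * y) = co D (F.e.symm y) j := by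
    rw [← smul_eq_mul, ← map_smul, coL_apply, Algebra.smul_def, map_natCast, mul_inv_cancel_left₀ hCL]
  rw [e] at h1
  exact h1

end Pool.Agent.C50
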