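import Pool.Agent.Lib.MP_673eb1_lc.C50.SndA
import Pool.Agent.Lib.ZS.Hts
import Pool.Agent.Lib.ZS.Num

/-!
# Soundness: the `p`-adic part
-/

set_option autoImplicit false

namespace Pool.Agent.C50

open NumberField IsDedekindDomain Pool.Agent.ZD Pool.Agent.ZT Pool.Agent.ZS WithZero

variable {K L : Type} [Field K] [NumberField K] [Field L] [NumberField L] [Algebra K L] {q : ℕ}
  {D : Tor K L q} (P : Par D)

/-- the valuation at `v₃` and above -/
theorem val_up {w : HeightOneSpectrum (𝓞 L)} (hw : w ∈ abv L P.v₃) :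
    P.v₃.valuation K (P.p : K) = exp (-1 : ℤ) ∧
      ∀ x : K, w.valuation L (algebraMap K L x) = P.v₃.valuation K x := by
  have hlo : w.asIdeal.LiesOver P.v₃.asIdeal := liesOver hw
  obtain ⟨e, he⟩ : ∃ e, e = P.v₃.asIdeal.ramificationIdx' w.asIdeal := ⟨_, rfl⟩
  have h1 : ∀ x : K, P.v₃.valuation K x ^ e = w.valuation L (algebraMap K L x) := by
    intro x
    rw [he]
    exact HeightOneSpectrum.valuation_liesOver L P.v₃ w x
  have hp0 : (P.p : K) ≠ 0 := by exact_mod_cast P.hp.ne_zero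
  have h2 := h1 (P.p : K)
  rw [map_natCast (algebraMap K L), P.hunr w hw] at h2
  obtain ⟨a, ha⟩ : ∃ a : ℤ, P.v₃.valuation K (P.p : K) = exp a :=
    ⟨_, (exp_log ((Valuation.ne_zero_iff _).2 hp0)).symm⟩
  have h3 : (e : ℤ) * a = -1 := by
    rw [ha, ← exp_nsmul, exp_inj, nsmul_eq_mul] at h2
    exact h2
  have h4 : e = 1 := by
    have h5 : (e : ℤ) ∣ 1 := ⟨-a, by linarith⟩
    have h6 : e ∣ 1 := by exact_mod_cast h5
    exact Nat.dvd_one.1 h6
  subst h4
  constructor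
  · rw [ha]
    congr 1
    push_cast at h3
    linarith
  · intro x
    rw [← h1 x, pow_one]

/-- a natural number near `t` -/
theorem nat_near {t : K} (ht : P.v₃.valuation K t ≤ 1) (N : ℕ) :
    ∃ n : ℕ, P.v₃.valuation K (t - n) ≤ exp (-(N : ℤ)) := by
  obtain ⟨w, hw⟩ := abv_nonempty (L := L) P.v₃
  have hp1 := (val_up P hw).1
  obtain ⟨z, hz⟩ := appr P.v₃ P.hnm P.hp hp1 ht N
  have hpos : 0 ≤ z + (P.p : ℤ) ^ N * |z| := by
    have h1 : (1 : ℤ) ≤ (P.p : ℤ) ^ N := by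
      have : (1 : ℤ) ≤ P.p := by exact_mod_cast P.hp.one_lt.le
      exact one_le_pow₀ this
    nlinarith [neg_abs_le z, abs_nonneg z]
  obtain ⟨n, hn⟩ := Int.eq_ofNat_of_zero_le hpos
  refine ⟨n, ?_⟩
  have h2 : t - (n : K) = (t - z) - (P.p : K) ^ N * ((|z| : ℤ) : K) := by
    have h3 : (n : K) = ((n : ℤ) : K) := by push_cast; rfl
    rw [h3, ← hn]
    push_cast
    ring
  rw [h2]
  refine (Valuation.map_sub _ _ _).trans (max_le hz ?_)
  rw [map_mul, map_pow, hp1, ← exp_nsmul, nsmul_eq_mul]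
  have h4 : P.v₃.valuation K ((|z| : ℤ) : K) ≤ 1 := ZS.val_int_le_one _ _
  refine (mul_le_of_le_one_right zero_le h4).trans ?_
  rw [exp_le_exp]
  linarith

/-- **(H7)** the relation `d = b ^ t'` up to the level `s(b) + J` -/
theorem h7 {J : ℕ} {t : K} {n : ℕ} (hn : P.v₃.valuation K (t - n) ≤ exp (-(J : ℤ)))
    {b d : Additive D.T}
    (hb : ∀ w ∈ abv L P.v₃, w.valuation L (D.el b - 1) ≤ exp (-(J : ℤ)))
    (hd : ∀ w ∈ abv L P.v₃, w.valuation L ((D.el d - 1) - algebraMap K L t * (D.el b - 1)) ≤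
      exp (-(J : ℤ)) * w.valuation L (D.el b - 1)) (k : ℕ) (hk : b ∈ D.Fv P.v₃ k) :
    d - n • b ∈ D.Fv P.v₃ (k + J) := by
  have hb1 : ∀ w ∈ abv L P.v₃, w.valuation L (D.el b) = 1 :=
    D.el_one_of_sub (S := abv L P.v₃) (fun g _ hw => cj_mem_abv g hw)
      (fun w hw => (hb w hw).trans (Tor.exp_neg_le_one _))
  intro w hw
  have hkw := hk w hw
  have e1 : D.el (d - n • b) - 1 = (D.el d - D.el b ^ n) / D.el b ^ n := by
    rw [D.el_sub, D.el_nsmul, sub_div, div_self (pow_ne_zero _ (D.el_ne b))]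
  rw [e1, map_div₀, map_pow, hb1 w hw, one_pow, div_one]
  have e2 : D.el d - D.el b ^ n = ((D.el d - 1) - algebraMap K L t * (D.el b - 1)) +
      (algebraMap K L (t - n) * (D.el b - 1) - (D.el b ^ n - 1 - n * (D.el b - 1))) := by
    rw [map_sub, map_natCast]
    ring
  have hsum : exp (-(J : ℤ)) * exp (-(k : ℤ)) = (exp (-((k + J : ℕ) : ℤ)) : ℤᵐ⁰) := by
    rw [← exp_add]
    congr 1
    push_cast
    ring
  rw [e2]
  refine (Valuation.map_add _ _ _).trans (max_le ?_ ((Valuation.map_sub _ _ _).trans (max_le ?_ ?_)))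
  · refine (hd w hw).trans ?_
    rw [← hsum]
    gcongr
  · rw [map_mul, (val_up P hw).2, ← hsum]
    gcongr
  · refine (binom_val w (hb1 w hw).le n).trans ?_
    rw [← hsum]
    exact mul_le_mul' (hb w hw) hkw

/-- the exact level of a point `u ≠ 1` -/
theorem exists_level {u : Additive D.T} (h1 : ∀ w ∈ abv L P.v₃, w.valuation L (D.el u - 1) ≤ exp (-1 : ℤ))
    (hu : D.el u ≠ 1) : ∃ l, 1 ≤ l ∧ u ∈ D.Fv P.v₃ l ∧ u ∉ D.Fv P.v₃ (l + 1) := by
  classical
  have hu0 : u ≠ 0 := by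
    rintro rfl
    exact hu D.el_zero
  obtain ⟨n, hn⟩ := D.fil_sep (v := P.v₃) hu0
  have hex : ∃ n, u ∉ D.Fv P.v₃ n := ⟨n, hn⟩
  have hfil := D.fil P.hp P.p2 (v := P.v₃) P.hunr
  have h3 : u ∈ D.Fv P.v₃ 1 := by
    intro w hw
    have := h1 w hw
    simpa using this
  have h4 := Nat.find_spec hex
  have h5 : 2 ≤ Nat.find hex := by
    by_contra h6
    push Not at h6
    exact h4 (hfil.le (by omega) h3)
  obtain ⟨l, hl⟩ : ∃ l, Nat.find hex = l + 1 := ⟨Nat.find hex - 1, by omega⟩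
  refine ⟨l, by omega, ?_, ?_⟩
  · exact not_not.1 (Nat.find_min hex (m := l) (by omega))
  · rw [← hl]
    exact h4

end Pool.Agent.C50
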