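import Pool.Agent.Lib.MP_673eb1_lc.C50.CompSpec
import Pool.Agent.Lib.MP_673eb1_lc.C50.Enc
import Pool.Agent.Lib.MP_673eb1_lc.C50.SndB

/-!
MP_673eb1_lc, project C50: the BRIDGE from the coordinate form `Sys` of the system to the semantic form `Wit`.

`Link F A P c₀` collects the equations between the parameters `A` of the system and helper80's `P : Par F.T`.
`bridge : Link F A P c₀ → Sys A (Wring K P.Sg) t → Nonempty (Wit P c₀ t)`.
-/

set_option autoImplicit false

namespace Pool.Agent.C50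

open NumberField IsDedekindDomain Pool.Agent.Lib.MP_673eb1_lc Pool.Agent.ZD Pool.Agent.ZT
  Pool.Agent.ZS WithZero

variable {q f : ℕ} [Fact q.Prime] {D : PerData q f} {K L : Type} [Field K] [NumberField K] [Field L]
  [NumberField L] [Algebra K L]

/-! ## The basis -/

omit [NumberField K] in
theorem co_bL (j j' : Bool × ZMod q) :
    co D (bL D j : LL D K) j' = if j' = j then 1 else 0 := by
  rw [← bL_repr, Module.Basis.repr_self, Finsupp.single_apply]
  simp only [eq_comm]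

omit [NumberField K] in
theorem bL_false (c : ZMod q) : (bL D (false, c) : LL D K) = ofPR D (PR.e D c) := by
  refine QuadraticAlgebra.ext ?_ ?_
  · refine PR.ext D fun k => ?_
    have h := co_bL (D := D) (K := K) (false, c) (false, k)
    have h1 : co D (bL D (false, c) : LL D K) (false, k) = (bL D (false, c) : LL D K).re k := rfl
    rw [h1] at h
    rw [h]
    simp [ofPR]
  · refine PR.ext D fun k => ?_
    have h := co_bL (D := D) (K := K) (false, c) (true, k)
    have h1 : co D (bL D (false, c) : LL D K) (true, k) = (bL D (false, c) : LL D K).im k := rfl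
    rw [h1] at h
    rw [h]
    simp [ofPR]

omit [NumberField K] in
theorem bL_true (c : ZMod q) :
    (bL D (true, c) : LL D K) = ofPR D (PR.e D c) * (⟨0, 1⟩ : LL D K) := by
  refine QuadraticAlgebra.ext ?_ ?_
  · refine PR.ext D fun k => ?_
    have h := co_bL (D := D) (K := K) (true, c) (false, k)
    have h1 : co D (bL D (true, c) : LL D K) (false, k) = (bL D (true, c) : LL D K).re k := rfl
    rw [h1] at h
    rw [h]
    simp [ofPR]
  · refine PR.ext D fun k => ?_
    have h := co_bL (D := D) (K := K) (true, c) (true, k)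
    have h1 : co D (bL D (true, c) : LL D K) (true, k) = (bL D (true, c) : LL D K).im k := rfl
    rw [h1] at h
    rw [h]
    simp [ofPR]

omit [NumberField K] in
theorem i_mul_i : (⟨0, 1⟩ : LL D K) * ⟨0, 1⟩ = -1 := by
  refine QuadraticAlgebra.ext ?_ ?_
  · simp
    rfl
  · simp
    rfl

section frame

variable (F : Fr D K L)

/-- an element in coordinates -/
theorem expand (y : LL D K) :
    F.e y = ∑ j, algebraMap K L (co D y j) * F.e (bL D j) := by
  conv_lhs => rw [← (bL D).sum_repr y]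
  rw [map_sum]
  refine Finset.sum_congr rfl fun j _ => ?_
  rw [map_smul, Algebra.smul_def]
  rfl

/-- the ring map `ℤ[e_c] → L` -/
noncomputable def zL : PR D ℤ →+* L :=
  (F.e : LL D K →+* L).comp ((algebraMap (PR D K) (LL D K)).comp (PR.map D (Int.castRingHom K)))

theorem int_zL (x : PR D ℤ) : IsIntegral ℤ (zL F x) := by
  have h1 : @Module.Finite ℤ (PR D ℤ) _ _ (AddCommGroup.toIntModule (PR D ℤ)) := by
    let φ : (ZMod q → ℤ) →+ PR D ℤ :=
      { toFun := fun x => x, map_zero' := rfl, map_add' := fun _ _ => rfl }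
    exact Module.Finite.of_surjective φ.toIntLinearMap (fun x => ⟨x, rfl⟩)
  have h2 : @IsIntegral ℤ (PR D ℤ) _ _ (Ring.toIntAlgebra _) x :=
    @IsIntegral.of_finite ℤ (PR D ℤ) _ _ (Ring.toIntAlgebra _) h1 x
  exact map_isIntegral_int (zL F) h2

theorem int_e (c : ZMod q) : IsIntegral ℤ (F.e (ofPR D (PR.e D c))) := by
  have h := int_zL F (PR.e D c)
  have h2 : zL F (PR.e D c) = F.e (ofPR D (PR.e D c)) := by
    change F.e (algebraMap (PR D K) (LL D K) (PR.map D (Int.castRingHom K) (PR.e D c))) = _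
    congr 1
    refine QuadraticAlgebra.ext ?_ ?_
    · refine PR.ext D fun k => ?_
      simp [ofPR]
    · simp [ofPR]
  rwa [h2] at h

theorem int_bL (j : Bool × ZMod q) : IsIntegral ℤ (F.e (bL D j)) := by
  rcases j with ⟨b, c⟩
  cases b
  · rw [bL_false]
    exact int_e F c
  · rw [bL_true, map_mul]
    refine (int_e F c).mul ?_
    refine IsIntegral.of_pow (n := 2) two_pos ?_
    rw [pow_two, ← map_mul, i_mul_i, map_neg, map_one]
    exact isIntegral_one.neg

/-! ## Coordinates and valuations -/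

omit [Fact q.Prime] in
theorem val_ext_le {v : HeightOneSpectrum (𝓞 K)} {w : HeightOneSpectrum (𝓞 L)} (hw : w ∈ abv L v)
    {x : K} (hx : v.valuation K x ≤ 1) : w.valuation L (algebraMap K L x) ≤ 1 := by
  have h1 := val_under w x
  have h2 : w.under (𝓞 K) = v := hw
  rw [h2] at h1
  rcases hx.lt_or_eq with h | h
  · exact (h1.1.2 h).le
  · exact (h1.2.2 h).le

theorem val_co {v : HeightOneSpectrum (𝓞 K)} {w : HeightOneSpectrum (𝓞 L)} (hw : w ∈ abv L v)
    {y : LL D K} (hy : ∀ j, v.valuation K (co D y j) ≤ 1) : w.valuation L (F.e y) ≤ 1 := by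
  rw [expand F]
  refine val_sum_le w _ _ fun j _ => ?_
  rw [map_mul]
  exact mul_le_one' (val_ext_le hw (hy j)) (w.valuation_le_one (⟨F.e (bL D j), int_bL F j⟩ : 𝓞 L))

theorem val_co₃ (P : Par F.T) {w : HeightOneSpectrum (𝓞 L)} (hw : w ∈ abv L P.v₃) {y : LL D K}
    {r : ℤᵐ⁰} (hy : ∀ j, P.v₃.valuation K (co D y j) ≤ r) : w.valuation L (F.e y) ≤ r := by
  rw [expand F]
  refine val_sum_le w _ _ fun j _ => ?_
  rw [map_mul, (val_up P hw).2]
  exact (mul_le_of_le_one_right' (w.valuation_le_one (⟨F.e (bL D j), int_bL F j⟩ : 𝓞 L))).trans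
    (hy j)

/-- an element with coordinates in `Wring K W` is integral at the primes which are not above `W` -/
theorem val_vis (P : Par F.T) {w : HeightOneSpectrum (𝓞 L)} (hw : w ∈ P.vis) {y : LL D K}
    (hy : InR D (Wring K P.Sg : Set K) y) : w.valuation L (F.e y) ≤ 1 :=
  val_co F (v := w.under (𝓞 K)) rfl fun j => hy j _ hw

/-! ## The torus, the forms -/

theorem e_iter (y : LL D K) (i : ℕ) : F.e ((sL D)^[i] y) = (F.T.σ ^ i) (F.e y) := by
  induction i with
  | zero => rfl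
  | succ i ih =>
    rw [Function.iterate_succ_apply', pow_succ', AlgEquiv.mul_apply, ← ih]
    exact F.es _

theorem exists_el {y : LL D K} (hy : QR.IsT D (-1 : K) y) :
    ∃ x : Additive F.T.T, F.T.el x = F.e y := by
  have h1 : F.e y * F.T.τ (F.e y) = 1 := by rw [← F.et, ← map_mul, hy.1, map_one]
  have h0 : F.e y ≠ 0 := left_ne_zero_of_mul_eq_one h1
  refine ⟨Additive.ofMul ⟨Units.mk0 (F.e y) h0, h1, ?_⟩, rfl⟩
  have h2 := congrArg F.e hy.2
  rw [map_prod, map_one] at h2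
  rw [← h2]
  refine Finset.prod_congr rfl fun i _ => ?_
  rw [Units.val_mk0]
  exact (e_iter F y i).symm

omit [NumberField K] in
theorem sL_e (c : ZMod q) : sL D (ofPR D (PR.e D c) : LL D K) = ofPR D (PR.e D (c + 1)) := by
  refine QuadraticAlgebra.ext ?_ ?_
  · refine PR.ext D fun k => ?_
    change (PR.e D c : PR D K) (k - 1) = (PR.e D (c + 1) : PR D K) k
    simp only [PR.e_apply, sub_eq_iff_eq_add]
  · refine PR.ext D fun k => ?_
    rfl

theorem σ_e (i : ℕ) :
    (F.T.σ ^ i) (F.e (ofPR D (PR.e D 0))) = F.e (ofPR D (PR.e D ((i : ℕ) : ZMod q))) := by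
  induction i with
  | zero =>
    rw [pow_zero, Nat.cast_zero]
    rfl
  | succ i ih =>
    rw [pow_succ', AlgEquiv.mul_apply, ih, ← F.es, sL_e, Nat.cast_succ]

theorem e_hD (P : Par F.T) (hβ : P.β = F.e (ofPR D (PR.e D 0))) {g : ℕ} (hg : P.g = g) (x : K) :
    F.e (hD D g x) = P.frm x := by
  unfold hD Par.frm Dv
  rw [map_prod]
  refine Finset.prod_nbij' (fun c : ZMod q => c.val) (fun i : ℕ => (i : ZMod q)) ?_ ?_ ?_ ?_ ?_
  · intro c _
    exact Finset.mem_range.2 (ZMod.val_lt c)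
  · intro i _
    exact Finset.mem_univ _
  · intro c _
    exact ZMod.natCast_zmod_val c
  · intro i hi
    exact ZMod.val_cast_of_lt (Finset.mem_range.1 hi)
  · intro c _
    change _ = (algebraMap K L x - (F.T.σ ^ c.val) P.β) ^ 2 + (P.g : L)
    rw [map_add, map_pow, map_sub, map_natCast, AlgEquiv.commutes, hβ, σ_e, hg,
      ZMod.natCast_zmod_val]

theorem e_nLB (w : LL D K) : F.e (nL D w) = nrm F.T (F.e w) := by
  unfold nL nrm
  rw [map_prod]
  refine Finset.prod_congr rfl fun i _ => ?_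
  rw [map_mul, F.et, e_iter, F.T.app_comm F.T.τ (F.T.σ ^ i)]

end frame

/-! ## The bridge -/

/-- The equations between the parameters of the system and those of the soundness proof. -/
structure Link (F : Fr D K L) (A : SPar D K) (P : Par F.T) (c₀ : ℕ) : Prop where
  v0 : A.v 0 = P.v₁
  v1 : A.v 1 = P.v₂
  v2 : A.v 2 = P.v₃
  p : A.l 2 = P.p
  l : ∀ i, ((A.l i : ℕ) : 𝓞 K) ∈ (A.v i).asIdeal
  m : A.m = P.m
  μ : A.mu = P.μ
  g : A.g = P.g
  c : A.c = 2
  c0 : A.c0 = c₀
  β : P.β = F.e (ofPR D (PR.e D 0))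
  ω : ∃ E : Fin P.n ≃ Bool × ZMod q, ∀ j, P.ω j = F.e (bL D (E j))
  Q : F.T.el P.Q₁ = F.e A.P ^ A.m

theorem exp_of_one_le {r : ℤᵐ⁰} (h : 1 ≤ r) : ∃ M : ℕ, r = exp (M : ℤ) := by
  have h0 : r ≠ 0 := by
    rintro rfl
    exact absurd h (by simp)
  obtain ⟨a, ha⟩ : ∃ a : ℤ, r = exp a := ⟨log r, (exp_log h0).symm⟩
  subst ha
  rw [← exp_zero, exp_le_exp] at h
  exact ⟨a.toNat, by rw [Int.toNat_of_nonneg h]⟩

/-- The level `M`: the pole order of `S` at `v₃`, in coordinates. -/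
theorem level {F : Fr D K L} {A : SPar D K} {P : Par F.T} {c₀ : ℕ} (hL : Link F A P c₀)
    {S : LL D K} (hS : QR.IsT D (-1 : K) S) :
    ∃ M : ℕ, (∀ w' ∈ abv L P.v₃, w'.valuation L (F.e S) ≤ exp (M : ℤ)) ∧
      ∀ X : LL D K, A.Sm S X → ∀ w' ∈ abv L P.v₃,
        w'.valuation L (F.e X) ≤ exp (-(2 * M + c₀ : ℤ)) := by
  obtain ⟨j₀, -, hj₀⟩ := Finset.exists_max_image (Finset.univ : Finset (Bool × ZMod q))
    (fun j => P.v₃.valuation K (co D S j)) ⟨(false, 0), Finset.mem_univ _⟩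
  obtain ⟨w₃, hw₃⟩ := abv_nonempty (L := L) P.v₃
  obtain ⟨r, hr⟩ : ∃ r, r = P.v₃.valuation K (co D S j₀) := ⟨_, rfl⟩
  have hco : ∀ j, P.v₃.valuation K (co D S j) ≤ r := fun j => by
    rw [hr]
    exact hj₀ j (Finset.mem_univ _)
  have h1 : 1 ≤ r := by
    by_contra hlt
    push Not at hlt
    have e1 : w₃.valuation L (F.e S) ≤ r := val_co₃ F P hw₃ hco
    have e2 : w₃.valuation L (F.e (star S)) ≤ r := by
      refine val_co₃ F P hw₃ fun j => ?_
      rcases j with ⟨b, c⟩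
      cases b
      · have h3 : co D (star S) (false, c) = co D S (false, c) := by simp [co]
        rw [h3]
        exact hco (false, c)
      · have h3 : co D (star S) (true, c) = - co D S (true, c) := rfl
        rw [h3, Valuation.map_neg]
        exact hco (true, c)
    have e3 : w₃.valuation L (F.e S) * w₃.valuation L (F.e (star S)) = 1 := by
      rw [← map_mul, ← map_mul, hS.1, map_one, map_one]
    have e4 : w₃.valuation L (F.e S) * w₃.valuation L (F.e (star S)) < 1 :=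
      (mul_le_mul' e1 e2).trans_lt (mul_lt_one' hlt hlt)
    exact absurd e3 e4.ne
  obtain ⟨M, hM⟩ := exp_of_one_le h1
  refine ⟨M, fun w' hw' => ?_, fun X hX w' hw' => ?_⟩
  · rw [← hM]
    exact val_co₃ F P hw' hco
  · refine val_co₃ F P hw' fun j => ?_
    have h2 : (A.v 2).valuation K (co D S j₀ ^ A.c * co D X j / (A.l 2 : K) ^ A.c0) ≤ 1 := hX j₀ j
    rw [hL.v2, hL.c, hL.c0, hL.p, map_div₀, map_mul, map_pow, map_pow, (val_up P hw₃).1, ← hr,
      hM, ← exp_nsmul, ← exp_nsmul] at h2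
    have h3 : exp (2 • (M : ℤ)) * P.v₃.valuation K (co D X j) ≤ exp (c₀ • (-1 : ℤ)) := by
      rwa [div_le_one₀ (by simp)] at h2
    have h4 : P.v₃.valuation K (co D X j) ≤ exp (-(2 • (M : ℤ))) * exp (c₀ • (-1 : ℤ)) := by
      calc P.v₃.valuation K (co D X j)
          = exp (-(2 • (M : ℤ))) * (exp (2 • (M : ℤ)) * P.v₃.valuation K (co D X j)) := by
            rw [← mul_assoc, ← exp_add, neg_add_cancel, exp_zero, one_mul]
        _ ≤ _ := mul_le_mul_right h3 _
    refine h4.trans (le_of_eq ?_)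
    rw [← exp_add]
    congr 1
    simp only [nsmul_eq_mul]
    push_cast
    ring

/-- **The bridge.** -/
theorem bridge {F : Fr D K L} {A : SPar D K} {P : Par F.T} {c₀ : ℕ} (hL : Link F A P c₀) {t : K}
    (ht : Sys A (Wring K P.Sg : Set K) t) : Nonempty (Wit P c₀ t) := by
  obtain ⟨S, k, a, c, G, b, d, w, hS, hk, ha, hc, hG, hb, hd, ht0, hS1, ⟨z1, hz1, e1⟩, hx,
    ⟨w', hw', hw2, e2⟩, hmu, ⟨z3, hz3, e3⟩, ⟨z4, hz4, e4⟩, ⟨z5, hz5, e5⟩, hJa, hJc, hJb, hJG, hb1,
    ga, hga, e6⟩ := ht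
  obtain ⟨S', eS⟩ := exists_el F hS.1
  obtain ⟨k', ek⟩ := exists_el F hk.1
  obtain ⟨a', ea⟩ := exists_el F ha.1
  obtain ⟨c', ec⟩ := exists_el F hc.1
  obtain ⟨G', eG⟩ := exists_el F hG.1
  obtain ⟨b', eb⟩ := exists_el F hb.1
  obtain ⟨d', ed⟩ := exists_el F hd.1
  obtain ⟨M, hM, hSm⟩ := level hL hS.1
  obtain ⟨E, hE⟩ := hL.ω
  -- elements with integral coordinates
  have hV : ∀ (i : Fin 3) (w₁ : HeightOneSpectrum (𝓞 L)) (y : LL D K), w₁ ∈ abv L (A.v i) →
      InR D (A.V i) y → w₁.valuation L (F.e y) ≤ 1 := fun i w₁ y hw₁ hy =>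
    val_co F hw₁ fun j => hy j
  have hdiv : ∀ (x y z : LL D K), InR D (Wring K P.Sg : Set K) z → x = y * z → ∀ w₁ ∈ P.vis,
      w₁.valuation L (F.e x) ≤ w₁.valuation L (F.e y) := by
    intro x y z hz e w₁ hw₁
    rw [e, map_mul, map_mul]
    exact mul_le_of_le_one_right' (val_vis F P hw₁ hz)
  have hl : ∀ i, ∀ w₁ ∈ abv L (A.v i), w₁.valuation L ((A.l i : ℕ) : L) < 1 := by
    intro i w₁ hw₁
    have h1 : (A.v i).valuation K ((A.l i : ℕ) : K) < 1 := by
      have h2 : (A.v i).valuation K (algebraMap (𝓞 K) K ((A.l i : ℕ) : 𝓞 K)) < 1 :=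
        (HeightOneSpectrum.valuation_lt_one_iff_mem (K := K) (A.v i)
          ((A.l i : ℕ) : 𝓞 K)).2 (hL.l i)
      rwa [map_natCast] at h2
    have h3 := (val_under w₁ ((A.l i : ℕ) : K)).1
    have h4 : w₁.under (𝓞 K) = A.v i := hw₁
    rw [h4, map_natCast] at h3
    exact h3.2 h1
  have ew : F.e w - 1 = ((A.l 0 * A.l 1 * A.l 2 : ℕ) : L) * F.e w' := by
    rw [e2, map_add, map_one, map_mul, map_natCast]
    ring
  have hw1 : ∀ i, ∀ w₁ ∈ abv L (A.v i), w₁.valuation L (F.e w) = 1 := by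
    intro i w₁ hw₁
    have h1 : w₁.valuation L (F.e w - 1) < 1 := by
      rw [ew, map_mul]
      refine (mul_le_of_le_one_right' (hV i w₁ w' hw₁ (hw2 i))).trans_lt ?_
      have h2 : ((A.l 0 * A.l 1 * A.l 2 : ℕ) : L) = (A.l 0 : L) * (A.l 1 : L) * (A.l 2 : L) := by
        push_cast
        ring
      rw [h2, map_mul, map_mul]
      have h3 := hl i w₁ hw₁
      have g0 := val_nat_le w₁ (A.l 0)
      have g1 := val_nat_le w₁ (A.l 1)
      have g2 := val_nat_le w₁ (A.l 2)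
      fin_cases i
      · exact (mul_le_of_le_one_right' g2).trans_lt ((mul_le_of_le_one_right' g1).trans_lt h3)
      · exact (mul_le_of_le_one_right' g2).trans_lt ((mul_le_of_le_one_left' g0).trans_lt h3)
      · exact (mul_le_of_le_one_left' (mul_le_one' g0 g1)).trans_lt h3
    have h5 := Valuation.map_add_eq_of_lt_right (w₁.valuation L) (x := F.e w - 1) (y := 1)
      (by rwa [map_one])
    rw [sub_add_cancel, map_one] at h5
    exact h5
  refine ⟨{ S := S', κ := k', a := a', c := c', G := G', b := b', d := d', w := F.e w, M := M,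
            x := fun j => co D (k ^ A.m) (E j), tvis := ?_, t₃ := ?_, Si := ?_, κi := ?_, ai := ?_,
            ci := ?_, Gi := ?_, bi := ?_, di := ?_, S1 := ?_, hκ := ?_, divt := ?_, divx := ?_,
            wi := ?_, w1 := ?_, wp := ?_, wμ := ?_, divG := ?_, divab := ?_, divcd := ?_, hM := ?_,
            Ja := ?_, Jc := ?_, Jb := ?_, JG := ?_, b1 := ?_, Jd := ?_ }⟩
  · exact fun v hv => ht0.1 v hv
  · have h := ht0.2
    have h2 : (A.v 2).valuation K t ≤ 1 := h
    rwa [hL.v2] at h2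
  · rintro w₁ (h | h | h)
    · rw [eS]; exact val_vis F P h hS.2.1
    · rw [eS]; rw [← hL.v0] at h; exact hV 0 w₁ S h hS.2.2.1
    · rw [eS]; rw [← hL.v1] at h; exact hV 1 w₁ S h hS.2.2.2
  · rintro w₁ (h | h | h)
    · rw [ek]; exact val_vis F P h hk.2.1
    · rw [ek]; rw [← hL.v1] at h; exact hV 1 w₁ k h hk.2.2.1
    · rw [ek]; rw [← hL.v2] at h; exact hV 2 w₁ k h hk.2.2.2
  · rintro w₁ (h | h | h)
    · rw [ea]; exact val_vis F P h ha.2.1
    · rw [ea]; rw [← hL.v1] at h; exact hV 1 w₁ a h ha.2.2.1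
    · rw [ea]; rw [← hL.v2] at h; exact hV 2 w₁ a h ha.2.2.2
  · rintro w₁ (h | h | h)
    · rw [ec]; exact val_vis F P h hc.2.1
    · rw [ec]; rw [← hL.v1] at h; exact hV 1 w₁ c h hc.2.2.1
    · rw [ec]; rw [← hL.v2] at h; exact hV 2 w₁ c h hc.2.2.2
  · rintro w₁ (h | h | h)
    · rw [eG]; exact val_vis F P h hG.2.1
    · rw [eG]; rw [← hL.v1] at h; exact hV 1 w₁ G h hG.2.2.1
    · rw [eG]; rw [← hL.v2] at h; exact hV 2 w₁ G h hG.2.2.2
  · rintro w₁ (h | h | h)
    · rw [eb]; exact val_vis F P h hb.2.1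
    · rw [eb]; rw [← hL.v0] at h; exact hV 0 w₁ b h hb.2.2.1
    · rw [eb]; rw [← hL.v2] at h; exact hV 2 w₁ b h hb.2.2.2
  · rintro w₁ (h | h | h)
    · rw [ed]; exact val_vis F P h hd.2.1
    · rw [ed]; rw [← hL.v0] at h; exact hV 0 w₁ d h hd.2.2.1
    · rw [ed]; rw [← hL.v2] at h; exact hV 2 w₁ d h hd.2.2.2
  · rw [eS]
    intro h
    apply hS1
    apply F.e.injective
    rw [h, map_one]
  · rw [ek, ← hL.m, ← map_pow, expand F, ← E.sum_comp]
    refine Finset.sum_congr rfl fun j _ => ?_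
    rw [hE]
  · intro w₁ hw₁
    rw [eS, ← e_hD F P hL.β hL.g.symm, ← map_one F.e, ← map_sub]
    exact hdiv _ _ z1 hz1 e1 w₁ hw₁
  · intro j w₁ hw₁
    obtain ⟨z, hz, e⟩ := hx (E j)
    rw [eS, ← e_hD F P hL.β hL.g.symm, ← map_one F.e, ← map_sub]
    exact hdiv _ _ z hz e w₁ hw₁
  · intro w₁ hw₁
    have h1 : F.e w = 1 + ((A.l 0 * A.l 1 * A.l 2 : ℕ) : L) * F.e w' := by
      rw [← ew]
      ring
    rw [h1]
    refine ((w₁.valuation L).map_add _ _).trans (max_le (by rw [map_one]) ?_)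
    rw [map_mul]
    exact mul_le_one' (val_nat_le w₁ _) (val_vis F P hw₁ hw')
  · rintro w₁ (h | h | h)
    · rw [← hL.v0] at h; exact hw1 0 w₁ h
    · rw [← hL.v1] at h; exact hw1 1 w₁ h
    · rw [← hL.v2] at h; exact hw1 2 w₁ h
  · intro w₁ hw₁ hp
    rw [ew, map_mul]
    refine (mul_le_of_le_one_right' (val_vis F P hw₁ hw')).trans_lt ?_
    rw [Nat.cast_mul, map_mul, hL.p]
    exact (mul_le_of_le_one_left' (val_nat_le w₁ _)).trans_lt hp
  · rw [← hL.μ, ← F.es, ← F.et, ← F.et, ← map_mul, ← map_mul, ← map_pow, ← map_pow]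
    intro h
    exact hmu (F.e.injective h)
  · intro w₁ hw₁
    have h1 := hdiv _ _ z3 hz3 e3 w₁ hw₁
    rw [map_sum] at h1
    simp only [map_pow] at h1
    rw [eG, ← hL.p, ← hL.m]
    exact h1
  · intro w₁ hw₁
    have h1 := hdiv _ _ z4 hz4 e4 w₁ hw₁
    rw [e_nLB, map_sub, map_pow, map_pow] at h1
    rw [ea, eb, ← hL.m]
    exact h1
  · intro w₁ hw₁
    have h1 := hdiv _ _ z5 hz5 e5 w₁ hw₁
    rw [e_nLB, map_sub, map_pow, map_pow] at h1
    rw [ec, ed, ← hL.m]
    exact h1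
  · intro w₁ hw₁
    rw [eS]
    exact hM w₁ hw₁
  · intro w₁ hw₁
    have h1 := hSm _ hJa w₁ hw₁
    rw [map_sub, map_pow, map_pow] at h1
    rw [ea, hL.Q, ← hL.m]
    exact h1
  · intro w₁ hw₁
    have h1 := hSm _ hJc w₁ hw₁
    rw [map_sub, map_pow, map_pow] at h1
    rw [ec, ek, ← hL.m]
    exact h1
  · intro w₁ hw₁
    have h1 := hSm _ hJb w₁ hw₁
    rw [map_sub, map_pow, map_one] at h1
    rw [eb, ← hL.m]
    exact h1
  · intro w₁ hw₁
    have h1 := hSm _ hJG w₁ hw₁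
    rw [map_sub, map_pow, map_one] at h1
    rw [eG, ← hL.m]
    exact h1
  · rw [eb, ← hL.m, ← map_pow]
    intro h
    apply hb1
    apply F.e.injective
    rw [h, map_one]
  · intro w₁ hw₁
    have h1 := hSm _ hga w₁ hw₁
    have h2 := congrArg F.e e6
    simp only [map_sub, map_mul, map_pow, map_one, AlgEquiv.commutes] at h2
    rw [eb, ed, ← hL.m, h2, map_mul, mul_comm]
    exact mul_le_mul_left h1 _

end Pool.Agent.C50
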