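import Pool.Agent.Lib.MP_673eb1_lc.C50.BR1
import Pool.Agent.Lib.MP_673eb1_lc.C50.Bridge
import Pool.Agent.Lib.MP_673eb1_lc.PDA
import Pool.Agent.Lib.ZT.Fil

/-!
MP_673eb1_lc, project C50: `S_BR0`, `S_BR2`: coordinates of elements which are integral above `v`.
-/

set_option autoImplicit false

open NumberField IsDedekindDomain

namespace Pool.Agent.C50

open Pool.Agent.Lib.MP_673eb1_lc Pool.Agent.ZD Pool.Agent.ZT WithZero

section red

variable {q f : ℕ} [Fact q.Prime] (D : PerData q f)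

/-- base change of `QR D (-1)` -/
def qmap {S S' : Type*} [CommRing S] [CommRing S'] (φ : S →+* S') :
    QR D (-1 : S) →+* QR D (-1 : S') where
  toFun y := ⟨PR.map D φ y.re, PR.map D φ y.im⟩
  map_one' := by
    refine QuadraticAlgebra.ext ?_ ?_
    · change PR.map D φ 1 = 1
      exact map_one _
    · change PR.map D φ 0 = 0
      exact map_zero _
  map_zero' := by
    refine QuadraticAlgebra.ext ?_ ?_
    · change PR.map D φ 0 = 0
      exact map_zero _
    · change PR.map D φ 0 = 0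
      exact map_zero _
  map_add' x y := by ext : 1 <;> simp
  map_mul' x y := by
    refine QuadraticAlgebra.ext ?_ ?_
    · simp
    · simp

theorem pr_char (k : Type) [Field k] (p : ℕ) [CharP k p] : CharP (QR D (-1 : k)) p := by
  have h1 : CharP (PR D k) p := PR.charP D p
  refine charP_of_injective_algebraMap (R := PR D k) ?_ p
  intro a b h
  exact congrArg QuadraticAlgebra.re h

/-- the algebra `QR D (-1)` over a field of characteristic `p`, `p` not `2, f`, is reduced -/
theorem qr_red {k : Type} [Field k] (p : ℕ) [CharP k p] (hp : p.Prime) (hp2 : p ≠ 2) (hpf : p ≠ f)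
    (A : QR D (-1 : k)) (hA : A ^ p = 0) : A = 0 := by
  have : Fact p.Prime := ⟨hp⟩
  have hc := pr_char D k p
  have e0 : A = algebraMap (PR D k) (QR D (-1 : k)) A.re +
      algebraMap (PR D k) (QR D (-1 : k)) A.im * ⟨0, 1⟩ := by
    refine QuadraticAlgebra.ext ?_ ?_ <;> simp
  have hi : (⟨0, 1⟩ : QR D (-1 : k)) ^ 2 = -1 := by
    rw [pow_two]
    refine QuadraticAlgebra.ext ?_ ?_
    · simp
      rfl
    · simp
      rfl
  obtain ⟨n, hn⟩ : ∃ n, p = 2 * n + 1 := by
    obtain ⟨n, hn⟩ := hp.odd_of_ne_two hp2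
    exact ⟨n, hn⟩
  have hip : (⟨0, 1⟩ : QR D (-1 : k)) ^ p = (-1) ^ n * ⟨0, 1⟩ := by
    conv_lhs => rw [hn]
    rw [pow_succ, pow_mul, hi]
  have h0 : ∀ (φ : PR D k →+* QR D (-1 : k)) (x : PR D k),
      φ ((-1) ^ n * x ^ p) = (-1) ^ n * φ x ^ p := fun φ x => by
    have hm : φ (-1) = -1 := (RingHom.map_neg φ 1).trans (congrArg Neg.neg (RingHom.map_one φ))
    rw [map_mul, map_pow, map_pow, hm]
  have e1 : A ^ p = algebraMap (PR D k) (QR D (-1 : k)) (A.re ^ p) +
      algebraMap (PR D k) (QR D (-1 : k)) ((-1) ^ n * A.im ^ p) * ⟨0, 1⟩ := by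
    conv_lhs => rw [e0]
    rw [add_pow_char, mul_pow, hip, h0, map_pow]
    ring
  rw [hA] at e1
  have f1 : ∀ x : PR D k, (algebraMap (PR D k) (QR D (-1 : k)) x) = ⟨x, 0⟩ := fun x => rfl
  rw [f1, f1] at e1
  have r1 : A.re ^ p = 0 := by
    have := congrArg QuadraticAlgebra.re e1
    simpa using this.symm
  have r2 : A.im ^ p = 0 := by
    have h2 := congrArg QuadraticAlgebra.im e1
    have h3 : (-1 : PR D k) ^ n * A.im ^ p = 0 := by
      simpa using h2.symm
    rcases neg_one_pow_eq_or (PR D k) n with h | h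
    · rwa [h, one_mul] at h3
    · rwa [h, neg_one_mul, neg_eq_zero] at h3
  have key : ∀ x : PR D k, x ^ p = 0 → x = 0 := by
    intro x hx
    ext c
    have h := PR.pow_char D p hp hpf x (c + D.ind p)
    rw [hx, add_sub_cancel_right, PR.zero_apply] at h
    rw [PR.zero_apply]
    exact pow_eq_zero_iff (hp.ne_zero) |>.1 h.symm
  exact QuadraticAlgebra.ext (key _ r1) (key _ r2)

theorem qr_red' {k : Type} [Field k] (p : ℕ) [CharP k p] (hp : p.Prime) (hp2 : p ≠ 2) (hpf : p ≠ f) :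
    IsReduced (QR D (-1 : k)) :=
  (isReduced_iff_pow_one_lt p hp.one_lt).2 fun A hA => qr_red D p hp hp2 hpf A hA

end red

variable {q f : ℕ} [Fact q.Prime] {D : PerData q f} {K L : Type} [Field K] [NumberField K] [Field L]
  [NumberField L] [Algebra K L]

omit [Fact q.Prime] in
/-- an element of `K` which is integral at `v` is `b / s` with `s` prime to `v` -/
theorem exists_den_v (v : HeightOneSpectrum (𝓞 K)) (x : K) (hx : v.valuation K x ≤ 1) :
    ∃ s b : 𝓞 K, s ∉ v.asIdeal ∧ (s : K) * x = (b : K) := by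
  obtain ⟨s, hs, h⟩ := exists_mul_int (L := K) v x (fun w hw => by
    have : w.under (𝓞 K) = v := hw
    have h2 : w = v := by
      rw [← this]
      refine HeightOneSpectrum.ext ?_
      ext y
      exact Iff.rfl
    rw [h2]
    exact hx)
  obtain ⟨b, hb⟩ := HeightOneSpectrum.mem_integers_of_valuation_le_one K _ h
  exact ⟨s, b, hs, hb.symm⟩

omit [Fact q.Prime] in
theorem exists_den_fin (v : HeightOneSpectrum (𝓞 K)) {ι : Type} [Fintype ι] (x : ι → K)
    (hx : ∀ i, v.valuation K (x i) ≤ 1) :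
    ∃ (s : 𝓞 K) (b : ι → 𝓞 K), s ∉ v.asIdeal ∧ ∀ i, (s : K) * x i = (b i : K) := by
  classical
  choose s b hs hb using fun i => exists_den_v v (x i) (hx i)
  refine ⟨∏ i, s i, fun i => (∏ i' ∈ Finset.univ.erase i, s i') * b i, ?_, fun i => ?_⟩
  · intro h
    obtain ⟨i, -, hi⟩ := (v.isPrime.prod_mem_iff).1 h
    exact hs i hi
  · have e : (∏ i, s i) = (∏ i' ∈ Finset.univ.erase i, s i') * s i :=
      (Finset.prod_erase_mul _ _ (Finset.mem_univ i)).symm
    have e2 : ((((∏ i' ∈ Finset.univ.erase i, s i') * s i : 𝓞 K)) : K) =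
      ((∏ i' ∈ Finset.univ.erase i, s i' : 𝓞 K) : K) * (s i : K) := map_mul _ _ _
    have e3 : ((((∏ i' ∈ Finset.univ.erase i, s i') * b i : 𝓞 K)) : K) =
      ((∏ i' ∈ Finset.univ.erase i, s i' : 𝓞 K) : K) * (b i : K) := map_mul _ _ _
    rw [e, e2, e3, mul_assoc, hb]

omit [NumberField K] in
theorem co_mk (y : QR D (-1 : 𝓞 K)) (j : Bool × ZMod q) :
    co D (qmap D (algebraMap (𝓞 K) K) y) j =
      ((if j.1 then y.im j.2 else y.re j.2 : 𝓞 K) : K) := by
  rcases j with ⟨b, c⟩
  cases b <;> rfl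

/-- **The reducedness.**  If the coordinates of `y` are integral at `v` and those of a power of `y` are
divisible by `v`, then those of `y` are divisible by `v`. -/
theorem co_lt_of_pow (F : Fr D K L) (v : HeightOneSpectrum (𝓞 K))
    (hv : ((2 * f : ℕ) : 𝓞 K) ∉ v.asIdeal) (y : L) (hy : ∀ i, v.valuation K (coL F i y) ≤ 1)
    (M : ℕ) (hM : M ≠ 0) (hp : ∀ i, v.valuation K (coL F i (y ^ M)) < 1) (i : Bool × ZMod q) :
    v.valuation K (coL F i y) < 1 := by
  classical
  obtain ⟨s, b, hs, hb⟩ := exists_den_fin v (fun i => coL F i y) hy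
  have hvs : v.valuation K (s : K) = 1 := by
    rcases (v.valuation_le_one (K := K) s).lt_or_eq with h | h
    · exact absurd ((HeightOneSpectrum.valuation_lt_one_iff_mem (K := K) v s).1 h) hs
    · exact h
  -- the integral element `Z`
  obtain ⟨Z, hZ⟩ : ∃ Z : QR D (-1 : 𝓞 K),
      Z = ⟨fun c => b (false, c), fun c => b (true, c)⟩ := ⟨_, rfl⟩
  have hZ1 : F.e (qmap D (algebraMap (𝓞 K) K) Z) = (s : K) • y := by
    rw [← F.e.apply_symm_apply ((s : K) • y)]
    congr 1
    rw [← (bL D).repr.injective.eq_iff]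
    ext i
    rw [bL_repr, bL_repr, co_mk]
    have h1 : co D (F.e.symm ((s : K) • y)) i = (b i : K) := by
      rw [← coL_apply, map_smul, smul_eq_mul]
      exact hb i
    rw [h1, hZ]
    rcases i with ⟨t, c⟩
    cases t <;> rfl
  -- the coordinates of a power of `Z`
  have hpow : ∀ i, v.valuation K (co D (qmap D (algebraMap (𝓞 K) K) (Z ^ M)) i) < 1 := by
    intro i
    have h1 : co D (qmap D (algebraMap (𝓞 K) K) (Z ^ M)) i =
        coL F i (((s : K) ^ M) • y ^ M) := by
      rw [coL_apply, ← smul_pow, ← hZ1, ← map_pow, ← map_pow, AlgEquiv.symm_apply_apply]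
    rw [h1, map_smul, smul_eq_mul, map_mul, map_pow, hvs, one_pow, one_mul]
    exact hp i
  -- reduction modulo `v`
  have hmax : v.asIdeal.IsMaximal := v.isMaximal
  let _ : Field (𝓞 K ⧸ v.asIdeal) := Ideal.Quotient.field _
  have hfin : Finite (𝓞 K ⧸ v.asIdeal) := Ideal.finiteQuotientOfFreeOfNeBot _ v.ne_bot
  obtain ⟨p, hcp⟩ := CharP.exists (𝓞 K ⧸ v.asIdeal)
  have hp : p.Prime := by
    rcases CharP.char_is_prime_or_zero (𝓞 K ⧸ v.asIdeal) p with h | h
    · exact h
    · exfalso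
      subst h
      have : CharZero (𝓞 K ⧸ v.asIdeal) := CharP.charP_to_charZero _
      exact not_finite (𝓞 K ⧸ v.asIdeal)
  have hpv : (p : 𝓞 K) ∈ v.asIdeal := by
    rw [← Ideal.Quotient.eq_zero_iff_mem, map_natCast]
    exact CharP.cast_eq_zero _ p
  have hp2 : p ≠ 2 := by
    rintro rfl
    apply hv
    rw [Nat.cast_mul]
    exact v.asIdeal.mul_mem_right _ hpv
  have hpf : p ≠ f := by
    rintro rfl
    apply hv
    rw [Nat.cast_mul]
    exact v.asIdeal.mul_mem_left _ hpv
  have hred := qr_red' D (k := 𝓞 K ⧸ v.asIdeal) p hp hp2 hpf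
  have h1 : qmap D (Ideal.Quotient.mk v.asIdeal) (Z ^ M) = 0 := by
    refine QuadraticAlgebra.ext ?_ ?_
    · refine PR.ext D fun c => ?_
      have h1 := hpow (false, c)
      rw [co_mk] at h1
      exact Ideal.Quotient.eq_zero_iff_mem.2
        ((HeightOneSpectrum.valuation_lt_one_iff_mem (K := K) v _).1 h1)
    · refine PR.ext D fun c => ?_
      have h1 := hpow (true, c)
      rw [co_mk] at h1
      exact Ideal.Quotient.eq_zero_iff_mem.2
        ((HeightOneSpectrum.valuation_lt_one_iff_mem (K := K) v _).1 h1)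
  rw [map_pow] at h1
  have h2 : qmap D (Ideal.Quotient.mk v.asIdeal) Z = 0 := (pow_eq_zero_iff hM).1 h1
  have h3 : b i ∈ v.asIdeal := by
    rw [← Ideal.Quotient.eq_zero_iff_mem]
    rcases i with ⟨t, c⟩
    cases t
    · have h4 := congrFun (congrArg QuadraticAlgebra.re h2) c
      rw [hZ] at h4
      exact h4
    · have h4 := congrFun (congrArg QuadraticAlgebra.im h2) c
      rw [hZ] at h4
      exact h4
  have h4 : v.valuation K (b i : K) < 1 :=
    (HeightOneSpectrum.valuation_lt_one_iff_mem (K := K) v (b i)).2 h3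
  rw [← hb i, map_mul, hvs, one_mul] at h4
  exact h4

/-- If `y` is integral above `v`, then the coordinates of `y` are bounded by a constant. -/
theorem exists_boundBR (F : Fr D K L) (v : HeightOneSpectrum (𝓞 K)) :
    ∃ c : ℕ, ∀ y : L, (∀ w ∈ abv L v, w.valuation L y ≤ 1) →
      ∀ i, v.valuation K (coL F i y) ≤ exp (c : ℤ) := by
  obtain ⟨C, hC0, hC⟩ := exists_den F
  have hvC : v.valuation K (C : K) ≠ 0 := by
    rw [Ne, map_eq_zero]
    exact Nat.cast_ne_zero.2 hC0
  obtain ⟨c, hc⟩ : ∃ c : ℤ, v.valuation K (C : K) = exp (-c) :=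
    ⟨-log (v.valuation K (C : K)), by rw [neg_neg, exp_log hvC]⟩
  have hc1 : 0 ≤ c := by
    have h1 : v.valuation K (C : K) ≤ 1 := val_nat_le v C
    rw [hc, ← exp_zero, exp_le_exp] at h1
    omega
  obtain ⟨c, rfl⟩ : ∃ n : ℕ, c = n := ⟨c.toNat, (Int.toNat_of_nonneg hc1).symm⟩
  refine ⟨c, fun y hy i => ?_⟩
  have h2 := val_coL_le F hC v y hy i
  rw [map_mul, hc] at h2
  calc v.valuation K (coL F i y)
      = exp (c : ℤ) * (exp (-(c : ℤ)) * v.valuation K (coL F i y)) := by
        rw [← mul_assoc, ← exp_add, add_neg_cancel, exp_zero, one_mul]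
    _ ≤ exp (c : ℤ) * 1 := mul_le_mul_right h2 _
    _ = exp (c : ℤ) := mul_one _

/-- **BR0** -/
theorem br0 (F : Fr D K L) (v : HeightOneSpectrum (𝓞 K)) (hv : ((2 * f : ℕ) : 𝓞 K) ∉ v.asIdeal)
    (y : L) (hy : ∀ w ∈ abv L v, w.valuation L y ≤ 1) (j : Bool × ZMod q) :
    v.valuation K (coL F j y) ≤ 1 := by
  classical
  by_contra hcon
  push Not at hcon
  -- the maximum of the coordinates
  obtain ⟨j₀, -, hj₀⟩ := Finset.exists_max_image (Finset.univ : Finset (Bool × ZMod q))
    (fun j => v.valuation K (coL F j y)) ⟨j, Finset.mem_univ _⟩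
  have hr1 : 1 < v.valuation K (coL F j₀ y) := lt_of_lt_of_le hcon (hj₀ j (Finset.mem_univ _))
  have hr0 : v.valuation K (coL F j₀ y) ≠ 0 := (zero_lt_one.trans hr1).ne'
  obtain ⟨m, hm⟩ : ∃ m : ℤ, v.valuation K (coL F j₀ y) = exp m := ⟨_, (exp_log hr0).symm⟩
  have hm1 : 1 ≤ m := by
    rw [hm, ← exp_zero, exp_lt_exp] at hr1
    omega
  obtain ⟨m, rfl⟩ : ∃ n : ℕ, m = n := ⟨m.toNat, (Int.toNat_of_nonneg (by omega)).symm⟩
  -- a uniformizer
  obtain ⟨π, hπ⟩ := v.valuation_exists_uniformizer K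
  obtain ⟨c, hc⟩ := exists_boundBR F v
  have h1 := co_lt_of_pow F v hv ((π ^ m) • y) (fun i => by
    rw [map_smul, smul_eq_mul, map_mul, map_pow, hπ]
    refine (mul_le_mul_right (hj₀ i (Finset.mem_univ _)) _).trans ?_
    rw [hm, ← exp_nsmul, ← exp_add, ← exp_zero, exp_le_exp, nsmul_eq_mul]
    omega) (c + 1) (by omega) (fun i => by
    have h3 := hc (y ^ (c + 1)) (fun w hw => by
      rw [map_pow]
      exact pow_le_one₀ zero_le (hy w hw)) i
    rw [smul_pow, map_smul, smul_eq_mul, map_mul, map_pow, map_pow, hπ]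
    refine (mul_le_mul_right h3 _).trans_lt ?_
    rw [← exp_nsmul, ← exp_nsmul, ← exp_add, ← exp_zero, exp_lt_exp, nsmul_eq_mul, nsmul_eq_mul]
    have h5 : (c : ℤ) + 1 ≤ ((c + 1 : ℕ) : ℤ) * (m : ℤ) := by
      have h6 : (1 : ℤ) ≤ m := hm1
      push_cast
      nlinarith
    have h7 : ((c + 1 : ℕ) : ℤ) * ((m : ℤ) * -1) = -(((c + 1 : ℕ) : ℤ) * (m : ℤ)) := by ring
    rw [h7]
    omega) j₀
  rw [map_smul, smul_eq_mul, map_mul, map_pow, hπ, hm, ← exp_nsmul,
    ← exp_add, nsmul_eq_mul] at h1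
  have h6 : (m : ℤ) * -1 + (m : ℤ) = 0 := by ring
  rw [h6, exp_zero] at h1
  exact lt_irrefl _ h1

/-- `v` is unramified in `L` -/
theorem val_unr (F : Fr D K L) (v : HeightOneSpectrum (𝓞 K)) (hv : ((2 * f : ℕ) : 𝓞 K) ∉ v.asIdeal)
    {π : K} (hπ : v.valuation K π = exp (-1)) {w : HeightOneSpectrum (𝓞 L)} (hw : w ∈ abv L v) :
    w.valuation L (algebraMap K L π) = exp (-1) := by
  classical
  have hu : w.under (𝓞 K) = v := hw
  have hlt : ∀ w' ∈ abv L v, w'.valuation L (algebraMap K L π) < 1 := by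
    intro w' hw'
    rw [(val_under w' π).1, show w'.under (𝓞 K) = v from hw', hπ, ← exp_zero, exp_lt_exp]
    omega
  have hπ0 : π ≠ 0 := by
    intro h
    rw [h, map_zero] at hπ
    exact exp_ne_zero hπ.symm
  -- an element `z` with `w z = exp (-1)`, `w' z < 1` for all `w'` over `v`
  have hfin : (abv L v).Finite := by
    refine (HeightOneSpectrum.Support.finite (𝓞 L) (algebraMap K L π)⁻¹).subset fun w' hw' => ?_
    change 1 < w'.valuation L (algebraMap K L π)⁻¹
    rw [map_inv₀]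
    refine (one_lt_inv₀ ?_).2 (hlt w' hw')
    rw [zero_lt_iff, Ne, map_eq_zero, map_eq_zero]
    exact hπ0
  obtain ⟨z₀, hz₀⟩ := w.intValuation_exists_uniformizer
  have hz₁ : w.valuation L (z₀ : L) = exp (-1) := by
    have h := HeightOneSpectrum.valuation_of_algebraMap (K := L) w z₀
    rw [hz₀] at h
    exact h
  have h1 : ∀ w' : HeightOneSpectrum (𝓞 L), w' ≠ w → ∃ s : 𝓞 L, s ∈ w'.asIdeal ∧ s ∉ w.asIdeal := by
    intro w' hne
    by_contra hcon
    push Not at hcon
    have hle : w'.asIdeal ≤ w.asIdeal := fun s hs => hcon s hs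
    exact hne (HeightOneSpectrum.ext (w'.isMaximal.eq_of_le w.isPrime.ne_top hle))
  have h2 : ∀ w' : HeightOneSpectrum (𝓞 L), ∃ s : 𝓞 L, s ∉ w.asIdeal ∧ (w' ≠ w → s ∈ w'.asIdeal) := by
    intro w'
    by_cases hne : w' = w
    · exact ⟨1, fun h => w.isPrime.ne_top ((Ideal.eq_top_iff_one _).2 h), fun h => absurd hne h⟩
    · obtain ⟨s, hs, hs2⟩ := h1 w' hne
      exact ⟨s, hs2, fun _ => hs⟩
  choose s hs hs2 using h2
  obtain ⟨u, hu⟩ : ∃ u, u = ∏ w' ∈ hfin.toFinset, s w' := ⟨_, rfl⟩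
  have hu1 : u ∉ w.asIdeal := by
    intro h
    rw [hu] at h
    obtain ⟨w', -, hw'⟩ := (w.isPrime.prod_mem_iff).1 h
    exact hs w' hw'
  have hu2 : ∀ w' ∈ abv L v, w' ≠ w → u ∈ w'.asIdeal := by
    intro w' hw' hne
    rw [hu]
    exact Ideal.prod_mem _ (hfin.mem_toFinset.2 hw') (hs2 w' hne)
  obtain ⟨z, hz⟩ : ∃ z, z = z₀ * u := ⟨_, rfl⟩
  have hzw : w.valuation L (z : L) = exp (-1) := by
    have e : (z : L) = (z₀ : L) * (u : L) := by rw [hz]; exact map_mul _ _ _
    have h3 : w.valuation L (u : L) = 1 := by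
      rcases (w.valuation_le_one (K := L) u).lt_or_eq with h | h
      · exact absurd ((HeightOneSpectrum.valuation_lt_one_iff_mem (K := L) w u).1 h) hu1
      · exact h
    rw [e, map_mul, hz₁, h3, mul_one]
  have hzw' : ∀ w' ∈ abv L v, w'.valuation L (z : L) < 1 := by
    intro w' hw'
    by_cases hne : w' = w
    · rw [hne, hzw, ← exp_zero, exp_lt_exp]
      omega
    · have h3 : z ∈ w'.asIdeal := by
        rw [hz]
        exact w'.asIdeal.mul_mem_left _ (hu2 w' hw' hne)
      exact (HeightOneSpectrum.valuation_lt_one_iff_mem (K := L) w' z).2 h3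
  -- the coordinates of `z` are divisible by `v`
  obtain ⟨c, hc⟩ := exists_boundBR F v
  have hle : ∀ x : ℤᵐ⁰, x < 1 → x ≤ exp (-1) := by
    intro x hx
    rcases eq_or_ne x 0 with h | h
    · rw [h]
      exact zero_le
    · rw [← exp_log h] at hx ⊢
      rw [← exp_zero, exp_lt_exp] at hx
      rw [exp_le_exp]
      omega
  -- `z ^ M` is divisible by a large power of `π`
  obtain ⟨N, hN⟩ : ∃ N : ℕ, ∀ w' ∈ abv L v, exp (-(N : ℤ)) ≤ w'.valuation L (algebraMap K L π) := by
    have h3 : ∀ w' : HeightOneSpectrum (𝓞 L), ∃ N : ℕ,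
        exp (-(N : ℤ)) ≤ w'.valuation L (algebraMap K L π) := by
      intro w'
      have h0 : w'.valuation L (algebraMap K L π) ≠ 0 := by
        rw [Ne, map_eq_zero, map_eq_zero]
        exact hπ0
      refine ⟨(-log (w'.valuation L (algebraMap K L π))).toNat, ?_⟩
      conv_rhs => rw [← exp_log h0]
      rw [exp_le_exp]
      omega
    choose N hN using h3
    refine ⟨∑ w' ∈ hfin.toFinset, N w', fun w' hw' => le_trans ?_ (hN w')⟩
    rw [exp_le_exp]
    have := Finset.single_le_sum (f := N) (fun _ _ => Nat.zero_le _) (hfin.mem_toFinset.2 hw')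
    omega
  have hzco : ∀ i, v.valuation K (coL F i (z : L)) < 1 := by
    refine co_lt_of_pow F v hv (z : L) (br0 F v hv _ fun w' hw' => (hzw' w' hw').le)
      (N * (c + 1) + 1) (by omega) fun i => ?_
    have h3 := hc ((π ^ (c + 1))⁻¹ • (z : L) ^ (N * (c + 1) + 1)) (fun w' hw' => by
      rw [Algebra.smul_def, map_mul, map_inv₀, map_inv₀, map_pow, map_pow, map_pow]
      have h0 : w'.valuation L (algebraMap K L π) ^ (c + 1) ≠ 0 := by
        refine pow_ne_zero _ ?_
        rw [Ne, map_eq_zero, map_eq_zero]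
        exact hπ0
      rw [inv_mul_le_iff₀ (zero_lt_iff.2 h0), mul_one]
      calc w'.valuation L (z : L) ^ (N * (c + 1) + 1)
          ≤ (exp (-1)) ^ (N * (c + 1) + 1) := pow_le_pow_left₀ zero_le (hle _ (hzw' w' hw')) _
        _ ≤ (exp (-(N : ℤ))) ^ (c + 1) := by
          rw [← exp_nsmul, ← exp_nsmul, exp_le_exp, nsmul_eq_mul, nsmul_eq_mul]
          push_cast
          nlinarith
        _ ≤ _ := pow_le_pow_left₀ zero_le (hN w' hw') _) i
    rw [map_smul, smul_eq_mul, map_mul, map_inv₀, map_pow, hπ, ← exp_nsmul, nsmul_eq_mul,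
      ← exp_neg] at h3
    have h4 : v.valuation K (coL F i ((z : L) ^ (N * (c + 1) + 1))) ≤ exp (-1) := by
      calc v.valuation K (coL F i ((z : L) ^ (N * (c + 1) + 1)))
          = exp (-((c : ℤ) + 1)) * (exp (-(((c + 1 : ℕ) : ℤ) * -1)) *
              v.valuation K (coL F i ((z : L) ^ (N * (c + 1) + 1)))) := by
            rw [← mul_assoc, ← exp_add]
            have : -((c : ℤ) + 1) + -(((c + 1 : ℕ) : ℤ) * -1) = 0 := by push_cast; ring
            rw [this, exp_zero, one_mul]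
        _ ≤ exp (-((c : ℤ) + 1)) * exp (c : ℤ) := mul_le_mul_right h3 _
        _ = exp (-1) := by
            rw [← exp_add]
            congr 1
            ring
    refine h4.trans_lt ?_
    rw [← exp_zero, exp_lt_exp]
    omega
  -- so `z / π` is integral above `v`
  have h5 : w.valuation L (F.e (F.e.symm ((π⁻¹) • (z : L)))) ≤ 1 := by
    refine val_co F hw fun i => ?_
    have h6 : v.valuation K (coL F i ((π⁻¹) • (z : L))) ≤ 1 := by
      rw [map_smul, smul_eq_mul, map_mul, map_inv₀, hπ, ← exp_neg, neg_neg]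
      calc exp 1 * v.valuation K (coL F i (z : L)) ≤ exp 1 * exp (-1) :=
            mul_le_mul_right (hle _ (hzco i)) _
        _ = 1 := by rw [← exp_add, add_neg_cancel, exp_zero]
    exact h6
  rw [AlgEquiv.apply_symm_apply, Algebra.smul_def, map_mul, map_inv₀, map_inv₀, hzw] at h5
  have h0 : w.valuation L (algebraMap K L π) ≠ 0 := by
    rw [Ne, map_eq_zero, map_eq_zero]
    exact hπ0
  rw [inv_mul_le_iff₀ (zero_lt_iff.2 h0), mul_one] at h5
  exact le_antisymm (hle _ (hlt w hw)) h5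

/-- **BR2** -/
theorem br2 : S_BR2 := by
  intro q f _ D K L _ _ _ _ _ F v hv n y
  obtain ⟨π, hπ⟩ := v.valuation_exists_uniformizer K
  have hπ0 : π ≠ 0 := by
    intro h
    rw [h, map_zero] at hπ
    exact exp_ne_zero hπ.symm
  have hn : v.valuation K (π ^ n) = exp (-n) := by
    rw [map_zpow₀, hπ, ← exp_zsmul]
    congr 1
    simp
  have hwn : ∀ w ∈ abv L v, w.valuation L (algebraMap K L (π ^ n)) = exp (-n) := by
    intro w hw
    rw [map_zpow₀, map_zpow₀, val_unr F v hv hπ hw, ← exp_zsmul]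
    congr 1
    simp
  have hk : ∀ x : ℤᵐ⁰, exp (-n) * x ≤ 1 ↔ x ≤ exp n := by
    intro x
    constructor
    · intro h
      calc x = exp n * (exp (-n) * x) := by
            rw [← mul_assoc, ← exp_add, add_neg_cancel, exp_zero, one_mul]
        _ ≤ exp n * 1 := mul_le_mul_right h _
        _ = exp n := mul_one _
    · intro h
      calc exp (-n) * x ≤ exp (-n) * exp n := mul_le_mul_right h _
        _ = 1 := by rw [← exp_add, neg_add_cancel, exp_zero]
  constructor
  · intro h j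
    have h1 := br0 F v hv ((π ^ n) • y) (fun w hw => by
      rw [Algebra.smul_def, map_mul, hwn w hw, hk]
      exact h w hw) j
    rw [map_smul, smul_eq_mul, map_mul, hn, hk] at h1
    exact h1
  · intro h w hw
    have h1 : w.valuation L (F.e (F.e.symm ((π ^ n) • y))) ≤ 1 := by
      refine val_co F hw fun i => ?_
      have h6 : v.valuation K (coL F i ((π ^ n) • y)) ≤ 1 := by
        rw [map_smul, smul_eq_mul, map_mul, hn, hk]
        exact h i
      exact h6
    rw [AlgEquiv.apply_symm_apply, Algebra.smul_def, map_mul, hwn w hw, hk] at h1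
    exact h1

end Pool.Agent.C50
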