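import Pool.Agent.Lib.MP_673eb1_lc.C50.CompSpec
import Pool.Agent.Lib.MP_673eb1_lc.TRDef
import Pool.Agent.Lib.ZT.Mod

/-!
MP_673eb1_lc, project C50: the common data `CDat F` of soundness and completeness.

From `CDat` one gets: the parameters `SPar` of the system (`CDat.sp`), helper80's `Par F.T` for every allowed set
`W` of inverted primes, and the completeness theorem.
-/

set_option autoImplicit false

open NumberField IsDedekindDomain

namespace Pool.Agent.C50

open Pool.Agent.Lib.MP_673eb1_lc Pool.Agent.ZD Pool.Agent.ZT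

variable {q f : ℕ} [Fact q.Prime] {D : PerData q f} {K L : Type} [Field K] [NumberField K] [Field L]
  [NumberField L] [Algebra K L]

/-- **The common data.** `v i` (`i = 0, 1, 2`) are the three inverted primes, `w i` a prime of `L` above `v i`. -/
structure CDat (F : Fr D K L) where
  v : Fin 3 → HeightOneSpectrum (𝓞 K)
  w : Fin 3 → HeightOneSpectrum (𝓞 L)
  /-- the norms, prime numbers -/
  l : Fin 3 → ℕ
  hw : ∀ i, w i ∈ abv L (v i)
  nmv : ∀ i, nm (v i) = l i
  nmw : ∀ i, nm (w i) = l i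
  lp : ∀ i, (l i).Prime
  l4 : ∀ i, l i % 4 = 1
  linj : Function.Injective l
  /-- `v i` splits completely in `L` -/
  spl : ∀ i, v i ∈ Spl K L
  /-- and is unramified over `ℚ` -/
  unr : ∀ i, ∀ w' ∈ abv L (v i), w'.valuation L (l i : L) = WithZero.exp (-1 : ℤ)
  /-- the conductor, see (BR1) -/
  C : ℕ
  C0 : C ≠ 0
  hC : ∀ (W : Set (HeightOneSpectrum (𝓞 K))) (y : L),
      (∀ w : HeightOneSpectrum (𝓞 L), w.under (𝓞 K) ∉ W → w.valuation L y ≤ w.valuation L (C : L)) →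
      InR D (Wring K W : Set K) (F.e.symm y)
  lC : ∀ i, ¬ l i ∣ C
  lf : ∀ i, ¬ l i ∣ 2 * f
  /-- `π i` generates `(w i) ^ hcl` -/
  π : Fin 3 → 𝓞 L
  hcl : ℕ
  hcl0 : 0 < hcl
  hπ : ∀ i, Ideal.span {π i} = (w i).asIdeal ^ hcl
  /-- a multiple of the number of roots of unity -/
  mu : ℕ
  mu0 : 0 < mu
  hmu : ∀ (ζ : L) (k : ℕ), 0 < k → ζ ^ k = 1 → ζ ^ mu = 1
  /-- `m2 = #(O_L / C)ˣ` -/
  m2 : ℕ
  hm2 : m2 = Nat.card (𝓞 L ⧸ Ideal.span {(C : 𝓞 L)})ˣ
  /-- `l i` does not divide the denominator -/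
  lh : ∀ i, ¬ l i ∣ hcl * m2
  /-- `p = l 2` is prime to all this and a primitive root modulo `q` -/
  pm : ¬ l 2 ∣ hcl * mu * m2
  pq : ¬ l 2 ∣ q
  pord : orderOf ((l 2 : ℕ) : ZMod q) = q - 1
  g : ℕ
  g0 : 0 < g
  /-- `-g` is not a square modulo `l i` -/
  hg : ∀ i, ∀ x : ℤ, ¬ ((l i : ℤ) ∣ x ^ 2 + g)

namespace CDat

variable {F : Fr D K L} (c : CDat F)

/-- `P i = π_i ^ ((1 - τ)(1 - σ))`. -/
noncomputable def P0 (i : Fin 3) : L :=
  ((c.π i : L) * F.T.τ (F.T.σ (c.π i : L))) / (F.T.τ (c.π i : L) * F.T.σ (c.π i : L))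

/-- `P i* = P i ^ m2`. -/
noncomputable def Ps (i : Fin 3) : L := c.P0 i ^ c.m2

/-- The exponent `m = hcl * mu * (p - 1)`. -/
def m : ℕ := c.hcl * c.mu * (c.l 2 - 1)

/-- The parameters of the system (`J = 2 M + c0`). -/
noncomputable def sp (c0 : ℕ) : SPar D K where
  v := c.v
  l := c.l
  P := F.e.symm (c.Ps 0)
  m := c.m
  mu := c.mu
  g := c.g
  c := 2
  c0 := c0

/-- `W` is an allowed set of inverted primes: it contains the `v i`, and its other primes are inert, not above `2` and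
do not divide `C`, `hcl`, `m2`, `l_i`. -/
def Ok (W : Set (HeightOneSpectrum (𝓞 K))) : Prop :=
  (∀ i, c.v i ∈ W) ∧ ∀ v ∈ W, (∃ i, v = c.v i) ∨
    (Inert D v ∧ ((2 * c.C * c.hcl * c.m2 * c.l 0 * c.l 1 * c.l 2 : ℕ) : 𝓞 K) ∉ v.asIdeal)

end CDat

/-- **Completeness** (helper41): every integer satisfies the system over the smallest ring. -/
def S_Comp : Prop :=
  ∀ (q f : ℕ) [Fact q.Prime] (D : PerData q f) (K L : Type) [Field K] [NumberField K] [Field L]
    [NumberField L] [Algebra K L] (F : Fr D K L) (c : CDat F) (c0 : ℕ) (t : ℤ),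
    Sys (c.sp c0) (Wring K (Set.range c.v) : Set K) (t : K)

/-- **Soundness in terms of `CDat`** (from helper80's `Sound` and the bridge). -/
def S_Snd : Prop :=
  ∀ (q f : ℕ) [Fact q.Prime] (D : PerData q f) (K L : Type) [Field K] [NumberField K] [Field L]
    [NumberField L] [Algebra K L] (F : Fr D K L) (c : CDat F)
    (W : Set (HeightOneSpectrum (𝓞 K))), IsTotallyReal K → c.Ok W →
    ∃ c0 : ℕ, ∀ t : K, Sys (c.sp c0) (Wring K W : Set K) t → ∃ z : ℤ, t = z

/-- **Existence of the data.**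

`K` totally real, `K'` an auxiliary Galois extension: for all `ε`, there are `h = q`, `f`, `D`, the frame, the
data and a finite set `B` which contains all primes dividing `2 f C hcl m2 l_0 l_1 l_2` except the `v i`. -/
def S_Dat : Prop :=
  ∀ (K : Type) [Field K] [NumberField K] [IsTotallyReal K]
    (K' : Type) [Field K'] [NumberField K'] [Algebra K K'] [IsGalois K K'] (ε : ℝ), 0 < ε →
    ∃ (q f : ℕ) (_ : Fact q.Prime) (D : PerData q f) (L : Type) (_ : Field L) (_ : NumberField L)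
      (_ : Algebra K L) (F : Fr D K L) (c : CDat F),
      1 / (q : ℝ) < ε ∧ Module.finrank ℚ K' < q ∧
      (∀ i, Deg1 (c.v i) ∧ D.ind (nm (c.v i)) = 0 ∧ ((f : ℕ) : 𝓞 K) ∉ (c.v i).asIdeal ∧
        ∀ w ∈ abv K' (c.v i), Deg1 w)

end Pool.Agent.C50
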