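import Pool.Agent.Lib.MP_673eb1_lc.C50.CDat
import Pool.Agent.Lib.MP_673eb1_lc.C50.Enc
import Pool.Agent.Lib.ZT.Str

/-!
MP_673eb1_lc, project C50, completeness (A): general lemmas.
-/

set_option autoImplicit false

open NumberField IsDedekindDomain WithZero

namespace Pool.Agent.C50

open Pool.Agent.Lib.MP_673eb1_lc Pool.Agent.ZD Pool.Agent.ZT

section gen

variable {K L : Type} [Field K] [NumberField K] [Field L] [NumberField L] [Algebra K L]

/-- a natural number lies in a prime of prime norm `l` iff it is divisible by `l` -/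
theorem nat_mem_iff (v : HeightOneSpectrum (𝓞 K)) {l : ℕ} (hl : l.Prime) (hv : nm v = l) (n : ℕ) :
    ((n : ℕ) : 𝓞 K) ∈ v.asIdeal ↔ l ∣ n := by
  have h1 : ((l : ℕ) : 𝓞 K) ∈ v.asIdeal := by
    rw [← hv]
    exact Ideal.absNorm_mem v.asIdeal
  constructor
  · intro h
    by_contra hn
    have hc : IsCoprime (l : ℤ) (n : ℤ) :=
      Nat.isCoprime_iff_coprime.2 ((Nat.Prime.coprime_iff_not_dvd hl).2 hn)
    obtain ⟨a, b, hab⟩ := hc
    have h2 : (1 : 𝓞 K) = (a : 𝓞 K) * (l : ℕ) + (b : 𝓞 K) * (n : ℕ) := by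
      have := congrArg (fun z : ℤ => (z : 𝓞 K)) hab
      push_cast at this
      exact this.symm
    refine v.isPrime.ne_top ((Ideal.eq_top_iff_one _).2 ?_)
    rw [h2]
    exact Ideal.add_mem _ (Ideal.mul_mem_left _ _ h1) (Ideal.mul_mem_left _ _ h)
  · rintro ⟨k, rfl⟩
    push_cast
    exact Ideal.mul_mem_right _ _ h1

/-- values of natural numbers -/
theorem val_nat_one (v : HeightOneSpectrum (𝓞 K)) {l : ℕ} (hl : l.Prime) (hv : nm v = l) {n : ℕ}
    (hn : ¬ l ∣ n) : v.valuation K (n : K) = 1 := by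
  have h1 : ((n : ℕ) : 𝓞 K) ∉ v.asIdeal := fun h => hn ((nat_mem_iff v hl hv n).1 h)
  have h2 := (HeightOneSpectrum.valuation_eq_one_iff_notMem (K := K) v).2 h1
  rwa [map_natCast (algebraMap (𝓞 K) K)] at h2

theorem val_int_le (w : HeightOneSpectrum (𝓞 L)) (x : 𝓞 L) : w.valuation L (x : L) ≤ 1 :=
  w.valuation_le_one x

omit [NumberField K] [NumberField L] in
theorem mem_under {w : HeightOneSpectrum (𝓞 L)} {x : 𝓞 K} :
    x ∈ (w.under (𝓞 K)).asIdeal ↔ algebraMap (𝓞 K) (𝓞 L) x ∈ w.asIdeal := Iff.rfl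

theorem val_map_one {w : HeightOneSpectrum (𝓞 L)} {x : 𝓞 K} (h : x ∉ (w.under (𝓞 K)).asIdeal) :
    w.valuation L (algebraMap (𝓞 K) (𝓞 L) x : L) = 1 :=
  (HeightOneSpectrum.valuation_eq_one_iff_notMem (K := L) w).2 fun h1 => h (mem_under.2 h1)

/-- the finiteness of the primes dividing a nonzero integer -/
theorem finite_dvd {x : 𝓞 L} (hx : x ≠ 0) :
    {w : HeightOneSpectrum (𝓞 L) | w.valuation L (x : L) < 1}.Finite := by
  have h1 : {w : HeightOneSpectrum (𝓞 L) | w.asIdeal ∣ Ideal.span {x}}.Finite :=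
    Ideal.finite_factors (by
      rw [Ne, Ideal.zero_eq_bot, Ideal.span_singleton_eq_bot]
      exact hx)
  refine h1.subset fun w hw => ?_
  have h2 := (HeightOneSpectrum.valuation_lt_one_iff_mem (K := L) w x).1 hw
  exact Ideal.dvd_span_singleton.2 h2

/-- **The element `α`**: as divisible as `y` outside `v`, and a unit over `v`. -/
theorem exists_alpha {v : HeightOneSpectrum (𝓞 K)} {p : ℕ} (hp : p.Prime) (hv : nm v = p)
    (hvp : ∀ w ∈ abv L v, w.valuation L (p : L) = exp (-1 : ℤ)) {y : L} (hy : y ≠ 0) :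
    ∃ α : 𝓞 L, α ≠ 0 ∧ (∀ w ∈ abv L v, w.valuation L (α : L) = 1) ∧
      ∀ w ∉ abv L v, w.valuation L (α : L) ≤ w.valuation L y := by
  -- a numerator
  obtain ⟨a, b, hb, rfl⟩ := IsFractionRing.div_surjective (A := 𝓞 L) y
  have ha0 : a ≠ 0 := by
    rintro rfl
    rw [map_zero, zero_div] at hy
    exact hy rfl
  have hb0 : b ≠ 0 := nonZeroDivisors.ne_zero hb
  have hbL : algebraMap (𝓞 L) L b ≠ 0 := by
    rw [Ne, map_eq_zero_iff _ (IsFractionRing.injective (𝓞 L) L)]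
    exact hb0
  have hay : ∀ w : HeightOneSpectrum (𝓞 L), w.valuation L (algebraMap (𝓞 L) L a) ≤
      w.valuation L (algebraMap (𝓞 L) L a / algebraMap (𝓞 L) L b) := by
    intro w
    have h1 : algebraMap (𝓞 L) L a =
        algebraMap (𝓞 L) L a / algebraMap (𝓞 L) L b * algebraMap (𝓞 L) L b := by
      rw [div_mul_cancel₀ _ hbL]
    conv_lhs => rw [h1, map_mul]
    exact mul_le_of_le_one_right zero_le (w.valuation_le_one b)
  -- the norm
  obtain ⟨N, hN0, hNa⟩ : ∃ N : ℕ, N ≠ 0 ∧ ∀ w : HeightOneSpectrum (𝓞 L),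
      w.valuation L (N : L) ≤ w.valuation L (algebraMap (𝓞 L) L a) := by
    refine ⟨Ideal.absNorm (Ideal.span {a}), ?_, fun w => ?_⟩
    · rw [Ne, Ideal.absNorm_eq_zero_iff, Ideal.span_singleton_eq_bot]
      exact ha0
    · have h1 := Ideal.absNorm_mem (Ideal.span {a})
      obtain ⟨c, hc⟩ := Ideal.mem_span_singleton.1 h1
      have h2 : ((Ideal.absNorm (Ideal.span {a}) : ℕ) : L) =
          algebraMap (𝓞 L) L a * algebraMap (𝓞 L) L c := by
        rw [← map_mul, ← hc, map_natCast]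
      rw [h2, map_mul]
      exact mul_le_of_le_one_right zero_le (w.valuation_le_one c)
  obtain ⟨k, n', hn', hNk⟩ := Nat.exists_eq_pow_mul_and_not_dvd hN0 p hp.ne_one
  -- the element `β`
  have hpv : ((p : ℕ) : 𝓞 K) ∈ v.asIdeal := (nat_mem_iff v hp hv p).2 dvd_rfl
  obtain ⟨b', hb'⟩ := Ideal.dvd_span_singleton.2 hpv
  obtain ⟨w₀, hw₀⟩ := abv_nonempty (L := L) v
  have hb'v : ¬ b' ≤ v.asIdeal := by
    intro hle
    have h1 : Ideal.span {((p : ℕ) : 𝓞 K)} ≤ v.asIdeal ^ 2 := by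
      rw [hb', pow_two]
      exact Ideal.mul_mono_right hle
    have h2 : ((p : ℕ) : 𝓞 K) ∈ v.asIdeal ^ 2 := h1 (Ideal.mem_span_singleton_self _)
    have h3 : v.asIdeal ≤ w₀.asIdeal.comap (algebraMap (𝓞 K) (𝓞 L)) := (mem_abv.1 hw₀).ge
    have h4 : ((p : ℕ) : 𝓞 L) ∈ w₀.asIdeal ^ 2 := by
      have h5 := Ideal.mem_map_of_mem (algebraMap (𝓞 K) (𝓞 L)) h2
      rw [Ideal.map_pow, map_natCast] at h5
      exact Ideal.pow_right_mono (Ideal.map_le_iff_le_comap.2 h3) 2 h5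
    have h5 := (w₀.intValuation_le_pow_iff_mem ((p : ℕ) : 𝓞 L) 2).2 h4
    have h6 := hvp w₀ hw₀
    have h7 : w₀.valuation L (p : L) = w₀.intValuation ((p : ℕ) : 𝓞 L) := by
      rw [← HeightOneSpectrum.valuation_of_algebraMap (K := L)]
      exact congrArg _ (map_natCast (algebraMap (𝓞 L) L) p).symm
    rw [h7] at h6
    rw [h6, exp_le_exp] at h5
    norm_num at h5
  obtain ⟨β, hβ, hβv⟩ := Set.not_subset.1 hb'v
  have hβw : ∀ w : HeightOneSpectrum (𝓞 L), w ∉ abv L v →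
      w.valuation L (algebraMap (𝓞 K) (𝓞 L) β : L) ≤ w.valuation L (p : L) := by
    intro w hw
    have h1 : ¬ v.asIdeal ≤ (w.under (𝓞 K)).asIdeal := by
      intro hle
      apply hw
      have h2 := v.isMaximal.eq_of_le (w.under (𝓞 K)).isPrime.ne_top hle
      exact (HeightOneSpectrum.ext h2.symm)
    obtain ⟨γ, hγ, hγw⟩ := Set.not_subset.1 h1
    have h2 : γ * β ∈ Ideal.span {((p : ℕ) : 𝓞 K)} := by
      rw [hb']
      exact Ideal.mul_mem_mul hγ hβ
    obtain ⟨δ, hδ⟩ := Ideal.mem_span_singleton.1 h2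
    have h3 := val_map_one (L := L) (x := γ) hγw
    have h4 : w.valuation L (algebraMap (𝓞 K) (𝓞 L) β : L) =
        w.valuation L (algebraMap (𝓞 K) (𝓞 L) (γ * β) : L) := by
      rw [map_mul]
      change _ = w.valuation L ((algebraMap (𝓞 K) (𝓞 L) γ : L) * (algebraMap (𝓞 K) (𝓞 L) β : L))
      rw [map_mul, h3, one_mul]
    rw [h4, hδ, map_mul, map_natCast]
    change w.valuation L (((p : ℕ) : 𝓞 L) * (algebraMap (𝓞 K) (𝓞 L) δ) : 𝓞 L) ≤ _
    have h5 : (((((p : ℕ) : 𝓞 L) * (algebraMap (𝓞 K) (𝓞 L) δ) : 𝓞 L)) : L) =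
        (p : L) * (algebraMap (𝓞 K) (𝓞 L) δ : L) := by
      push_cast
      rfl
    rw [h5, map_mul]
    exact mul_le_of_le_one_right zero_le (val_int_le w _)
  have hβ0 : β ≠ 0 := fun h => hβv (by rw [h]; exact Ideal.zero_mem _)
  have hn0 : n' ≠ 0 := by
    rintro rfl
    exact hn' (dvd_zero p)
  refine ⟨(n' : 𝓞 L) * (algebraMap (𝓞 K) (𝓞 L) β) ^ k, ?_, fun w hw => ?_, fun w hw => ?_⟩
  · refine mul_ne_zero (by exact_mod_cast hn0) (pow_ne_zero _ ?_)
    rw [Ne, FaithfulSMul.algebraMap_eq_zero_iff]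
    exact hβ0
  · have h1 : w.valuation L (algebraMap (𝓞 K) (𝓞 L) β : L) = 1 := by
      refine val_map_one ?_
      have h2 : w.under (𝓞 K) = v := hw
      rw [h2]
      exact hβv
    have h2 : w.valuation L (n' : L) = 1 := by
      have h3 : ((n' : ℕ) : 𝓞 K) ∉ (w.under (𝓞 K)).asIdeal := by
        have h2 : w.under (𝓞 K) = v := hw
        rw [h2]
        exact fun h => hn' ((nat_mem_iff v hp hv n').1 h)
      have h4 := val_map_one (L := L) h3
      rw [map_natCast] at h4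
      exact_mod_cast h4
    push_cast
    rw [map_mul, map_pow, h1, h2, one_pow, mul_one]
  · refine le_trans ?_ ((hNa w).trans (hay w))
    rw [hNk]
    push_cast
    rw [map_mul, map_mul, map_pow, map_pow, mul_comm]
    exact mul_le_mul_left (pow_le_pow_left₀ zero_le (hβw w hw) k) _

end gen

end Pool.Agent.C50
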