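import Pool.Agent.Lib.MP_673eb1_lc.C50.CmpA

/-!
MP_673eb1_lc, project C50, completeness (B): the points `c.pt i`, `c.ps i`, and the statement `S_Ex`.
-/

set_option autoImplicit false

open NumberField IsDedekindDomain WithZero

namespace Pool.Agent.C50

open Pool.Agent.Lib.MP_673eb1_lc Pool.Agent.ZD Pool.Agent.ZT

variable {q f : ℕ} [Fact q.Prime] {D : PerData q f} {K L : Type} [Field K] [NumberField K] [Field L]
  [NumberField L] [Algebra K L]

theorem finrank_L (F : Fr D K L) : Module.finrank K L = 2 * q := by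
  rw [← F.e.toLinearEquiv.finrank_eq, Module.finrank_eq_card_basis (bL D), Fintype.card_prod,
    Fintype.card_bool, ZMod.card]

theorem isGal (F : Fr D K L) : IsGalois K L := by
  have : Module.Finite K L := Module.Finite.of_restrictScalars_finite ℚ K L
  refine IsGalois.of_card_aut_eq_finrank K L ?_
  rw [F.T.card, finrank_L F]

namespace CDat

variable {F : Fr D K L} (c : CDat F)

theorem π0 (i : Fin 3) : c.π i ≠ 0 := by
  intro h
  have h1 := c.hπ i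
  rw [h, Ideal.span_singleton_zero] at h1
  exact pow_ne_zero _ (c.w i).ne_bot h1.symm

theorem hz (i : Fin 3) : (c.π i : L) ≠ 0 := fun h => c.π0 i (RingOfIntegers.ext h)

theorem ord_π (i : Fin 3) : ord (c.w i) (c.π i : L) = c.hcl := by
  unfold ord
  rw [HeightOneSpectrum.valuation_of_algebraMap, (c.w i).intValuation_eq_exp_neg_multiplicity (c.π0 i),
    c.hπ i, log_exp, neg_neg]
  congr 1
  exact multiplicity_pow_self (c.w i).ne_bot (by
    rw [Ideal.isUnit_iff]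
    exact (c.w i).isPrime.ne_top) _

theorem ord_π' (i : Fin 3) {u : HeightOneSpectrum (𝓞 L)} (hu : u ≠ c.w i) : ord u (c.π i : L) = 0 := by
  unfold ord
  rw [HeightOneSpectrum.valuation_of_algebraMap]
  have h2 : u.intValuation (c.π i) = 1 := by
    rw [HeightOneSpectrum.intValuation_eq_one_iff]
    intro h3
    apply hu
    have h4 : Ideal.span {c.π i} ≤ u.asIdeal := (Ideal.span_singleton_le_iff_mem _).2 h3
    rw [c.hπ i] at h4
    have h5 := u.isPrime.le_of_pow_le h4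
    exact (HeightOneSpectrum.ext (((c.w i).isMaximal.eq_of_le u.isPrime.ne_top h5))).symm
  rw [h2, log_one, neg_zero]

/-- the point `P_i` -/
noncomputable def pt (i : Fin 3) : Additive F.T.T := F.T.gen1 (c.hz i)

theorem el_pt (i : Fin 3) : F.T.el (c.pt i) = c.P0 i := by
  unfold pt P0
  rw [Tor.el_gen1, mul_comm (F.T.τ _) (F.T.σ _)]

/-- the point `P_i*` -/
noncomputable def ps (i : Fin 3) : Additive F.T.T := c.m2 • c.pt i

theorem el_ps (i : Fin 3) : F.T.el (c.ps i) = c.Ps i := by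
  unfold ps Ps
  rw [Tor.el_nsmul, el_pt]

theorem oh_pt_out (i : Fin 3) {u : HeightOneSpectrum (𝓞 L)} (hu : u ∉ abv L (c.v i)) :
    F.T.oh u (c.pt i) = 0 := by
  have h1 : ∀ g : L ≃ₐ[K] L, ord u (g (c.π i)) = 0 := by
    intro g
    rw [ord_app]
    refine c.ord_π' i fun h => hu ?_
    rw [← cj_cj_inv g u, h]
    exact cj_mem_abv g (c.hw i)
  unfold pt
  rw [Tor.oh_gen1]
  have h2 := h1 1
  have h3 := h1 (F.T.τ * F.T.σ)
  have h4 := h1 F.T.σ
  have h5 := h1 F.T.τ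
  rw [AlgEquiv.one_apply] at h2
  rw [AlgEquiv.mul_apply] at h3
  rw [h2, h3, h4, h5]
  ring

theorem oh_pt (i : Fin 3) : F.T.oh (c.w i) (c.pt i) = c.hcl := by
  have := isGal F
  have h1 : ∀ g : L ≃ₐ[K] L, g ≠ 1 → ord (c.w i) (g (c.π i)) = 0 := by
    intro g hg
    rw [ord_app]
    refine c.ord_π' i fun h => hg ?_
    have h2 : g⁻¹ = 1 := cj_free (c.spl i) (c.hw i) (by rw [h, cj_one])
    exact inv_eq_one.1 h2
  have hσ := F.T.σ_ne_one
  have hτ : F.T.τ ≠ 1 := by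
    have := F.T.τ_ne 0
    rwa [pow_zero] at this
  have hτσ : F.T.τ * F.T.σ ≠ 1 := by
    intro h
    have h2 : F.T.τ = F.T.σ ^ (q - 1) := by
      have h3 : F.T.σ * F.T.σ ^ (q - 1) = 1 := by
        rw [← pow_succ', Nat.sub_add_cancel F.T.pq.one_lt.le, F.T.σq]
      calc F.T.τ = F.T.τ * (F.T.σ * F.T.σ ^ (q - 1)) := by rw [h3, mul_one]
        _ = F.T.σ ^ (q - 1) := by rw [← mul_assoc, h, one_mul]
    exact F.T.τ_ne _ h2
  unfold pt
  rw [Tor.oh_gen1, c.ord_π i]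
  have h3 := h1 _ hτσ
  have h4 := h1 _ hσ
  have h5 := h1 _ hτ
  rw [AlgEquiv.mul_apply] at h3
  rw [h3, h4, h5]
  ring

theorem m20 : c.m2 ≠ 0 := by
  rw [c.hm2]
  have h1 : Finite (𝓞 L ⧸ Ideal.span {(c.C : 𝓞 L)}) := by
    refine Ideal.finiteQuotientOfFreeOfNeBot _ ?_
    rw [Ne, Ideal.span_singleton_eq_bot]
    exact_mod_cast c.C0
  exact Nat.card_pos.ne'

/-- the order of `P_i*` at `w_i` -/
theorem oh_ps (i : Fin 3) : F.T.oh (c.w i) (c.ps i) = (c.hcl * c.m2 : ℕ) := by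
  unfold ps
  rw [map_nsmul, oh_pt, nsmul_eq_mul]
  push_cast
  ring

theorem oh_ps_out (i : Fin 3) {u : HeightOneSpectrum (𝓞 L)} (hu : u ∉ abv L (c.v i)) :
    F.T.oh u (c.ps i) = 0 := by
  unfold ps
  rw [map_nsmul, c.oh_pt_out i hu, smul_zero]

theorem v_inj : Function.Injective c.v := by
  intro i j h
  apply c.linj
  rw [← c.nmv i, ← c.nmv j, h]

end CDat

/-- **(Ex)** (helper17): the arithmetic data of completeness. `p = l_2`, `x = m P_0*`, `y = m P_1*`.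

Proof.  `J ≥ 1`.  The numbers `hcl * m2 * m` are prime to `p` (`c.pm`, `m = hcl * mu * (p - 1)`).  `exists_aux` with
`d g = g (el x)` (`g` in the Galois group), `i₀ = 1`, `b = el y`, `u₁ = w 0`, `u₂ = w 1`, exponents `s = J < T₀ = 2 J + 1`
(`z ^ p = 1 → z = 1` because `p` is prime to `mu`, `c.hmu`) gives infinitely many `Q`; take one which does not divide
`N` and the different of `L / K` (so `Q.under` is completely split: `nm Q` is a prime number, `local_data`; then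
`cj g Q = Q → g = 1` by `cj_free`).  `S_WCh` gives `w`, `r`.  Write `nm Q - 1 = p ^ T * m'` with `p ∤ m'`, `T ≥ T₀`,
`u = m' * nm Q ^ (r - 1)` (prime to `p`: `nm Q ≡ 1 mod p`), `e₀` a multiple of `u`, `= 1 mod p ^ J` (`S_Exp`),
`f₀` from `uni` (`s = J`), `γ = u * p ^ (T - J - 1)` and `S_GOrd`.  `e₀ f₀ y ≠ 0`: otherwise `e₀ x ∈ B_Q`, but
`γ x ∉ B_Q` and `p γ x ∈ B_Q`, `e₀` prime to `p`. -/
def S_Ex : Prop :=
  ∀ (q f : ℕ) [Fact q.Prime] (D : PerData q f) (K L : Type) [Field K] [NumberField K] [Field L]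
    [NumberField L] [Algebra K L] (F : Fr D K L) (c : CDat F) (J N : ℕ), 1 ≤ J → N ≠ 0 →
    ∃ (Q : HeightOneSpectrum (𝓞 L)) (w : 𝓞 L) (r e₀ γ : ℕ) (f₀ : Lam q),
      1 ≤ r ∧ Q.valuation L (w : L) = exp (-(r : ℤ)) ∧
      (∀ Q' : HeightOneSpectrum (𝓞 L), Q' ≠ Q → Q'.valuation L (w : L) = 1) ∧
      (∃ y : 𝓞 L, w = 1 + N * y) ∧ (∀ g : L ≃ₐ[K] L, cj g Q = Q → g = 1) ∧
      1 ≤ e₀ ∧ e₀ % (c.l 2) ^ J = 1 % (c.l 2) ^ J ∧ ((c.l 2 : ℕ) : Lam q) ^ J ∣ f₀ ∧
      (∀ g : L ≃ₐ[K] L, (cj g Q).valuation L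
        (F.T.el (e₀ • (c.m • c.ps 0) - e₀ • (f₀ • (c.m • c.ps 1))) - 1) ≤ exp (-(r : ℤ))) ∧
      e₀ • (f₀ • (c.m • c.ps 1)) ≠ 0 ∧ (c.l 2) ^ J ∣ γ ∧
      Q.valuation L (∑ i ∈ Finset.range (c.l 2), F.T.el (γ • (c.m • c.ps 0)) ^ i) ≤ exp (-(r : ℤ))

end Pool.Agent.C50
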