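import Pool.Agent.Lib.MP_673eb1_lc.C50.CompSpec
import Pool.Agent.Lib.ZT.Res

/-!
MP_673eb1_lc, project C50: module `GOrd` (an element of order exactly `p` modulo a power of a prime)
-/

set_option autoImplicit false

open NumberField IsDedekindDomain WithZero

namespace Pool.Agent.C50

open Pool.Agent.Lib.MP_673eb1_lc Pool.Agent.ZD Pool.Agent.ZT

section

variable {L : Type} [Field L] [NumberField L] (Q : HeightOneSpectrum (𝓞 L))

/-- The powers of an element which is `1` modulo `Q`. -/
private theorem gord_pow {z : L} (hz : Q.valuation L (z - 1) < 1) (i : ℕ) :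
    Q.valuation L (z ^ i - 1) < 1 := by
  have hz1 : Q.valuation L z = 1 := by
    have h : z = (z - 1) + 1 := by ring
    rw [h, Valuation.map_add_eq_of_lt_right _ (by rwa [map_one]), map_one]
  induction i with
  | zero => rw [pow_zero, sub_self, map_zero]; exact zero_lt_one
  | succ i ih =>
    have h : z ^ (i + 1) - 1 = (z ^ i - 1) * z + (z - 1) := by ring
    rw [h]
    refine (Valuation.map_add _ _ _).trans_lt (max_lt ?_ hz)
    rw [map_mul, hz1, mul_one]
    exact ih

private theorem gord_mem (u : 𝓞 L) :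
    u ∈ Q.asIdeal ↔ Q.valuation L (algebraMap (𝓞 L) L u) < 1 :=
  (HeightOneSpectrum.valuation_lt_one_iff_mem (K := L) Q u).symm

private theorem gord_N : Q.valuation L ((nm Q : ℕ) : L) < 1 := by
  have h1 : ((nm Q : ℕ) : 𝓞 L) ∈ Q.asIdeal := Ideal.absNorm_mem _
  have h2 := (gord_mem Q _).1 h1
  rwa [map_natCast] at h2

/-- The `N ^ j`-th power of an element which is `1` modulo `Q`. -/
private theorem gord_lift {z : L} (hz : Q.valuation L (z - 1) < 1) (j : ℕ) :
    Q.valuation L (z ^ (nm Q ^ j) - 1) ≤ exp (-((j + 1 : ℕ) : ℤ)) := by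
  induction j with
  | zero =>
    rw [pow_zero, pow_one]
    exact (lt_one_iff_le_exp _).1 hz
  | succ j ih =>
    set u := z ^ (nm Q ^ j) with hu
    have hu1 : Q.valuation L (u - 1) < 1 := gord_pow Q hz _
    have h1 : z ^ (nm Q ^ (j + 1)) = u ^ nm Q := by rw [hu, ← pow_mul, pow_succ]
    have h2 : u ^ nm Q - 1 = (∑ i ∈ Finset.range (nm Q), u ^ i) * (u - 1) :=
      (geom_sum_mul u (nm Q)).symm
    have h3 : ∑ i ∈ Finset.range (nm Q), u ^ i =
        ∑ i ∈ Finset.range (nm Q), (u ^ i - 1) + (nm Q : L) := by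
      rw [Finset.sum_sub_distrib, Finset.sum_const, Finset.card_range, nsmul_eq_mul, mul_one,
        sub_add_cancel]
    have h4 : Q.valuation L (∑ i ∈ Finset.range (nm Q), u ^ i) < 1 := by
      rw [h3]
      refine (Valuation.map_add _ _ _).trans_lt (max_lt ?_ (gord_N Q))
      exact Valuation.map_sum_lt _ one_ne_zero fun i _ => gord_pow Q hu1 i
    rw [h1, h2, map_mul]
    calc Q.valuation L (∑ i ∈ Finset.range (nm Q), u ^ i) * Q.valuation L (u - 1)
        ≤ exp (-1) * exp (-((j + 1 : ℕ) : ℤ)) :=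
          mul_le_mul' ((lt_one_iff_le_exp _).1 h4) ih
      _ = exp (-((j + 1 + 1 : ℕ) : ℤ)) := by
        rw [← exp_add]
        congr 1
        push_cast
        ring

/-- Powers of elements which agree modulo `Q`. -/
private theorem gord_cong {x y : L} (hx : Q.valuation L x ≤ 1) (hy : Q.valuation L y ≤ 1)
    (h : Q.valuation L (x - y) < 1) (i : ℕ) : Q.valuation L (x ^ i - y ^ i) < 1 := by
  induction i with
  | zero => rw [pow_zero, pow_zero, sub_self, map_zero]; exact zero_lt_one
  | succ i ih =>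
    have h1 : x ^ (i + 1) - y ^ (i + 1) = (x ^ i - y ^ i) * x + y ^ i * (x - y) := by ring
    rw [h1]
    refine (Valuation.map_add _ _ _).trans_lt (max_lt ?_ ?_)
    · rw [map_mul]
      exact (mul_le_of_le_one_right' hx).trans_lt ih
    · rw [map_mul, map_pow]
      exact (mul_le_of_le_one_left' (pow_le_one' hy i)).trans_lt h

end

/-- **(G)** -/
theorem gOrd_ : S_GOrd := by
  classical
  intro L _ _ Q p T m' s r hp hN hNT hm' hs hr x hx hyp1 hyp2
  have : Q.asIdeal.IsMaximal := Q.isMaximal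
  let _ : Field (𝓞 L ⧸ Q.asIdeal) := Ideal.Quotient.field _
  have hcard : Nat.card (𝓞 L ⧸ Q.asIdeal) = nm Q := card_quot Q
  have hfin : Finite (𝓞 L ⧸ Q.asIdeal) := Nat.finite_of_card_ne_zero (by
    rw [hcard]
    exact (nm_pos Q).ne')
  let _ := Fintype.ofFinite (𝓞 L ⧸ Q.asIdeal)
  have hN2 : 2 ≤ nm Q := two_le_nm Q
  have hpN : p ∣ nm Q - 1 := by
    rw [hNT]
    exact (dvd_pow_self p (by omega)).mul_right m'
  have hcop : (nm Q).Coprime (nm Q - 1) := by
    have h := Nat.coprime_self_sub_right (m := 1) (n := nm Q) (by omega)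
    exact h.2 (Nat.coprime_one_right _)
  have hm0 : 0 < m' := by
    rcases Nat.eq_zero_or_pos m' with h | h
    · exact absurd (h ▸ dvd_zero p) hm'
    · exact h
  -- an element of the ring of integers
  obtain ⟨a, ha⟩ := HeightOneSpectrum.exists_valuation_sub_lt_of_integer (R := 𝓞 L) (K := L) Q
    hx.le 1
  have ha' : Q.valuation L (x - algebraMap (𝓞 L) L a) < 1 := by
    rw [← Valuation.map_neg, neg_sub]
    exact ha
  have hale : Q.valuation L (algebraMap (𝓞 L) L a) ≤ 1 := Q.valuation_le_one a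
  have ha1 : a ∉ Q.asIdeal := by
    intro h
    have h1 := (gord_mem Q _).1 h
    have h2 : x = (x - algebraMap (𝓞 L) L a) + algebraMap (𝓞 L) L a := by ring
    have h3 : Q.valuation L x < 1 := by
      rw [h2]
      exact (Valuation.map_add _ _ _).trans_lt (max_lt ha' h1)
    exact absurd hx h3.ne
  set E := m' * nm Q ^ (r - 1) * p ^ (T - s - 1) with hE
  set X := x ^ E with hX
  have hX1 : Q.valuation L X = 1 := by rw [hX, map_pow, hx, one_pow]
  -- transfer to the residue field
  have tr : ∀ i : ℕ, Q.valuation L (x ^ i - 1) < 1 ↔ (Ideal.Quotient.mk Q.asIdeal a) ^ i = 1 := by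
    intro i
    have h1 := gord_cong Q hx.le hale ha' i
    have h2 : (Ideal.Quotient.mk Q.asIdeal a) ^ i = 1 ↔
        Q.valuation L ((algebraMap (𝓞 L) L a) ^ i - 1) < 1 := by
      rw [← map_pow, ← map_one (Ideal.Quotient.mk Q.asIdeal), Ideal.Quotient.eq,
        gord_mem, map_sub, map_pow, map_one]
    rw [h2]
    constructor
    · intro h
      have h3 : (algebraMap (𝓞 L) L a) ^ i - 1 =
          -(x ^ i - (algebraMap (𝓞 L) L a) ^ i) + (x ^ i - 1) := by ring
      rw [h3]
      refine (Valuation.map_add _ _ _).trans_lt (max_lt ?_ h)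
      rwa [Valuation.map_neg]
    · intro h
      have h3 : x ^ i - 1 = (x ^ i - (algebraMap (𝓞 L) L a) ^ i) +
          ((algebraMap (𝓞 L) L a) ^ i - 1) := by ring
      rw [h3]
      exact (Valuation.map_add _ _ _).trans_lt (max_lt h1 h)
  have hane : Ideal.Quotient.mk Q.asIdeal a ≠ 0 := by
    rwa [Ne, Ideal.Quotient.eq_zero_iff_mem]
  -- first claim
  have hfirst : Q.valuation L (X - 1) = 1 := by
    refine le_antisymm ?_ (not_lt.1 ?_)
    · refine (Valuation.map_sub _ _ _).trans (max_le hX1.le ?_)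
      rw [map_one]
    · intro hlt
      rw [hX, tr] at hlt
      obtain ⟨g, hg⟩ := IsCyclic.exists_generator (α := (𝓞 L ⧸ Q.asIdeal)ˣ)
      obtain ⟨i, hi⟩ := (mem_powers_iff_mem_zpowers.2 (hg (Units.mk0 _ hane)))
      have hi' : g ^ i = Units.mk0 _ hane := hi
      have hord : orderOf g = nm Q - 1 := by
        rw [orderOf_eq_card_of_forall_mem_zpowers hg, Nat.card_units, hcard]
      have h1 : g ^ (i * E) = 1 := by
        rw [pow_mul, hi']
        ext
        rw [Units.val_pow_eq_pow_val, Units.val_mk0, Units.val_one]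
        exact hlt
      have h2 : nm Q - 1 ∣ i * E := by
        rw [← hord]
        exact orderOf_dvd_of_pow_eq_one h1
      have h3 : p ^ T * m' ∣ (i * p ^ (T - s - 1) * m') * nm Q ^ (r - 1) := by
        rw [← hNT]
        refine h2.trans (dvd_of_eq ?_)
        rw [hE]
        ring
      have h4 : p ^ T * m' ∣ i * p ^ (T - s - 1) * m' := by
        refine Nat.Coprime.dvd_of_dvd_mul_right ?_ h3
        rw [← hNT]
        exact (Nat.Coprime.pow_left _ hcop).symm
      have h5 : p ^ T ∣ i * p ^ (T - s - 1) := Nat.dvd_of_mul_dvd_mul_right hm0 h4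
      have h6 : p ^ (s + 1) ∣ i := by
        have h7 : p ^ T = p ^ (s + 1) * p ^ (T - s - 1) := by
          rw [← pow_add]
          congr 1
          omega
        rw [h7] at h5
        exact Nat.dvd_of_mul_dvd_mul_right (pow_pos hp.pos _) h5
      obtain ⟨j, hj⟩ := h6
      obtain ⟨b, hb⟩ := Ideal.Quotient.mk_surjective (I := Q.asIdeal) ((g ^ j : (𝓞 L ⧸ Q.asIdeal)ˣ) : 𝓞 L ⧸ Q.asIdeal)
      refine hyp2 (algebraMap (𝓞 L) L b) ?_
      have h8 : Ideal.Quotient.mk Q.asIdeal a = Ideal.Quotient.mk Q.asIdeal (b ^ (p ^ (s + 1))) := by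
        rw [map_pow, hb, ← Units.val_pow_eq_pow_val, ← pow_mul, mul_comm j, ← hj, hi',
          Units.val_mk0]
      rw [Ideal.Quotient.eq] at h8
      have h9 := (gord_mem Q _).1 h8
      rw [map_sub, map_pow] at h9
      have h10 : x - (algebraMap (𝓞 L) L b) ^ p ^ (s + 1) =
          (x - algebraMap (𝓞 L) L a) +
            (algebraMap (𝓞 L) L a - (algebraMap (𝓞 L) L b) ^ p ^ (s + 1)) := by ring
      rw [h10]
      exact (Valuation.map_add _ _ _).trans_lt (max_lt ha' h9)
  refine ⟨hfirst, ?_⟩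
  -- second claim
  have h1 : Q.valuation L (∑ i ∈ Finset.range p, X ^ i) = Q.valuation L (X ^ p - 1) := by
    rw [← geom_sum_mul X p, map_mul, hfirst, mul_one]
  rw [h1]
  set z := x ^ (m' * p ^ (T - s)) with hz
  have h2 : X ^ p = z ^ (nm Q ^ (r - 1)) := by
    rw [hX, hz, ← pow_mul, ← pow_mul, hE]
    congr 1
    have h3 : p ^ (T - s) = p ^ (T - s - 1) * p := by
      rw [← pow_succ]
      congr 1
      omega
    rw [h3]
    ring
  have hz1 : Q.valuation L (z - 1) < 1 := by
    rw [hz, tr]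
    obtain ⟨y, hy⟩ := hyp1
    have h4 : Ideal.Quotient.mk Q.asIdeal a = (Ideal.Quotient.mk Q.asIdeal y) ^ (p ^ s) := by
      rw [← map_pow, Ideal.Quotient.eq, gord_mem, map_sub, map_pow]
      have h5 : algebraMap (𝓞 L) L a - (algebraMap (𝓞 L) L y) ^ p ^ s =
          -(x - algebraMap (𝓞 L) L a) + (x - (algebraMap (𝓞 L) L y) ^ p ^ s) := by ring
      rw [h5]
      refine (Valuation.map_add _ _ _).trans_lt (max_lt ?_ hy)
      rwa [Valuation.map_neg]
    have h5 : Ideal.Quotient.mk Q.asIdeal y ≠ 0 := by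
      intro h
      rw [h, zero_pow (pow_ne_zero _ hp.ne_zero)] at h4
      exact hane h4
    rw [h4, ← pow_mul]
    have h6 : p ^ s * (m' * p ^ (T - s)) = nm Q - 1 := by
      rw [hNT]
      calc p ^ s * (m' * p ^ (T - s)) = (p ^ s * p ^ (T - s)) * m' := by ring
        _ = p ^ T * m' := by
          rw [← pow_add]
          congr 2
          omega
    rw [h6, ← hcard, Nat.card_eq_fintype_card]
    exact FiniteField.pow_card_sub_one_eq_one _ h5
  rw [h2]
  refine (gord_lift Q hz1 (r - 1)).trans (le_of_eq ?_)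
  rw [Nat.sub_add_cancel hr]

end Pool.Agent.C50
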