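import Pool.Agent.Lib.MP_673eb1_lc.C50.CmpB
import Pool.Agent.Lib.MP_673eb1_lc.C50.GOrd
import Pool.Agent.Lib.ZT.Uni2

/-!
MP_673eb1_lc, project C50, completeness (C): the arithmetic data `S_Ex`.
-/

set_option autoImplicit false

open NumberField IsDedekindDomain WithZero

namespace Pool.Agent.C50

open Pool.Agent.Lib.MP_673eb1_lc Pool.Agent.ZD Pool.Agent.ZT

section aux

variable {L : Type} [Field L] [NumberField L]

theorem val_pow_sub_le (w : HeightOneSpectrum (𝓞 L)) {z : L} {r : ℕ}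
    (h : w.valuation L (z - 1) ≤ exp (-(r : ℤ))) (k : ℕ) :
    w.valuation L (z ^ k - 1) ≤ exp (-(r : ℤ)) := by
  have h1 : w.valuation L z ≤ 1 := by
    have h2 : z = (z - 1) + 1 := by ring
    rw [h2]
    refine (Valuation.map_add _ _ _).trans (max_le (h.trans ?_) (by rw [map_one]))
    rw [← exp_zero, exp_le_exp]
    omega
  rw [← geom_sum_mul, map_mul]
  refine (mul_le_of_le_one_left zero_le ?_).trans h
  refine val_sum_le w _ _ fun i _ => ?_
  rw [map_pow]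
  exact pow_le_one₀ zero_le h1

/-- an element of order `p` modulo `Q` -/
theorem not_pow_one (Q : HeightOneSpectrum (𝓞 L)) {p e : ℕ} (hp : p.Prime) (he : e.Coprime p) {X : L}
    (h0 : Q.valuation L X = 1) (h1 : Q.valuation L (X - 1) = 1)
    (h2 : Q.valuation L (∑ i ∈ Finset.range p, X ^ i) < 1) : ¬ Q.valuation L (X ^ e - 1) < 1 := by
  intro h3
  have h4 : Q.valuation L (X ^ p - 1) < 1 := by
    rw [← geom_sum_mul, map_mul, h1, mul_one]
    exact h2
  obtain ⟨a, -, ha⟩ := Nat.exists_mul_mod_eq_one_of_coprime he hp.one_lt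
  have ha' := Nat.div_add_mod (e * a) p
  rw [ha] at ha'
  have hmul : ∀ {z : L} (k : ℕ), Q.valuation L (z - 1) < 1 → Q.valuation L (z ^ k - 1) < 1 := by
    intro z k hz
    have h4 := val_prod_sub Q (Finset.range k) (fun _ => z) fun _ _ => hz
    rwa [Finset.prod_const, Finset.card_range] at h4
  have h5 := hmul a h3
  have h6 := hmul (e * a / p) h4
  rw [← pow_mul] at h5 h6
  rw [← ha', pow_add, pow_one] at h5
  obtain ⟨Y, hY⟩ : ∃ Y : L, Y = X ^ (p * (e * a / p)) := ⟨_, rfl⟩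
  rw [← hY] at h5 h6
  have h7 : X - 1 = (Y * X - 1) - (Y - 1) * X := by ring
  have h8 : Q.valuation L (X - 1) < 1 := by
    rw [h7]
    refine Valuation.map_sub_lt _ h5 ?_
    rw [map_mul, h0, mul_one]
    exact h6
  exact absurd h1 h8.ne

end aux

theorem ex (hW : S_WCh) (hE : S_Exp) : S_Ex := by
  classical
  intro q f _ D K L _ _ _ _ _ F c J N hJ hN
  have hgal := isGal F
  obtain ⟨p, hpp⟩ : ∃ p, p = c.l 2 := ⟨_, rfl⟩
  have hp : p.Prime := hpp ▸ c.lp 2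
  have hpm := c.pm
  rw [← hpp] at hpm
  have hp1 : ¬ p ∣ c.hcl := fun h => hpm ((h.mul_right _).mul_right _)
  have hp2 : ¬ p ∣ c.mu := fun h => hpm ((h.mul_left _).mul_right _)
  have hp3 : ¬ p ∣ c.m2 := fun h => hpm (h.mul_left _)
  have hp4 : ¬ p ∣ c.m := by
    intro h
    unfold CDat.m at h
    rw [← hpp] at h
    rcases (Nat.Prime.dvd_mul hp).1 h with h | h
    · rcases (Nat.Prime.dvd_mul hp).1 h with h | h
      · exact hp1 h
      · exact hp2 h
    · have h2 := hp.two_le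
      have := Nat.le_of_dvd (by omega) h
      omega
  have hp5 : ¬ p ∣ c.m * (c.hcl * c.m2) := by
    intro h
    rcases (Nat.Prime.dvd_mul hp).1 h with h | h
    · exact hp4 h
    · rcases (Nat.Prime.dvd_mul hp).1 h with h | h
      · exact hp1 h
      · exact hp3 h
  have hz : ∀ z : L, z ^ p = 1 → z = 1 := by
    intro z hz
    have h1 := c.hmu z p hp.pos hz
    have h2 := pow_gcd_eq_one.2 ⟨hz, h1⟩
    rwa [(Nat.Prime.coprime_iff_not_dvd hp).2 hp2, pow_one] at h2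
  obtain ⟨x, hx⟩ : ∃ x, x = c.m • c.ps 0 := ⟨_, rfl⟩
  obtain ⟨y, hy⟩ : ∃ y, y = c.m • c.ps 1 := ⟨_, rfl⟩
  have hfin : Finite (L ≃ₐ[K] L) := Nat.finite_of_card_ne_zero (by
    rw [F.T.card]
    have := F.T.pq.pos
    omega)
  have hft : Fintype (L ≃ₐ[K] L) := Fintype.ofFinite _
  have hxo : ∀ u, u ∉ abv L (c.v 0) → ord u (F.T.el x) = 0 := by
    intro u hu
    rw [hx]
    change F.T.oh u (c.m • c.ps 0) = 0
    rw [map_nsmul, c.oh_ps_out 0 hu, smul_zero]
  have hyo : ∀ u, u ∉ abv L (c.v 1) → ord u (F.T.el y) = 0 := by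
    intro u hu
    rw [hy]
    change F.T.oh u (c.m • c.ps 1) = 0
    rw [map_nsmul, c.oh_ps_out 1 hu, smul_zero]
  have hv01 : c.v 0 ≠ c.v 1 := fun h => absurd (c.v_inj h) (by decide)
  obtain hinf := exists_aux L hp hz (D := 2 * J + 1) (s := J) (by omega) (ι := L ≃ₐ[K] L)
    (fun g => g (F.T.el x)) (fun g => (_root_.map_ne_zero g).2 (F.T.el_ne x)) 1 (F.T.el y)
    (F.T.el_ne y) (c.w 0) (c.w 1) (by
      intro h
      apply hp5
      rw [AlgEquiv.one_apply] at h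
      have h1 : ord (c.w 0) (F.T.el x) = ((c.m * (c.hcl * c.m2) : ℕ) : ℤ) := by
        rw [hx]
        change F.T.oh (c.w 0) (c.m • c.ps 0) = _
        rw [map_nsmul, c.oh_ps 0, nsmul_eq_mul]
        push_cast
        ring
      rw [h1] at h
      exact_mod_cast h) (by
      intro g
      rw [ord_app]
      refine hxo _ fun h => hv01 ?_
      have h1 : cj g⁻¹ (c.w 1) ∈ abv L (c.v 1) := cj_mem_abv _ (c.hw 1)
      have h2 : (cj g⁻¹ (c.w 1)).under (𝓞 K) = c.v 0 := h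
      have h3 : (cj g⁻¹ (c.w 1)).under (𝓞 K) = c.v 1 := h1
      rw [← h2, h3]) (by
      intro h
      apply hp5
      have h1 : ord (c.w 1) (F.T.el y) = ((c.m * (c.hcl * c.m2) : ℕ) : ℤ) := by
        rw [hy]
        change F.T.oh (c.w 1) (c.m • c.ps 1) = _
        rw [map_nsmul, c.oh_ps 1, nsmul_eq_mul]
        push_cast
        ring
      rw [h1] at h
      exact_mod_cast h)
  -- the choice of `Q`
  have hN' : ((N : ℕ) : 𝓞 L) ≠ 0 := by exact_mod_cast hN
  have hf1 : {w : HeightOneSpectrum (𝓞 L) | w.valuation L (((N : ℕ) : 𝓞 L) : L) < 1}.Finite :=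
    finite_dvd hN'
  have hf2 : {w : HeightOneSpectrum (𝓞 L) | w.asIdeal ∣ differentIdeal (𝓞 K) (𝓞 L)}.Finite :=
    Ideal.finite_factors (by
      rw [← Ideal.zero_eq_bot.symm]
      exact differentIdeal_ne_bot)
  obtain ⟨Q, hQ, hQf⟩ := (hinf.sdiff ((hf1.union hf2).union (finite_abv (L := L) (c.v 1)))).nonempty
  obtain ⟨hQ1, hQ2, hQ3, hQ4, hQ5, hQ6, hQ7⟩ := hQ
  simp only [Set.mem_union, Set.mem_ofPred_eq, not_or] at hQf
  obtain ⟨⟨hQN, hQd⟩, hQv⟩ := hQf
  have hQN' : Q.valuation L (N : L) = 1 := by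
    have h1 : (((N : ℕ) : 𝓞 L) : L) = (N : L) := map_natCast (algebraMap (𝓞 L) L) N
    rw [h1] at hQN
    exact le_antisymm (val_nat_le Q N) (not_lt.1 hQN)
  -- `Q` splits
  obtain ⟨v, hv⟩ : ∃ v : HeightOneSpectrum (𝓞 K), v = Q.under (𝓞 K) := ⟨_, rfl⟩
  have hQa : Q ∈ abv L v := hv.symm
  have hspl : v ∈ Spl K L := by
    obtain ⟨e, f', he, hf', h1, h2, h3⟩ := local_data (L := L) v
    have h4 : e = 1 := by
      by_contra h
      exact hQd (h3 h Q hQa)
    have h5 : f' = 1 := by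
      have h6 := h2 Q hQa
      rw [h6] at hQ1
      by_contra h
      exact Nat.Prime.not_prime_pow' h hQ1
    rw [h4, h5, mul_one, mul_one] at h1
    exact h1
  have hfree : ∀ g : L ≃ₐ[K] L, cj g Q = Q → g = 1 := fun g hg =>
    cj_free hspl hQa (by rw [hg, cj_one])
  obtain ⟨r, w, hr, hw1, hw2, hw3⟩ := hW L Q N hN hQN'
  -- exponents
  have h2Q := two_le_nm Q
  obtain ⟨T, m', hm', hT⟩ := Nat.exists_eq_pow_mul_and_not_dvd (n := nm Q - 1) (by omega) p hp.ne_one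
  have hTJ : 2 * J + 1 ≤ T := by
    by_contra h
    apply hm'
    have h1 : p ^ (T + 1) ∣ p ^ T * m' := by
      rw [← hT]
      exact (pow_dvd_pow p (by omega)).trans hQ2
    rw [pow_succ] at h1
    exact Nat.dvd_of_mul_dvd_mul_left (pow_pos hp.pos T) h1
  have hpQ : p ∣ nm Q - 1 := (dvd_pow_self p (by omega)).trans hQ2
  have hcop : (m' * nm Q ^ (r - 1)).Coprime p := by
    refine Nat.Coprime.mul_left ((Nat.Prime.coprime_iff_not_dvd hp).2 hm').symm (Nat.Coprime.pow_left _ ?_)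
    refine ((Nat.Prime.coprime_iff_not_dvd hp).2 fun h => ?_).symm
    have h1 := Nat.dvd_sub h hpQ
    have h3 : nm Q - (nm Q - 1) = 1 := by omega
    rw [h3] at h1
    exact hp.one_lt.ne' (Nat.dvd_one.1 h1)
  have hm0 : m' ≠ 0 := by
    rintro rfl
    exact hm' (dvd_zero p)
  have hu1 : 1 ≤ m' * nm Q ^ (r - 1) :=
    Nat.one_le_iff_ne_zero.2 (mul_ne_zero hm0 (pow_ne_zero _ (by omega)))
  obtain ⟨e₀, he1, ⟨k, he2⟩, he3⟩ := hE p _ J hp hcop hu1
  have hxu : ∀ g : L ≃ₐ[K] L, (cj g Q).valuation L (F.T.el x) = 1 := by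
    intro g
    have h1 := hQ3 g⁻¹
    rw [val_app, inv_inv] at h1
    exact h1
  have hyu : ∀ g : L ≃ₐ[K] L, (cj g Q).valuation L (F.T.el y) = 1 := by
    intro g
    rw [← ord_eq_zero_iff _ (F.T.el_ne y)]
    refine hyo _ fun h => hQv ?_
    have h1 : (cj g Q).under (𝓞 K) = c.v 1 := h
    rw [cj_under] at h1
    exact h1
  have hpq := c.pq
  have hpo := c.pord
  rw [← hpp] at hpq hpo
  obtain ⟨f₀, hf0, hf1'⟩ := uni F.T (Q := Q) (T := T) (m' := m') (s := J) (r := r) hp hpq hpo hT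
    (by omega) hr x y hxu hyu (fun g => hQ5 g) hQ7
  have hG := gOrd_ L Q p T m' J r hp hQ1 hT hm' (by omega) hr (F.T.el x) (hQ3 1) (hQ5 1) hQ6
  obtain ⟨γ, hγ⟩ : ∃ γ, γ = m' * nm Q ^ (r - 1) * p ^ (T - J - 1) := ⟨_, rfl⟩
  rw [← hγ] at hG
  obtain ⟨hG1, hG2⟩ := hG
  have hlast : ∀ g : L ≃ₐ[K] L, (cj g Q).valuation L
      (F.T.el (e₀ • x - e₀ • (f₀ • y)) - 1) ≤ exp (-(r : ℤ)) := by
    intro g
    have h1 : e₀ • x - e₀ • (f₀ • y) =
        k • ((m' * nm Q ^ (r - 1)) • x - (m' * nm Q ^ (r - 1)) • f₀ • y) := by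
      rw [nsmul_sub, ← mul_nsmul, ← mul_nsmul, he2]
    rw [h1, Tor.el_nsmul]
    exact val_pow_sub_le _ (hf1' g) k
  have he0p : e₀.Coprime p := by
    refine ((Nat.Prime.coprime_iff_not_dvd hp).2 fun h => ?_).symm
    have h1 : p ∣ p ^ J := dvd_pow_self p (by omega)
    have h3 : e₀ % p = 1 % p := by
      rw [← Nat.mod_mod_of_dvd e₀ h1, he3, Nat.mod_mod_of_dvd 1 h1]
    rw [Nat.mod_eq_zero_of_dvd h, Nat.mod_eq_of_lt hp.one_lt] at h3
    exact zero_ne_one h3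
  refine ⟨Q, w, r, e₀, γ, f₀, hr, hw1, hw2, hw3, hfree, he1, ?_, ?_, ?_, ?_, ?_, ?_⟩
  · rw [← hpp]
    exact he3
  · rw [← hpp]
    exact hf0
  · rw [← hx, ← hy]
    exact hlast
  · rw [← hy]
    intro h0
    have h1 := hlast 1
    rw [h0, sub_zero, cj_one, Tor.el_nsmul] at h1
    have h3 : Q.valuation L (F.T.el x ^ e₀ - 1) < 1 := by
      refine h1.trans_lt ?_
      rw [← exp_zero, exp_lt_exp]
      omega
    have h4 : Q.valuation L ((F.T.el x ^ γ) ^ e₀ - 1) < 1 := by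
      have h5 := val_prod_sub Q (Finset.range γ) (fun _ => F.T.el x ^ e₀) fun _ _ => h3
      rw [Finset.prod_const, Finset.card_range] at h5
      rwa [← pow_mul, mul_comm, pow_mul]
    refine not_pow_one Q hp he0p ?_ hG1 (hG2.trans_lt ?_) h4
    · have h6 := hxu 1
      rw [cj_one] at h6
      rw [map_pow, h6, one_pow]
    · rw [← exp_zero, exp_lt_exp]
      omega
  · rw [← hpp, hγ]
    exact (pow_dvd_pow p (by omega)).mul_left _
  · rw [← hpp, ← hx, Tor.el_nsmul]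
    exact hG2

end Pool.Agent.C50
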