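import Pool.Agent.Lib.MP_673eb1_lc.C50.CmpB
import Pool.Agent.Lib.ZT.Pak

/-!
MP_673eb1_lc, project C50, completeness (D): coordinates.
-/

set_option autoImplicit false

open NumberField IsDedekindDomain WithZero

namespace Pool.Agent.C50

open Pool.Agent.Lib.MP_673eb1_lc Pool.Agent.ZD Pool.Agent.ZT

variable {q f : ℕ} [Fact q.Prime] {D : PerData q f} {K L : Type} [Field K] [NumberField K] [Field L]
  [NumberField L] [Algebra K L]

/-- **(BR0)**, the part of (BR2) which is used. -/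
def S_BR0 : Prop :=
  ∀ (q f : ℕ) [Fact q.Prime] (D : PerData q f) (K L : Type) [Field K] [NumberField K] [Field L]
    [NumberField L] [Algebra K L] (F : Fr D K L) (v : HeightOneSpectrum (𝓞 K)),
    ((2 * f : ℕ) : 𝓞 K) ∉ v.asIdeal → ∀ y : L, (∀ w ∈ abv L v, w.valuation L y ≤ 1) →
      ∀ j, v.valuation K (co D (F.e.symm y) j) ≤ 1

theorem br0_of_br2 (h : S_BR2) : S_BR0 := by
  intro q f _ D K L _ _ _ _ _ F v hv y hy j
  have h1 := (h q f D K L F v hv 0 y).1 (fun w hw => by rw [exp_zero]; exact hy w hw) j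
  rwa [exp_zero] at h1

/-! ### coordinates -/

section coord

variable {R : Set K}

omit [NumberField K] in
theorem co_add (x y : LL D K) (j : Bool × ZMod q) : co D (x + y) j = co D x j + co D y j := by
  rcases j with ⟨b, c⟩
  cases b <;> simp [co]

omit [NumberField K] in
theorem co_algebraMap (x : K) (j : Bool × ZMod q) :
    co D (algebraMap K (LL D K) x) j = if j.1 then 0 else -x := by
  rcases j with ⟨b, c⟩
  cases b
  · change (algebraMap K (PR D K) x) c = _
    simp
  · change (0 : PR D K) c = _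
    simp

end coord

theorem InR.add {W : Set (HeightOneSpectrum (𝓞 K))} {x y : LL D K}
    (hx : InR D (Wring K W : Set K) x) (hy : InR D (Wring K W : Set K) y) :
    InR D (Wring K W : Set K) (x + y) := by
  intro j
  rw [co_add]
  exact (Wring K W).add_mem (hx j) (hy j)

theorem InR.map {W : Set (HeightOneSpectrum (𝓞 K))} {x : K} (hx : x ∈ Wring K W) :
    InR D (Wring K W : Set K) (algebraMap K (LL D K) x) := by
  intro j
  rw [co_algebraMap]
  split_ifs
  · exact (Wring K W).zero_mem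
  · exact (Wring K W).neg_mem hx

/-- the automorphisms in coordinates -/
theorem e_sL_iter (F : Fr D K L) (y : LL D K) (i : ℕ) : F.e ((sL D)^[i] y) = (F.T.σ ^ i) (F.e y) := by
  induction i with
  | zero => rfl
  | succ i ih =>
    rw [Function.iterate_succ_apply', F.es, ih, pow_succ']
    rfl

theorem isT_el (F : Fr D K L) (z : Additive F.T.T) :
    QR.IsT D (-1 : K) (F.e.symm (F.T.el z)) := by
  have h := F.T.mem_T.1 (F.T.el_mem z)
  constructor
  · apply F.e.injective
    rw [map_mul, F.et, AlgEquiv.apply_symm_apply, map_one]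
    exact h.1
  · apply F.e.injective
    rw [map_prod, map_one]
    refine Eq.trans (Finset.prod_congr rfl fun i _ => ?_) h.2
    have h1 := e_sL_iter F (F.e.symm (F.T.el z)) i
    rw [AlgEquiv.apply_symm_apply] at h1
    exact h1

/-- the norm in `L` -/
theorem e_nL (F : Fr D K L) (y : L) :
    F.e (nL D (F.e.symm y)) = ∏ i ∈ Finset.range q, ((F.T.σ ^ i) y * F.T.τ ((F.T.σ ^ i) y)) := by
  unfold nL
  rw [map_prod]
  refine Finset.prod_congr rfl fun i _ => ?_
  rw [map_mul, F.et, e_sL_iter, AlgEquiv.apply_symm_apply]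

/-- the height form in `L` does not vanish -/
theorem e_hD_ne (F : Fr D K L) {g : ℕ} (hg : 0 < g) (x : K) : F.e (hD D g x) ≠ 0 := by
  unfold hD
  rw [map_prod, Finset.prod_ne_zero_iff]
  intro c _
  rw [map_add, map_pow, map_natCast]
  obtain ⟨y, hy⟩ : ∃ y, y = F.e (algebraMap K (LL D K) x - ofPR D (PR.e D c)) := ⟨_, rfl⟩
  have hyτ : F.T.τ y = y := by
    rw [hy, ← F.et]
    congr 1
    rw [star_sub]
    congr 1
    · refine QuadraticAlgebra.ext ?_ ?_
      · simp
      · have h1 : (algebraMap K (LL D K) x).im = 0 := rfl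
        simp [h1]
    · refine QuadraticAlgebra.ext ?_ ?_ <;> simp [ofPR]
  rw [← hy]
  obtain ⟨φ⟩ : Nonempty (L →+* ℂ) := inferInstance
  have h1 : (starRingEnd ℂ) (φ y) = φ y := by
    rw [← F.T.cpx, hyτ]
  obtain ⟨r, hr⟩ := Complex.conj_eq_iff_real.1 h1
  intro h0
  have h2 := congrArg φ h0
  rw [map_add, map_pow, map_natCast, map_zero, hr] at h2
  have h3 : ((r ^ 2 + g : ℝ) : ℂ) = 0 := by
    push_cast
    exact h2
  have h4 : (r ^ 2 + g : ℝ) = 0 := by exact_mod_cast h3
  have h5 : (0 : ℝ) < g := by exact_mod_cast hg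
  nlinarith [sq_nonneg r]

namespace CDat

variable {F : Fr D K L} (c : CDat F)

/-- the primes dividing `C` are not above `v i` -/
theorem C_unit (i : Fin 3) {w : HeightOneSpectrum (𝓞 L)} (hw : w ∈ abv L (c.v i)) :
    w.valuation L (c.C : L) = 1 := by
  have h1 : ((c.C : ℕ) : 𝓞 K) ∉ (w.under (𝓞 K)).asIdeal := by
    have h2 : w.under (𝓞 K) = c.v i := hw
    rw [h2]
    exact fun h => c.lC i ((nat_mem_iff _ (c.lp i) (c.nmv i) _).1 h)
  have h3 := val_map_one (L := L) h1
  rw [map_natCast] at h3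
  exact_mod_cast h3

theorem f_notMem (i : Fin 3) : ((2 * f : ℕ) : 𝓞 K) ∉ (c.v i).asIdeal :=
  fun h => c.lf i ((nat_mem_iff _ (c.lp i) (c.nmv i) _).1 h)

/-- points which are units outside `v i` and `= 1` modulo `C` -/
def Gd (i : Fin 3) : Submodule (Lam q) (Additive F.T.T) :=
  F.T.toSub
    { carrier := {z | (∀ w ∉ abv L (c.v i), w.valuation L (F.T.el z) = 1) ∧
        ∀ w : HeightOneSpectrum (𝓞 L), w.valuation L (c.C : L) < 1 →
          w.valuation L (F.T.el z - 1) ≤ w.valuation L (c.C : L)}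
      zero_mem' := by
        refine ⟨fun w _ => by rw [Tor.el_zero, map_one], fun w _ => ?_⟩
        rw [Tor.el_zero, sub_self, map_zero]
        exact zero_le
      add_mem' := by
        rintro x y ⟨hx1, hx2⟩ ⟨hy1, hy2⟩
        refine ⟨fun w hw => by rw [Tor.el_add, map_mul, hx1 w hw, hy1 w hw, one_mul], fun w hw => ?_⟩
        have h0 : w ∉ abv L (c.v i) := fun h => by
          rw [c.C_unit i h] at hw
          exact lt_irrefl _ hw
        have h1 : F.T.el (x + y) - 1 = (F.T.el x - 1) * F.T.el y + (F.T.el y - 1) := by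
          rw [Tor.el_add]
          ring
        rw [h1]
        refine (Valuation.map_add _ _ _).trans (max_le ?_ (hy2 w hw))
        rw [map_mul, hy1 w h0, mul_one]
        exact hx2 w hw
      neg_mem' := by
        rintro x ⟨hx1, hx2⟩
        refine ⟨fun w hw => by rw [Tor.el_neg, map_inv₀, hx1 w hw, inv_one], fun w hw => ?_⟩
        have h0 : w ∉ abv L (c.v i) := fun h => by
          rw [c.C_unit i h] at hw
          exact lt_irrefl _ hw
        have h1 : F.T.el (-x) - 1 = -((F.T.el x - 1) * (F.T.el x)⁻¹) := by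
          rw [Tor.el_neg]
          have := F.T.el_ne x
          field_simp
          ring
        rw [h1, Valuation.map_neg, map_mul, map_inv₀, hx1 w h0, inv_one, mul_one]
        exact hx2 w hw }
    (by
      rintro x ⟨hx1, hx2⟩
      refine ⟨fun w hw => ?_, fun w hw => ?_⟩
      · change w.valuation L (F.T.σ (F.T.el x)) = 1
        rw [val_app]
        refine hx1 _ fun h => hw ?_
        rw [← cj_cj_inv F.T.σ w]
        exact cj_mem_abv _ h
      · have h1 : F.T.el (Additive.ofMul (F.T.gT F.T.σ (Additive.toMul x))) - 1 =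
            F.T.σ (F.T.el x - 1) := by
          rw [map_sub, map_one]
          rfl
        have h2 : (cj F.T.σ⁻¹ w).valuation L (c.C : L) = w.valuation L (c.C : L) := by
          rw [← val_app, map_natCast]
        rw [h1, val_app, ← h2]
        exact hx2 _ (by rw [h2]; exact hw))

theorem mem_Gd {i : Fin 3} {z : Additive F.T.T} : z ∈ c.Gd i ↔
    (∀ w ∉ abv L (c.v i), w.valuation L (F.T.el z) = 1) ∧
      ∀ w : HeightOneSpectrum (𝓞 L), w.valuation L (c.C : L) < 1 →
        w.valuation L (F.T.el z - 1) ≤ w.valuation L (c.C : L) :=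
  Iff.rfl

theorem val_sub_one_le {w : HeightOneSpectrum (𝓞 L)} {x : L} (h : w.valuation L x ≤ 1) :
    w.valuation L (x - 1) ≤ 1 :=
  (Valuation.map_sub _ _ _).trans (max_le h (by rw [map_one]))

theorem Gd_C {i : Fin 3} {z : Additive F.T.T} (hz : z ∈ c.Gd i) {w : HeightOneSpectrum (𝓞 L)}
    (hw : w ∉ abv L (c.v i)) : w.valuation L (F.T.el z - 1) ≤ w.valuation L (c.C : L) := by
  rcases (val_nat_le w c.C).lt_or_eq with h | h
  · exact ((c.mem_Gd).1 hz).2 w h
  · rw [h]
    exact val_sub_one_le ((((c.mem_Gd).1 hz).1 w hw).le)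

theorem ps_mem (hO : S_Ord) (i : Fin 3) : c.ps i ∈ c.Gd i := by
  have h1 : ∀ w ∉ abv L (c.v i), w.valuation L (F.T.el (c.pt i)) = 1 := fun w hw =>
    (F.T.oh_eq_zero_iff w _).1 (c.oh_pt_out i hw)
  refine (c.mem_Gd).2 ⟨fun w hw => (F.T.oh_eq_zero_iff w _).1 (c.oh_ps_out i hw), fun w hw => ?_⟩
  have h2 : (((c.C : ℕ) : 𝓞 L) : L) = (c.C : L) := map_natCast (algebraMap (𝓞 L) L) _
  have h3 := hO L ((c.C : ℕ) : 𝓞 L) (by exact_mod_cast c.C0) (F.T.el (c.pt i)) (fun w hw => by
    rw [h2] at hw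
    refine h1 w fun h => ?_
    rw [c.C_unit i h] at hw
    exact lt_irrefl _ hw) w (by rw [h2]; exact hw)
  rw [h2, ← c.hm2] at h3
  unfold ps
  rw [Tor.el_nsmul]
  exact h3

/-- the coordinates of a good point -/
theorem inR_Gd {i : Fin 3} {z : Additive F.T.T} (hz : z ∈ c.Gd i) :
    InR D (Wring K (Set.range c.v) : Set K) (F.e.symm (F.T.el z)) := by
  have h1 := c.hC (Set.range c.v) (F.T.el z - 1) fun w hw =>
    c.Gd_C hz fun h => hw ⟨i, (show w.under (𝓞 K) = c.v i from h).symm⟩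
  have h2 : F.e.symm (F.T.el z) = F.e.symm (F.T.el z - 1) + algebraMap K (LL D K) 1 := by
    rw [map_sub, map_one, map_one, sub_add_cancel]
  rw [h2]
  exact h1.add (InR.map (one_mem _))

theorem inV_Gd (hB : S_BR0) (c0 : ℕ) {i j : Fin 3} (hij : j ≠ i) {z : Additive F.T.T}
    (hz : z ∈ c.Gd i) : InR D ((c.sp c0).V j) (F.e.symm (F.T.el z)) := by
  have h1 := hB q f D K L F (c.v j) (c.f_notMem j) (F.T.el z) fun w hw => by
    refine (((c.mem_Gd).1 hz).1 w fun h => hij ?_).le
    exact c.v_inj ((show w.under (𝓞 K) = c.v j from hw).symm.trans h)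
  exact fun k => h1 k

/-- `(7)` the four facts about a torus element of the system -/
theorem four (hB : S_BR0) (c0 : ℕ) {i j k : Fin 3} (hj : j ≠ i) (hk : k ≠ i) {z : Additive F.T.T}
    (hz : z ∈ c.Gd i) : QR.IsT D (-1 : K) (F.e.symm (F.T.el z)) ∧
      InR D (Wring K (Set.range c.v) : Set K) (F.e.symm (F.T.el z)) ∧
      InR D ((c.sp c0).V j) (F.e.symm (F.T.el z)) ∧ InR D ((c.sp c0).V k) (F.e.symm (F.T.el z)) :=
  ⟨isT_el F z, c.inR_Gd hz, c.inV_Gd hB c0 hj hz, c.inV_Gd hB c0 hk hz⟩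

/-! ### the element `S` -/

theorem exists_S (hO : S_Ord) {α : 𝓞 L} (hα : α ≠ 0)
    (h2 : ∀ w ∈ abv L (c.v 2), w.valuation L (α : L) = 1) :
    ∃ s ∈ c.Gd 2, F.T.el s ≠ 1 ∧
      ∀ w ∉ abv L (c.v 2), w.valuation L (F.T.el s - 1) ≤ w.valuation L (α : L) := by
  obtain ⟨n, hn⟩ : ∃ n, n = Nat.card (𝓞 L ⧸ Ideal.span {α})ˣ := ⟨_, rfl⟩
  have hn0 : n ≠ 0 := by
    rw [hn]
    have h1 : Finite (𝓞 L ⧸ Ideal.span {α}) := by
      refine Ideal.finiteQuotientOfFreeOfNeBot _ ?_
      rw [Ne, Ideal.span_singleton_eq_bot]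
      exact hα
    exact Nat.card_pos.ne'
  have h1 : ∀ w ∉ abv L (c.v 2), w.valuation L (F.T.el (c.ps 2)) = 1 := fun w hw =>
    (F.T.oh_eq_zero_iff w _).1 (c.oh_ps_out 2 hw)
  have hmem : n • c.ps 2 ∈ c.Gd 2 := by
    rw [← Nat.cast_smul_eq_nsmul (Lam q)]
    exact (c.Gd 2).smul_mem _ (c.ps_mem hO 2)
  refine ⟨n • c.ps 2, hmem, ?_, fun w hw => ?_⟩
  · refine F.T.nsmul_ne (w := c.w 2) ?_ hn0
    have h3 := c.oh_ps 2
    rw [Tor.oh_apply] at h3
    rw [h3]
    have h4 := c.m20
    have h5 := c.hcl0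
    exact_mod_cast Nat.mul_ne_zero h5.ne' h4
  · rcases (val_int_le w α).lt_or_eq with h | h
    · have h3 := hO L α hα (F.T.el (c.ps 2)) (fun w hw => h1 w fun h => by
        rw [h2 w h] at hw
        exact lt_irrefl _ hw) w h
      rw [← hn] at h3
      rw [Tor.el_nsmul]
      exact h3
    · rw [h]
      exact val_sub_one_le ((((c.mem_Gd).1 hmem).1 w hw).le)

end CDat

end Pool.Agent.C50
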