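import Pool.Agent.Lib.MP_673eb1_lc.C50.CmpD

/-!
MP_673eb1_lc, project C50, completeness (E): the `p`-adic conditions and the norm at the conjugates of `Q`.
-/

set_option autoImplicit false

open NumberField IsDedekindDomain WithZero

namespace Pool.Agent.C50

open Pool.Agent.Lib.MP_673eb1_lc Pool.Agent.ZD Pool.Agent.ZT

variable {q f : ℕ} [Fact q.Prime] {D : PerData q f} {K L : Type} [Field K] [NumberField K] [Field L]
  [NumberField L] [Algebra K L]

/-! ### the norm at the conjugates of `Q` -/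

section nrm

variable (F : Fr D K L) {Q : HeightOneSpectrum (𝓞 L)} {w : L} {r : ℕ}

/-- the factor at a conjugate -/
theorem val_cj_app (hw : Q.valuation L w = exp (-(r : ℤ)))
    (hw' : ∀ Q' : HeightOneSpectrum (𝓞 L), Q' ≠ Q → Q'.valuation L w = 1)
    (hf : ∀ g : L ≃ₐ[K] L, cj g Q = Q → g = 1) (g h : L ≃ₐ[K] L) :
    (h = g → (cj g Q).valuation L (h w) = exp (-(r : ℤ))) ∧
      (h ≠ g → (cj g Q).valuation L (h w) = 1) := by
  constructor
  · rintro rfl
    rw [cj_val, hw]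
  · intro hne
    rw [val_app, ← cj_mul]
    refine hw' _ fun h1 => hne ?_
    have h2 := hf _ h1
    rwa [inv_mul_eq_one] at h2

theorem prod_ge (hw : Q.valuation L w = exp (-(r : ℤ)))
    (hw' : ∀ Q' : HeightOneSpectrum (𝓞 L), Q' ≠ Q → Q'.valuation L w = 1)
    (hf : ∀ g : L ≃ₐ[K] L, cj g Q = Q → g = 1) (g : L ≃ₐ[K] L) :
    exp (-(r : ℤ)) ≤ (cj g Q).valuation L
      (∏ i ∈ Finset.range q, ((F.T.σ ^ i) w * F.T.τ ((F.T.σ ^ i) w))) := by
  have hq := F.T.pq.pos
  have key := val_cj_app hw hw' hf g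
  have hle : (exp (-(r : ℤ)) : ℤᵐ⁰) ≤ 1 := by
    rw [← exp_zero, exp_le_exp]
    omega
  rw [map_prod]
  obtain ⟨j, hj, hg⟩ := F.T.gen g
  have h1 : ∀ i ∈ Finset.range q, i ≠ j →
      (cj g Q).valuation L ((F.T.σ ^ i) w * F.T.τ ((F.T.σ ^ i) w)) = 1 := by
    intro i hi hij
    have hi' := Finset.mem_range.1 hi
    have e1 : F.T.σ ^ i ≠ g := by
      rcases hg with hg | hg
      · rw [hg]
        exact fun h => hij (F.T.σ_pow_inj hi' hj h)
      · rw [hg]
        intro h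
        refine F.T.τ_ne (q - j + i) ?_
        have h3 : F.T.σ ^ (q - j) * F.T.σ ^ j = 1 := by
          rw [← pow_add, Nat.sub_add_cancel hj.le, F.T.σq]
        rw [pow_add, h, ← mul_assoc, h3, one_mul]
    have e2 : F.T.τ * F.T.σ ^ i ≠ g := by
      rcases hg with hg | hg
      · rw [hg]
        intro h
        refine F.T.τ_ne (j + (q - i)) ?_
        have h3 : F.T.σ ^ i * F.T.σ ^ (q - i) = 1 := by
          rw [← pow_add, add_comm, Nat.sub_add_cancel hi'.le, F.T.σq]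
        rw [pow_add, ← h, mul_assoc, h3, mul_one]
      · rw [hg, F.T.comm_all (F.T.σ ^ j) F.T.τ]
        exact fun h => hij (F.T.σ_pow_inj hi' hj (mul_left_cancel h))
    have e3 := (key (F.T.σ ^ i)).2 e1
    have e4 := (key (F.T.τ * F.T.σ ^ i)).2 e2
    rw [AlgEquiv.mul_apply] at e4
    rw [map_mul, e3, e4, one_mul]
  rw [Finset.prod_eq_single j h1 fun h => absurd (Finset.mem_range.2 hj) h, map_mul]
  -- the factor `j`
  have h2 : F.T.σ ^ j ≠ F.T.τ * F.T.σ ^ j := by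
    intro h
    have h3 : F.T.τ = 1 := mul_eq_right.1 h.symm
    exact F.T.τ_ne 0 (by rw [h3, pow_zero])
  rcases hg with hg | hg
  · have e3 := (key (F.T.σ ^ j)).1 hg.symm
    have e4 := (key (F.T.τ * F.T.σ ^ j)).2 (by rw [hg]; exact h2.symm)
    rw [AlgEquiv.mul_apply] at e4
    rw [e3, e4, mul_one]
  · have hg' : g = F.T.τ * F.T.σ ^ j := by rw [hg, F.T.comm_all (F.T.σ ^ j) F.T.τ]
    have e3 := (key (F.T.σ ^ j)).2 (by rw [hg']; exact h2)
    have e4 := (key (F.T.τ * F.T.σ ^ j)).1 hg'.symm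
    rw [AlgEquiv.mul_apply] at e4
    rw [e3, e4, one_mul]

/-- at the primes which are not conjugate to `Q` -/
theorem prod_one (hw' : ∀ Q' : HeightOneSpectrum (𝓞 L), Q' ≠ Q → Q'.valuation L w = 1)
    {w' : HeightOneSpectrum (𝓞 L)} (h : ∀ g : L ≃ₐ[K] L, w' ≠ cj g Q) :
    w'.valuation L (∏ i ∈ Finset.range q, ((F.T.σ ^ i) w * F.T.τ ((F.T.σ ^ i) w))) = 1 := by
  have key : ∀ h' : L ≃ₐ[K] L, w'.valuation L (h' w) = 1 := by
    intro h'
    rw [val_app]
    refine hw' _ fun h1 => h h' ?_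
    rw [← h1, cj_cj_inv]
  rw [map_prod]
  refine Finset.prod_eq_one fun i _ => ?_
  have h1 := key (F.T.τ * F.T.σ ^ i)
  rw [AlgEquiv.mul_apply] at h1
  rw [map_mul, key, h1, one_mul]

end nrm

namespace CDat

variable {F : Fr D K L} (c : CDat F)

/-! ### the `p`-adic conditions -/

theorem val_p : (c.v 2).valuation K (c.l 2 : K) = exp (-1 : ℤ) := by
  have hB : ¬ (c.v 2).valuation K (c.l 2 : K) ≤ exp (-(2 : ℤ)) := by
    intro h
    have h1 : (c.v 2).valuation K (c.l 2 : K) = (c.v 2).intValuation ((c.l 2 : ℕ) : 𝓞 K) := by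
      rw [← HeightOneSpectrum.valuation_of_algebraMap (K := K)]
      exact congrArg _ (map_natCast (algebraMap (𝓞 K) K) _).symm
    rw [h1] at h
    have h2 := ((c.v 2).intValuation_le_pow_iff_mem ((c.l 2 : ℕ) : 𝓞 K) 2).1 h
    have h3 : (c.v 2).asIdeal ≤ (c.w 2).asIdeal.comap (algebraMap (𝓞 K) (𝓞 L)) :=
      (mem_abv.1 (c.hw 2)).ge
    have h4 : ((c.l 2 : ℕ) : 𝓞 L) ∈ (c.w 2).asIdeal ^ 2 := by
      have h5 := Ideal.mem_map_of_mem (algebraMap (𝓞 K) (𝓞 L)) h2
      rw [Ideal.map_pow, map_natCast] at h5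
      exact Ideal.pow_right_mono (Ideal.map_le_iff_le_comap.2 h3) 2 h5
    have h5 := ((c.w 2).intValuation_le_pow_iff_mem ((c.l 2 : ℕ) : 𝓞 L) 2).2 h4
    have h6 := c.unr 2 (c.w 2) (c.hw 2)
    have h7 : (c.w 2).valuation L (c.l 2 : L) = (c.w 2).intValuation ((c.l 2 : ℕ) : 𝓞 L) := by
      rw [← HeightOneSpectrum.valuation_of_algebraMap (K := L)]
      exact congrArg _ (map_natCast (algebraMap (𝓞 L) L) _).symm
    rw [h7] at h6
    rw [h6, exp_le_exp] at h5
    norm_num at h5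
  have hlt : (c.v 2).valuation K (c.l 2 : K) < 1 := by
    have h1 := ((c.v 2).valuation_lt_one_iff_mem (K := K) ((c.l 2 : ℕ) : 𝓞 K)).2
      ((nat_mem_iff _ (c.lp 2) (c.nmv 2) _).2 dvd_rfl)
    have h3 : (((c.l 2 : ℕ) : 𝓞 K) : K) = (c.l 2 : K) := map_natCast (algebraMap (𝓞 K) K) _
    rw [← h3]
    exact h1
  have h0 : (c.v 2).valuation K (c.l 2 : K) ≠ 0 := by
    rw [Ne, map_eq_zero]
    exact_mod_cast (c.lp 2).ne_zero
  rw [← exp_log h0, ← exp_zero, exp_lt_exp] at hlt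
  rw [← exp_log h0, exp_le_exp] at hB
  rw [← exp_log h0]
  congr 1
  omega

/-- coordinates and valuations over `v 2` -/
theorem co_le_exp (hB : S_BR0) (n : ℤ) {y : L} (hy : ∀ w ∈ abv L (c.v 2), w.valuation L y ≤ exp n)
    (j : Bool × ZMod q) : (c.v 2).valuation K (co D (F.e.symm y) j) ≤ exp n := by
  have hl : (c.l 2 : K) ≠ 0 := by exact_mod_cast (c.lp 2).ne_zero
  have h1 := hB q f D K L F (c.v 2) (c.f_notMem 2) (((c.l 2 : K) ^ n) • y) (fun w hw => by
    rw [Algebra.smul_def, map_mul, map_zpow₀, map_natCast, map_zpow₀, c.unr 2 w hw, ← exp_zsmul,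
      smul_eq_mul]
    calc exp (n * -1) * w.valuation L y ≤ exp (n * -1) * exp n := mul_le_mul' le_rfl (hy w hw)
      _ = 1 := by
        rw [← exp_add, ← exp_zero]
        congr 1
        ring) j
  have h2 : co D (F.e.symm (((c.l 2 : K) ^ n) • y)) j = (c.l 2 : K) ^ n * co D (F.e.symm y) j := by
    rw [map_smul, ← bL_repr, map_smul]
    rfl
  rw [h2, map_mul, map_zpow₀, c.val_p, ← exp_zsmul, smul_eq_mul] at h1
  calc (c.v 2).valuation K (co D (F.e.symm y) j) =
      exp n * (exp (n * -1) * (c.v 2).valuation K (co D (F.e.symm y) j)) := by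
        rw [← mul_assoc, ← exp_add]
        have : n + n * -1 = 0 := by ring
        rw [this, exp_zero, one_mul]
    _ ≤ exp n * 1 := mul_le_mul' le_rfl h1
    _ = exp n := mul_one _

/-- the condition `Sm` -/
theorem sm_of (hB : S_BR0) (c0 : ℕ) {s X : L} {M : ℕ}
    (hs : ∀ w ∈ abv L (c.v 2), w.valuation L s ≤ exp (M : ℤ))
    (hX : ∀ w ∈ abv L (c.v 2), w.valuation L X ≤ exp (-((2 * M + c0 : ℕ) : ℤ))) :
    (c.sp c0).Sm (F.e.symm s) (F.e.symm X) := by
  have h1 := c.co_le_exp hB _ hs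
  have h2 := c.co_le_exp hB _ hX
  intro j j'
  change (c.v 2).valuation K (co D (F.e.symm s) j ^ 2 * co D (F.e.symm X) j' / (c.l 2 : K) ^ c0) ≤ 1
  have h3 : (c.v 2).valuation K (co D (F.e.symm s) j) ^ 2 ≤ exp (2 * M : ℤ) := by
    have h4 := pow_le_pow_left₀ zero_le (h1 j) 2
    rwa [← exp_nsmul, nsmul_eq_mul] at h4
  rw [map_div₀, map_mul, map_pow, map_pow, c.val_p, ← exp_nsmul, nsmul_eq_mul]
  have h5 : (c.v 2).valuation K (co D (F.e.symm s) j) ^ 2 *
      (c.v 2).valuation K (co D (F.e.symm X) j') ≤ exp ((c0 : ℤ) * (-1)) := by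
    refine (mul_le_mul' h3 (h2 j')).trans ?_
    rw [← exp_add, exp_le_exp]
    push_cast
    omega
  exact div_le_one_of_le₀ h5 zero_le

theorem p2 : c.l 2 ≠ 2 := by
  intro h
  have := c.l4 2
  rw [h] at this
  omega

theorem fil2 : Fil (Λ := Lam q) (c.l 2) (F.T.Fv (c.v 2)) :=
  F.T.fil (c.lp 2) c.p2 (c.unr 2)

/-- units over `v 2` -/
theorem unit2 {i : Fin 3} (hi : i ≠ 2) {z : Additive F.T.T} (hz : z ∈ c.Gd i) :
    ∀ w ∈ abv L (c.v 2), w.valuation L (F.T.el z) = 1 := by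
  intro w hw
  refine ((c.mem_Gd).1 hz).1 w fun h => hi ?_
  exact c.v_inj ((show w.under (𝓞 K) = c.v i from h).symm.trans hw)

/-- `m z` is in the first step of the filtration -/
theorem m_mem {i : Fin 3} (hi : i ≠ 2) {z : Additive F.T.T} (hz : z ∈ c.Gd i) :
    c.m • z ∈ F.T.Fv (c.v 2) 1 := by
  have := isGal F
  have h1 := F.T.mem_Fv_one (c.spl 2) (c.unit2 hi hz) (c.hcl * c.mu)
  rwa [c.nmv 2] at h1

/-- multiples by numbers divisible by `p ^ J` -/
theorem pJ_mem {i : Fin 3} (hi : i ≠ 2) {z : Additive F.T.T} (hz : z ∈ c.Gd i) {J : ℕ} {k : Lam q}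
    (hk : ((c.l 2 : ℕ) : Lam q) ^ J ∣ k) : k • (c.m • z) ∈ F.T.Fv (c.v 2) J := by
  obtain ⟨k', rfl⟩ := hk
  rw [mul_smul]
  have h1 := c.fil2.up_pow le_rfl ((F.T.Fv (c.v 2) 1).smul_mem k' (c.m_mem hi hz)) J
  exact c.fil2.le (by omega) h1

/-- differences of points -/
theorem val_el_sub {z z' : Additive F.T.T} {w : HeightOneSpectrum (𝓞 L)}
    (h : w.valuation L (F.T.el z') = 1) :
    w.valuation L (F.T.el z - F.T.el z') = w.valuation L (F.T.el (z - z') - 1) := by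
  have h1 : F.T.el z - F.T.el z' = F.T.el z' * (F.T.el (z - z') - 1) := by
    rw [Tor.el_sub]
    have := F.T.el_ne z'
    field_simp
  rw [h1, map_mul, h, one_mul]

end CDat

/-- the element `γ = (B ^ t - 1) / (B - 1) - t` is divisible by `B - 1` -/
theorem val_gamma (w : HeightOneSpectrum (𝓞 L)) {B : L} (hB : w.valuation L B = 1) (h1 : B ≠ 1)
    (t : ℤ) : w.valuation L ((B ^ t - 1) / (B - 1) - t) ≤ w.valuation L (B - 1) := by
  have hB1 : B - 1 ≠ 0 := sub_ne_zero.2 h1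
  have hB0 : B ≠ 0 := by
    rintro rfl
    rw [map_zero] at hB
    exact zero_ne_one hB
  have key : ∀ n : ℕ, w.valuation L ((B ^ n - 1) / (B - 1) - n) ≤ w.valuation L (B - 1) := by
    intro n
    have h2 : (B ^ n - 1) / (B - 1) - n = ∑ i ∈ Finset.range n, (B ^ i - 1) := by
      rw [Finset.sum_sub_distrib, ← geom_sum_eq h1]
      simp
    rw [h2]
    refine val_sum_le w _ _ fun i _ => ?_
    rw [← mul_geom_sum, map_mul]
    refine mul_le_of_le_one_right zero_le (val_sum_le w _ _ fun j _ => ?_)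
    rw [map_pow, hB, one_pow]
  rcases t with n | n
  · have h2 := key n
    simpa using h2
  · -- `t = - (n + 1)`
    have h2 := key (n + 1)
    have h3 : (B ^ (Int.negSucc n) - 1) / (B - 1) - ((Int.negSucc n : ℤ) : L) =
        -(B ^ (n + 1))⁻¹ * ((B ^ (n + 1) - 1) / (B - 1) - ((n + 1 : ℕ) : L)) +
          ((n + 1 : ℕ) : L) * (B ^ (n + 1))⁻¹ * (B ^ (n + 1) - 1) := by
      rw [zpow_negSucc, Int.cast_negSucc]
      have := pow_ne_zero (n + 1) hB0
      field_simp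
      ring
    rw [h3]
    refine (Valuation.map_add _ _ _).trans (max_le ?_ ?_)
    · rw [map_mul, Valuation.map_neg, map_inv₀, map_pow, hB, one_pow, inv_one, one_mul]
      exact h2
    · rw [map_mul, map_mul, map_inv₀, map_pow, hB, one_pow, inv_one, mul_one]
      refine (mul_le_of_le_one_left zero_le (val_nat_le w _)).trans ?_
      rw [← mul_geom_sum, map_mul]
      refine mul_le_of_le_one_right zero_le (val_sum_le w _ _ fun j _ => ?_)
      rw [map_pow, hB, one_pow]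

end Pool.Agent.C50
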