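import Pool.Agent.Lib.MP_673eb1_lc.C50.CmpE

/-!
MP_673eb1_lc, project C50: **completeness** `S_Comp` from `S_Ord`, `S_Ex`, `S_BR0`.
-/

set_option autoImplicit false

open NumberField IsDedekindDomain WithZero

namespace Pool.Agent.C50

open Pool.Agent.Lib.MP_673eb1_lc Pool.Agent.ZD Pool.Agent.ZT

variable {q f : ℕ} [Fact q.Prime] {D : PerData q f} {K L : Type} [Field K] [NumberField K] [Field L]
  [NumberField L] [Algebra K L]

/-- a bound for the poles -/
theorem exists_bound (v : HeightOneSpectrum (𝓞 K)) (x : L) :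
    ∃ M : ℕ, ∀ w ∈ abv L v, w.valuation L x ≤ exp (M : ℤ) := by
  have hfin := finite_abv (L := L) v
  by_cases hx : x = 0
  · refine ⟨0, fun w _ => ?_⟩
    rw [hx, map_zero]
    exact zero_le
  obtain ⟨N, hN⟩ := (hfin.image fun w => (log (w.valuation L x)).toNat).bddAbove
  refine ⟨N, fun w hw => ?_⟩
  have h1 := hN ⟨w, hw, rfl⟩
  have h0 : w.valuation L x ≠ 0 := (_root_.map_ne_zero _).2 hx
  rw [← exp_log h0, exp_le_exp]
  exact (Int.self_le_toNat _).trans (by exact_mod_cast h1)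

theorem val_prod_le {ι : Type} (w : HeightOneSpectrum (𝓞 L)) (s : Finset ι) (α : ι → 𝓞 L) {i : ι}
    (hi : i ∈ s) : w.valuation L ((∏ j ∈ s, α j : 𝓞 L) : L) ≤ w.valuation L (α i : L) := by
  classical
  rw [← Finset.mul_prod_erase s α hi]
  push_cast
  rw [map_mul]
  refine mul_le_of_le_one_right zero_le ?_
  rw [map_prod]
  exact Finset.prod_le_one' fun j _ => val_int_le w (α j)

/-- **Completeness** -/
theorem comp_of (hO : S_Ord) (hE : S_Ex) (hB : S_BR0) : S_Comp := by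
  intro q f _ D K L _ _ _ _ _ F c c0 t
  classical
  have hx0 : c.ps 0 ∈ c.Gd 0 := c.ps_mem hO 0
  have hy0 : c.ps 1 ∈ c.Gd 1 := c.ps_mem hO 1
  have hpow : ∀ (z : Additive F.T.T) (n : ℕ),
      (F.e.symm (F.T.el z)) ^ n = F.e.symm (F.T.el (n • z)) := fun z n => by
    rw [Tor.el_nsmul, map_pow]
  have hcomm : ∀ (m : ℕ) (n : ℤ) (z : Additive F.T.T), m • (n • z) = n • (m • z) := fun m n z => by
    rw [← natCast_zsmul, ← natCast_zsmul, smul_comm]
  have h02 : (0 : Fin 3) ≠ 2 := by decide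
  have h12 : (1 : Fin 3) ≠ 2 := by decide
  -- the elements `α`
  have hα : ∀ x : K, ∃ α : 𝓞 L, α ≠ 0 ∧ (∀ w ∈ abv L (c.v 2), w.valuation L (α : L) = 1) ∧
      ∀ w ∉ abv L (c.v 2), w.valuation L (α : L) ≤
        w.valuation L ((c.C : L) * F.e (hD D c.g x)) := fun x =>
    exists_alpha (c.lp 2) (c.nmv 2) (c.unr 2)
      (mul_ne_zero (by exact_mod_cast c.C0) (e_hD_ne F c.g0 x))
  choose α hα0 hα2 hαw using hα
  obtain ⟨κ, hκ⟩ : ∃ κ : Additive F.T.T, κ = t • c.ps 0 := ⟨_, rfl⟩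
  have hκG : κ ∈ c.Gd 0 := by
    rw [hκ, ← Int.cast_smul_eq_zsmul (Lam q)]
    exact (c.Gd 0).smul_mem _ hx0
  obtain ⟨X, hX⟩ : ∃ X : Option (Bool × ZMod q) → K, X = fun j =>
      j.elim (t : K) fun j => co D ((F.e.symm (F.T.el κ)) ^ c.m) j := ⟨_, rfl⟩
  obtain ⟨A, hA⟩ : ∃ A : 𝓞 L, A = ∏ j, α (X j) := ⟨_, rfl⟩
  obtain ⟨s, hsG, hs1, hsA⟩ := c.exists_S hO (α := A)
    (by rw [hA]; exact Finset.prod_ne_zero_iff.2 fun j _ => hα0 _)
    (fun w hw => by
      rw [hA]
      push_cast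
      rw [map_prod]
      exact Finset.prod_eq_one fun j _ => hα2 _ w hw)
  have hdiv : ∀ j, ∃ z, InR D (Wring K (Set.range c.v) : Set K) z ∧
      F.e.symm (F.T.el s) - 1 = hD D c.g (X j) * z := by
    intro j
    have hne := e_hD_ne F c.g0 (X j)
    refine ⟨F.e.symm ((F.T.el s - 1) / F.e (hD D c.g (X j))), c.hC _ _ fun w hw => ?_, ?_⟩
    · have h1 : w ∉ abv L (c.v 2) := fun h => hw ⟨2, (show w.under (𝓞 K) = c.v 2 from h).symm⟩
      have h2 : w.valuation L (F.T.el s - 1) ≤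
          w.valuation L (c.C : L) * w.valuation L (F.e (hD D c.g (X j))) := by
        rw [← map_mul]
        refine (hsA w h1).trans (le_trans ?_ (hαw (X j) w h1))
        rw [hA]
        exact val_prod_le w _ (fun j => α (X j)) (Finset.mem_univ j)
      rw [map_div₀]
      exact div_le_of_le_mul₀ zero_le zero_le h2
    · apply F.e.injective
      rw [map_sub, map_one, map_mul, AlgEquiv.apply_symm_apply, AlgEquiv.apply_symm_apply,
        mul_div_cancel₀ _ hne]
  -- the pole order of `S`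
  obtain ⟨M, hM⟩ := exists_bound (L := L) (c.v 2) (F.T.el s)
  obtain ⟨J, hJ⟩ : ∃ J, J = 2 * M + c0 + 1 := ⟨_, rfl⟩
  obtain ⟨Q, w, r, e₀, γ, f₀, hr, hQw, hQw', ⟨y, hy⟩, hfree, he1, he, hf₀, hab, hb0, hγ, hsum⟩ :=
    hE q f D K L F c J (c.l 0 * c.l 1 * c.l 2 * c.C) (by omega) (by
      refine mul_ne_zero (mul_ne_zero (mul_ne_zero ?_ ?_) ?_) c.C0
      · exact (c.lp 0).ne_zero
      · exact (c.lp 1).ne_zero
      · exact (c.lp 2).ne_zero)
  obtain ⟨a, ha⟩ : ∃ a : Additive F.T.T, a = e₀ • c.ps 0 := ⟨_, rfl⟩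
  obtain ⟨b, hb⟩ : ∃ b : Additive F.T.T, b = e₀ • (f₀ • c.ps 1) := ⟨_, rfl⟩
  have haG : a ∈ c.Gd 0 := by
    rw [ha, ← Nat.cast_smul_eq_nsmul (Lam q)]
    exact (c.Gd 0).smul_mem _ hx0
  have hbG : b ∈ c.Gd 1 := by
    rw [hb, ← Nat.cast_smul_eq_nsmul (Lam q)]
    exact (c.Gd 1).smul_mem _ ((c.Gd 1).smul_mem _ hy0)
  have hzG : ∀ {i : Fin 3} {z : Additive F.T.T} (n : ℤ), z ∈ c.Gd i → n • z ∈ c.Gd i := by
    intro i z n hz
    rw [← Int.cast_smul_eq_zsmul (Lam q)]
    exact (c.Gd i).smul_mem _ hz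
  have hnG : ∀ {i : Fin 3} {z : Additive F.T.T} (n : ℕ), z ∈ c.Gd i → n • z ∈ c.Gd i := by
    intro i z n hz
    rw [← Nat.cast_smul_eq_nsmul (Lam q)]
    exact (c.Gd i).smul_mem _ hz
  have hma : c.m • a = e₀ • (c.m • c.ps 0) := by rw [ha, smul_comm]
  have hmb : c.m • b = e₀ • (f₀ • (c.m • c.ps 1)) := by
    rw [hb, smul_comm, smul_comm c.m f₀]
  -- `C` is a unit at the conjugates of `Q`
  have hQC : Q.valuation L (c.C : L) = 1 := by
    have h1 : Q.valuation L ((c.l 0 * c.l 1 * c.l 2 * c.C : ℕ) : L) = 1 := by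
      by_contra h
      have h2 : Q.valuation L ((c.l 0 * c.l 1 * c.l 2 * c.C : ℕ) : L) < 1 :=
        lt_of_le_of_ne (val_nat_le Q _) h
      have h3 : Q.valuation L (w : L) = 1 := by
        rw [hy]
        push_cast
        refine Valuation.map_one_add_of_lt _ ?_
        rw [map_mul]
        refine (mul_le_of_le_one_right zero_le (val_int_le Q y)).trans_lt ?_
        exact_mod_cast h2
      rw [hQw, ← exp_zero, exp_inj] at h3
      omega
    rw [Nat.cast_mul, map_mul] at h1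
    refine le_antisymm (val_nat_le Q _) ?_
    rw [← h1]
    exact mul_le_of_le_one_left zero_le (val_nat_le Q _)
  have hcjC : ∀ g : L ≃ₐ[K] L, (cj g Q).valuation L (c.C : L) = 1 := by
    intro g
    have h1 := cj_val g Q (c.C : L)
    rw [map_natCast] at h1
    rw [h1, hQC]
  have hw0 : (w : L) ≠ 0 := by
    intro h
    rw [h, map_zero] at hQw
    exact exp_ne_zero hQw.symm
  -- the outer primes
  have hout : ∀ {w' : HeightOneSpectrum (𝓞 L)} (i : Fin 3), w'.under (𝓞 K) ∉ Set.range c.v →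
      w' ∉ abv L (c.v i) := fun i hw h =>
    hw ⟨i, (show _ = c.v i from h).symm⟩
  -- `(4)`, for all multiples
  have h4 : ∀ n : ℤ, ∃ z, InR D (Wring K (Set.range c.v) : Set K) z ∧
      (F.e.symm (F.T.el (n • a))) ^ c.m - (F.e.symm (F.T.el (n • b))) ^ c.m =
        nL D (F.e.symm (w : L)) * z := by
    intro n
    have hN0 : F.e (nL D (F.e.symm (w : L))) ≠ 0 := by
      rw [e_nL, Finset.prod_ne_zero_iff]
      intro i _
      exact mul_ne_zero ((_root_.map_ne_zero _).2 hw0)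
        ((_root_.map_ne_zero _).2 ((_root_.map_ne_zero _).2 hw0))
    have hmG : c.m • (n • a) ∈ c.Gd 0 := hnG _ (hzG n haG)
    have hmG' : c.m • (n • b) ∈ c.Gd 1 := hnG _ (hzG n hbG)
    refine ⟨F.e.symm ((F.T.el (c.m • (n • a)) - F.T.el (c.m • (n • b))) /
      F.e (nL D (F.e.symm (w : L)))), c.hC _ _ fun w' hw' => ?_, ?_⟩
    · rw [map_div₀]
      by_cases hcj : ∃ g : L ≃ₐ[K] L, w' = cj g Q
      · obtain ⟨g, rfl⟩ := hcj
        rw [hcjC g]
        refine div_le_one_of_le₀ ?_ zero_le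
        rw [e_nL]
        refine le_trans ?_ (prod_ge F hQw hQw' hfree g)
        have h1 : (cj g Q).valuation L (F.T.el (c.m • (n • b))) = 1 :=
          ((c.mem_Gd).1 hmG').1 _ (hout 1 hw')
        rw [CDat.val_el_sub h1]
        have h2 : c.m • (n • a) - c.m • (n • b) =
            n • (e₀ • (c.m • c.ps 0) - e₀ • (f₀ • (c.m • c.ps 1))) := by
          rw [← hma, ← hmb, zsmul_sub, hcomm, hcomm]
        rw [h2]
        have h3 : (e₀ • (c.m • c.ps 0) - e₀ • (f₀ • (c.m • c.ps 1))) ∈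
            F.T.Lv {w | ∃ g : L ≃ₐ[K] L, w = cj g Q} (by
              rintro g _ ⟨h, rfl⟩
              exact ⟨g * h, (cj_mul g h Q).symm⟩) r := by
          rintro _ ⟨g, rfl⟩
          exact hab g
        have h5 := (F.T.Lv _ _ r).smul_mem (n : Lam q) h3
        rw [Int.cast_smul_eq_zsmul] at h5
        exact h5 _ ⟨g, rfl⟩
      · have hcj' : ∀ g : L ≃ₐ[K] L, w' ≠ cj g Q := fun g h => hcj ⟨g, h⟩
        rw [e_nL, prod_one F hQw' hcj', div_one]
        have h1 : F.T.el (c.m • (n • a)) - F.T.el (c.m • (n • b)) =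
            (F.T.el (c.m • (n • a)) - 1) - (F.T.el (c.m • (n • b)) - 1) := by ring
        rw [h1]
        exact (Valuation.map_sub _ _ _).trans
          (max_le (c.Gd_C hmG (hout 0 hw')) (c.Gd_C hmG' (hout 1 hw')))
    · rw [hpow, hpow]
      apply F.e.injective
      rw [map_sub, map_mul, AlgEquiv.apply_symm_apply, AlgEquiv.apply_symm_apply,
        AlgEquiv.apply_symm_apply, mul_div_cancel₀ _ hN0]
  -- levels
  have hlev : ∀ (z : Additive F.T.T), z ∈ F.T.Fv (c.v 2) J → ∀ w ∈ abv L (c.v 2),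
      w.valuation L (F.T.el z - 1) ≤ exp (-((2 * M + c0 : ℕ) : ℤ)) := by
    intro z hz w hw
    refine (hz w hw).trans ?_
    rw [exp_le_exp]
    push_cast
    omega
  have hsm : ∀ X' : L, (∀ w ∈ abv L (c.v 2), w.valuation L X' ≤ exp (-((2 * M + c0 : ℕ) : ℤ))) →
      (c.sp c0).Sm (F.e.symm (F.T.el s)) (F.e.symm X') := fun X' h => c.sm_of hB c0 hM h
  obtain ⟨e', he'⟩ : ∃ e' : ℕ, e₀ = 1 + (c.l 2) ^ J * e' := by
    have h1 : (c.l 2) ^ J ∣ e₀ - 1 := (Nat.modEq_iff_dvd' he1).1 (Eq.symm he)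
    obtain ⟨e', h2⟩ := h1
    exact ⟨e', by omega⟩
  have hlev_a : ∀ n : ℤ, c.m • (n • a) - c.m • (n • c.ps 0) ∈ F.T.Fv (c.v 2) J := by
    intro n
    have h1 : c.m • (n • a) - c.m • (n • c.ps 0) =
        (((c.l 2 : ℕ) : Lam q) ^ J * ((e' : Lam q) * (n : Lam q))) • (c.m • c.ps 0) := by
      have h2 : c.m • (n • a) = n • (e₀ • (c.m • c.ps 0)) := by
        rw [← hma, hcomm]
      have h3 : c.m • (n • c.ps 0) = n • (c.m • c.ps 0) := hcomm _ _ _
      rw [h2, h3, ← zsmul_sub, he', add_smul, one_smul, add_sub_cancel_left]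
      simp only [mul_smul, Int.cast_smul_eq_zsmul, Nat.cast_smul_eq_nsmul, ← Nat.cast_pow]
      rw [hcomm, hcomm]
    rw [h1]
    exact c.pJ_mem h02 hx0 (dvd_mul_right _ _)
  have hlev_b : c.m • b ∈ F.T.Fv (c.v 2) J := by
    rw [hmb, ← Nat.cast_smul_eq_nsmul (Lam q)]
    exact (F.T.Fv (c.v 2) J).smul_mem _ (c.pJ_mem h12 hy0 hf₀)
  have hlev_G : c.m • (γ • c.ps 0) ∈ F.T.Fv (c.v 2) J := by
    rw [smul_comm, ← Nat.cast_smul_eq_nsmul (Lam q)]
    refine c.pJ_mem h02 hx0 ?_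
    rw [← Nat.cast_pow]
    exact Nat.cast_dvd_cast hγ
  have hB1 : F.T.el (c.m • b) ≠ 1 := by
    intro h
    apply hb0
    rw [← hmb]
    exact F.T.el_inj (by rw [h, Tor.el_zero])
  -- the difference of powers, in terms of levels
  have hdif : ∀ {z z' : Additive F.T.T}, z' ∈ c.Gd 0 → c.m • z - c.m • z' ∈ F.T.Fv (c.v 2) J →
      (c.sp c0).Sm (F.e.symm (F.T.el s))
        ((F.e.symm (F.T.el z)) ^ c.m - (F.e.symm (F.T.el z')) ^ c.m) := by
    intro z z' hz' h
    rw [hpow, hpow, ← map_sub]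
    refine hsm _ fun w hw => ?_
    rw [CDat.val_el_sub (c.unit2 h02 (hnG _ hz') w hw)]
    exact hlev _ h w hw
  have hone : ∀ {z : Additive F.T.T}, c.m • z ∈ F.T.Fv (c.v 2) J →
      (c.sp c0).Sm (F.e.symm (F.T.el s)) ((F.e.symm (F.T.el z)) ^ c.m - 1) := by
    intro z h
    rw [hpow, ← map_one F.e.symm, ← map_sub]
    exact hsm _ (hlev _ h)
  refine ⟨F.e.symm (F.T.el s), F.e.symm (F.T.el κ), F.e.symm (F.T.el a), F.e.symm (F.T.el (t • a)),
    F.e.symm (F.T.el (γ • c.ps 0)), F.e.symm (F.T.el b), F.e.symm (F.T.el (t • b)),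
    F.e.symm (w : L), c.four hB c0 (by decide) (by decide) hsG,
    c.four hB c0 (by decide) (by decide) hκG, c.four hB c0 (by decide) (by decide) haG,
    c.four hB c0 (by decide) (by decide) (hzG t haG),
    c.four hB c0 (by decide) (by decide) (hnG γ hx0),
    c.four hB c0 (by decide) (by decide) hbG, c.four hB c0 (by decide) (by decide) (hzG t hbG),
    ⟨?_, ?_⟩, ?_, ?_, ?_, ?_, ?_, ?_, ?_, h4 t, ?_, ?_, ?_, ?_, ?_, ?_⟩
  · -- `t ∈ R`
    exact intCast_mem _ t
  · -- `t ∈ V 2`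
    change (c.v 2).valuation K (t : K) ≤ 1
    have h1 := (c.v 2).valuation_le_one (K := K) ((t : ℤ) : 𝓞 K)
    have h2 : (((t : ℤ) : 𝓞 K) : K) = (t : K) := map_intCast (algebraMap (𝓞 K) K) t
    rw [← h2]
    exact h1
  · -- `S ≠ 1`
    intro h
    apply hs1
    have h1 := congrArg F.e h
    rwa [AlgEquiv.apply_symm_apply, map_one] at h1
  · -- the height form of `t`
    have h1 := hdiv none
    rw [hX] at h1
    exact h1
  · -- the height form of the coordinates
    intro j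
    have h1 := hdiv (some j)
    rw [hX] at h1
    exact h1
  · -- `w = 1 + l w'`
    have h1 := c.hC ∅ ((c.C : L) * y) fun w' _ => by
      rw [map_mul]
      exact mul_le_of_le_one_right zero_le (val_int_le w' y)
    refine ⟨F.e.symm ((c.C : L) * y), fun j v hv => h1 j v (Set.notMem_empty v), fun i j =>
      h1 j (c.v i) (Set.notMem_empty _), ?_⟩
    apply F.e.injective
    rw [AlgEquiv.apply_symm_apply, map_add, map_one, map_mul, map_natCast,
      AlgEquiv.apply_symm_apply, hy]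
    change _ = 1 + ((c.l 0 * c.l 1 * c.l 2 : ℕ) : L) * ((c.C : L) * y)
    push_cast
    ring
  · -- the powers
    intro h
    have h1 := congrArg F.e h
    rw [map_pow, map_pow, map_mul, map_mul, F.et, F.es, F.et, AlgEquiv.apply_symm_apply] at h1
    have h2 := congrArg (Q.valuation L) h1
    have hcj1 : cj (1 : L ≃ₐ[K] L) Q = Q := cj_one Q
    have key := val_cj_app hQw hQw' hfree (1 : L ≃ₐ[K] L)
    rw [hcj1] at key
    have hσ := F.T.σ_ne_one
    have hτ : F.T.τ ≠ 1 := by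
      have := F.T.τ_ne 0
      rwa [pow_zero] at this
    have hτσ : F.T.τ * F.T.σ ≠ 1 := by
      intro h
      have h2 : F.T.τ = F.T.σ ^ (q - 1) := by
        have h3 : F.T.σ * F.T.σ ^ (q - 1) = 1 := by
          rw [← pow_succ', Nat.sub_add_cancel F.T.pq.one_lt.le, F.T.σq]
        calc F.T.τ = F.T.τ * (F.T.σ * F.T.σ ^ (q - 1)) := by rw [h3, mul_one]
          _ = F.T.σ ^ (q - 1) := by rw [← mul_assoc, h, one_mul]
      exact F.T.τ_ne _ h2
    have e1 := (key _).2 hσ
    have e2 := (key _).2 hτ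
    have e3 := (key _).2 hτσ
    rw [AlgEquiv.mul_apply] at e3
    rw [map_pow, map_pow, map_mul, map_mul, e1, e2, e3, hQw, mul_one, mul_one, one_pow,
      ← exp_nsmul, ← exp_zero, exp_inj, nsmul_eq_mul] at h2
    have hmu : 0 < c.mu := c.mu0
    have hmu' : (c.sp c0).mu = c.mu := rfl
    rw [hmu'] at h2
    have h5 : (0 : ℤ) < c.mu := by exact_mod_cast hmu
    have h6 : (0 : ℤ) < r := by exact_mod_cast hr
    nlinarith
  · -- `(3)`
    obtain ⟨Y, hY⟩ : ∃ Y : Additive F.T.T, Y = c.m • (γ • c.ps 0) := ⟨_, rfl⟩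
    have hYG : Y ∈ c.Gd 0 := by
      rw [hY]
      exact hnG _ (hnG _ hx0)
    obtain ⟨sg, hsg⟩ : ∃ sg : L, sg = ∑ i ∈ Finset.range (c.l 2), F.T.el Y ^ i := ⟨_, rfl⟩
    have hQs : Q.valuation L sg ≤ exp (-(r : ℤ)) := by
      rw [hsg, hY, smul_comm c.m γ]
      exact hsum
    have hval : ∀ w' : HeightOneSpectrum (𝓞 L), w'.under (𝓞 K) ∉ Set.range c.v →
        w'.valuation L (sg / w - (c.l 2 : L)) ≤ w'.valuation L (c.C : L) := by
      intro w' hw'
      by_cases hwQ : w' = Q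
      · rw [hwQ, hQC]
        refine (Valuation.map_sub _ _ _).trans (max_le ?_ (val_nat_le Q _))
        rw [map_div₀, hQw]
        exact div_le_one_of_le₀ hQs zero_le
      · have h1 : sg / w - (c.l 2 : L) = ((sg - (c.l 2 : L)) - (c.l 2 : L) * ((w : L) - 1)) / w := by
          field_simp
          ring
        rw [h1, map_div₀, hQw' w' hwQ, div_one]
        refine (Valuation.map_sub _ _ _).trans (max_le ?_ ?_)
        · have h2 : sg - (c.l 2 : L) = ∑ i ∈ Finset.range (c.l 2), (F.T.el Y ^ i - 1) := by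
            rw [Finset.sum_sub_distrib, hsg]
            simp
          rw [h2]
          refine val_sum_le w' _ _ fun i _ => ?_
          rw [← Tor.el_nsmul]
          exact c.Gd_C (hnG i hYG) (hout 0 hw')
        · rw [map_mul]
          refine (mul_le_of_le_one_left zero_le (val_nat_le w' _)).trans ?_
          have h2 : (w : L) - 1 = (c.C : L) * (((c.l 0 * c.l 1 * c.l 2 : ℕ) : L) * y) := by
            rw [hy]
            push_cast
            ring
          rw [h2, map_mul]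
          refine mul_le_of_le_one_right zero_le ?_
          rw [map_mul]
          exact mul_le_one' (val_nat_le w' _) (val_int_le w' y)
    refine ⟨F.e.symm (sg / w), ?_, ?_⟩
    · have h1 := c.hC _ _ hval
      have h2 : F.e.symm (sg / w) = F.e.symm (sg / w - (c.l 2 : L)) +
          algebraMap K (LL D K) (c.l 2 : K) := by
        rw [map_sub, map_natCast, map_natCast, sub_add_cancel]
      rw [h2]
      exact h1.add (InR.map (natCast_mem _ _))
    · apply F.e.injective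
      rw [map_sum, map_mul, AlgEquiv.apply_symm_apply, AlgEquiv.apply_symm_apply,
        mul_div_cancel₀ _ hw0, hsg]
      refine Finset.sum_congr rfl fun i _ => ?_
      rw [map_pow]
      congr 1
      change F.e ((F.e.symm (F.T.el (γ • c.ps 0))) ^ c.m) = _
      rw [hpow, AlgEquiv.apply_symm_apply, hY]
  · -- `(4)` for `a`, `b`
    have h1 := h4 1
    rw [one_smul, one_smul] at h1
    exact h1
  · -- `(5)` `a`
    have h1 := hlev_a 1
    rw [one_smul, one_smul] at h1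
    have h2 := hdif hx0 h1
    have h3 : (c.sp c0).P = F.e.symm (F.T.el (c.ps 0)) := by
      rw [CDat.el_ps]
      rfl
    rw [h3]
    exact h2
  · -- `(5)` `c`
    have h1 := hlev_a t
    rw [← hκ] at h1
    exact hdif hκG h1
  · exact hone hlev_b
  · exact hone hlev_G
  · intro h
    apply hB1
    change (F.e.symm (F.T.el b)) ^ c.m = 1 at h
    rw [hpow] at h
    have h1 := congrArg F.e h
    rwa [AlgEquiv.apply_symm_apply, map_one] at h1
  · -- `gamma`
    refine ⟨F.e.symm ((F.T.el (c.m • b) ^ t - 1) / (F.T.el (c.m • b) - 1) - t), hsm _ fun w hw => ?_,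
      ?_⟩
    · exact (val_gamma w (c.unit2 h12 (hnG _ hbG) w hw) hB1 t).trans (hlev _ hlev_b w hw)
    · change (F.e.symm (F.T.el (t • b)) ^ c.m - 1) - algebraMap K (LL D K) t *
        (F.e.symm (F.T.el b) ^ c.m - 1) = (F.e.symm (F.T.el b) ^ c.m - 1) * _
      rw [hpow, hpow]
      apply F.e.injective
      have hne : F.T.el (c.m • b) - 1 ≠ 0 := sub_ne_zero.2 hB1
      have h1 : F.T.el (c.m • (t • b)) = F.T.el (c.m • b) ^ t := by
        rw [hcomm, Tor.el_zsmul]
      rw [map_sub, map_sub, map_mul, map_mul, map_sub, map_one, AlgEquiv.apply_symm_apply,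
        AlgEquiv.apply_symm_apply, AlgEquiv.apply_symm_apply, AlgEquiv.commutes, map_intCast, h1]
      field_simp

end Pool.Agent.C50
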