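import Pool.Agent.Lib.MP_673eb1_lc.C50.Sys
import Pool.Agent.Lib.ZT.Defs
import Pool.Agent.Lib.ZD.AuxP

/-!
MP_673eb1_lc, project C50: statements for the completeness part.

`Fr D K L`: the number field `L` with its coordinates (`L = QR D (-1 : K)`), an isomorphism `e` compatible with
`σ` and `τ`.
-/

set_option autoImplicit false

open NumberField IsDedekindDomain

namespace Pool.Agent.C50

open Pool.Agent.Lib.MP_673eb1_lc Pool.Agent.ZD Pool.Agent.ZT

/-- The frame: a number field `L` isomorphic to `LL D K`, with the data `Tor` (Galois group `⟨σ⟩ × ⟨τ⟩`). -/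
structure Fr {q f : ℕ} [Fact q.Prime] (D : PerData q f) (K L : Type) [Field K] [NumberField K] [Field L]
    [NumberField L] [Algebra K L] where
  T : Tor K L q
  e : LL D K ≃ₐ[K] L
  es : ∀ y, e (sL D y) = T.σ (e y)
  et : ∀ y, e (star y) = T.τ (e y)

/-- **(O)**, the order lemma.  If `x` is a unit at all the primes dividing `a`, then
`x ^ #(O_L / a)ˣ = 1` modulo `a`.

Proof.  Write `x = y / z` with `y, z ∈ O_L`, both prime to `a`: choose a class number power, or: the
ideal `{z ∈ O_L | z x ∈ O_L}` is not contained in any prime `w` dividing `a` (`w x ≤ 1`), so (coprimality with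
`(a)`) it contains an element `z = 1 mod a`; put `y = z x`.  Then `y` is prime to every `w | a` as well
(`w y = w z * w x = 1`), so `y, z` are units of `O_L / a`, `y ^ n = 1 = z ^ n` mod `a`,
`x ^ n - 1 = (y ^ n - z ^ n) / z ^ n` and `w (z) = 1` for `w | a`. -/
def S_Ord : Prop :=
  ∀ (L : Type) [Field L] [NumberField L] (a : 𝓞 L), a ≠ 0 → ∀ x : L,
    (∀ w : HeightOneSpectrum (𝓞 L), w.valuation L (a : L) < 1 → w.valuation L x = 1) →
    ∀ w : HeightOneSpectrum (𝓞 L), w.valuation L (a : L) < 1 →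
      w.valuation L (x ^ (Nat.card (𝓞 L ⧸ Ideal.span {a})ˣ) - 1) ≤ w.valuation L (a : L)

/-- **(W)**, a power of a prime with a generator `= 1 mod N`.

Proof.  `Q ^ h = (π)` (`h` the class number), `π` is a unit modulo `N` (`Q` does not divide `N`: all the
primes dividing `N` are different from `Q`), `n = #(O_L / N)ˣ`, `w = π ^ n`, `r = h n`. -/
def S_WCh : Prop :=
  ∀ (L : Type) [Field L] [NumberField L] (Q : HeightOneSpectrum (𝓞 L)) (N : ℕ), N ≠ 0 →
    Q.valuation L (N : L) = 1 →
    ∃ (r : ℕ) (w : 𝓞 L), 1 ≤ r ∧ Q.valuation L (w : L) = WithZero.exp (-(r : ℤ)) ∧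
      (∀ Q' : HeightOneSpectrum (𝓞 L), Q' ≠ Q → Q'.valuation L (w : L) = 1) ∧
      ∃ y : 𝓞 L, w = 1 + N * y

/-- **(G)**, an element of order exactly `p`.  `Q` a prime of `L` with prime norm, `nm Q - 1 = p ^ T * m'`, `p ∤ m'`,
`x` is a `p ^ s`-th power but not a `p ^ (s+1)`-th power modulo `Q`, `s < T`, `r ≥ 1`,
`X = x ^ (m' * nm Q ^ (r-1) * p ^ (T-s-1))`.  Then `X` has order exactly `p` modulo `Q` and modulo `Q ^ r`, and
`1 + X + .. + X ^ (p-1) = 0` modulo `Q ^ r`.

Proof.  The residue field `k` of `Q` has `nm Q` elements, `kˣ` is cyclic of order `p ^ T m'`.  The residue of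
`x` (a unit at `Q`) is `y ^ (p ^ s)`.  Modulo `Q`: `X ^ p = x ^ (m' N^(r-1) p^(T-s)) = y ^ (p ^ T m' N^(r-1)) = 1`.
If `X = 1` mod `Q` then `x ^ (m' p^(T-s-1)) = 1` in `kˣ` (`nm Q = 1` in the exponent modulo `#kˣ`, or: the order of
`x` divides `m' N^(r-1) p^(T-s-1)` and `#kˣ`, `N` is prime to `N - 1`); write `x = g ^ i` with a generator `g`:
`p ^ T m' ∣ i m' p^(T-s-1)`, so `p ^ (s+1) ∣ i` and `x` is a `p ^ (s+1)`-th power modulo `Q` (lift the residue to an
element `y` of `L`, even of `O_L`), contradiction.  So `Q (X - 1) = 1`.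
Modulo `Q ^ r`: an element `z = 1` mod `Q` satisfies `z ^ (N ^ (r-1)) = 1` mod `Q ^ r` (induction:
`z = 1 mod Q ^ j`, `j ≥ 1`, gives `z ^ N = 1 mod Q ^ (j+1)`, because `N ∈ Q`; `N = nm Q` is the prime number below
`Q`).  Take `z = x ^ (m' p ^ (T-s))`: `z = 1` mod `Q`, `X ^ p = z ^ (N ^ (r-1)) = 1` mod `Q ^ r`.  Finally
`(X - 1) (1 + X + .. + X ^ (p-1)) = X ^ p - 1` and `Q (X - 1) = 1`. -/
def S_GOrd : Prop :=
  ∀ (L : Type) [Field L] [NumberField L] (Q : HeightOneSpectrum (𝓞 L)) (p T m' s r : ℕ),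
    p.Prime → (nm Q).Prime → nm Q - 1 = p ^ T * m' → ¬ p ∣ m' → s < T → 1 ≤ r →
    ∀ x : L, Q.valuation L x = 1 →
    (∃ y : 𝓞 L, Q.valuation L (x - (y : L) ^ (p ^ s)) < 1) →
    (∀ y : L, ¬ Q.valuation L (x - y ^ (p ^ (s + 1))) < 1) →
    Q.valuation L (x ^ (m' * nm Q ^ (r - 1) * p ^ (T - s - 1)) - 1) = 1 ∧
    Q.valuation L (∑ i ∈ Finset.range p, (x ^ (m' * nm Q ^ (r - 1) * p ^ (T - s - 1))) ^ i) ≤
      WithZero.exp (-(r : ℤ))

/-- **(E)**, the exponent `e`: `u` prime to `p`, an `e ≥ 1` with `u ∣ e` and `e = 1 mod p ^ J` (Chinese remainder). -/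
def S_Exp : Prop :=
  ∀ (p u J : ℕ), p.Prime → u.Coprime p → 1 ≤ u → ∃ e : ℕ, 1 ≤ e ∧ u ∣ e ∧ e % p ^ J = 1 % p ^ J

/-- **(BR1)**, integral elements have integral coordinates up to a constant.

Proof.  Let `b_j` be the basis of `L / K` given by the coordinates (`InR`).  It consists of integral elements, so
for a suitable natural number `C > 0` (a multiple of the norm to `ℚ` of the discriminant of `b`; or: `O_L` is a
finitely generated `O_K`-module, so a common denominator of the coordinates of generators) the coordinates of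
`C y`, `y ∈ O_L`, are in `O_K`.  If `w y ≤ w C` for all `w` not over the `v i`, put `y' = y / C`; for a
prime `v0 ∉ {v i}` of `K` we show that the coordinates of `C y' = y` are integral at `v0`: there is
`s ∈ O_K`, `s ∉ v0`, with `s y' ∈ O_L` (for the finitely many `w` with `w y' > 1` the prime below is different from
`v0`; take a product of powers of these primes of `K` and an element of it outside `v0`), so the coordinates of
`C s y' = s y` are in `O_K` and those of `y` are integral at `v0`. -/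
def S_BR1 : Prop :=
  ∀ (q f : ℕ) [Fact q.Prime] (D : PerData q f) (K L : Type) [Field K] [NumberField K] [Field L]
    [NumberField L] [Algebra K L] (F : Fr D K L), ∃ C : ℕ, C ≠ 0 ∧
    ∀ (W : Set (HeightOneSpectrum (𝓞 K))) (y : L),
      (∀ w : HeightOneSpectrum (𝓞 L), w.under (𝓞 K) ∉ W → w.valuation L y ≤ w.valuation L (C : L)) →
      InR D (Wring K W : Set K) (F.e.symm y)

/-- **(BR2)**, coordinates and valuations at a prime `v` which is not above `2 f`.

Proof.  (=>) is the ultrametric inequality: the basis elements are integral and `w = v` on `K` (`v` is unramified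
in `L`, because it does not divide the discriminant of the basis `e_c, i e_c`, which is `± a power of 2 times a
power of f`; if this is easier: the residue algebra `(O_K / v) ⊗ ℤ[e_c][i]` is reduced).  (<=): multiply by a
power of a uniformizer of `v` to reduce to `n = 0`; then as in (BR1) with `C` prime to `v`. -/
def S_BR2 : Prop :=
  ∀ (q f : ℕ) [Fact q.Prime] (D : PerData q f) (K L : Type) [Field K] [NumberField K] [Field L]
    [NumberField L] [Algebra K L] (F : Fr D K L) (v : HeightOneSpectrum (𝓞 K)),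
    ((2 * f : ℕ) : 𝓞 K) ∉ v.asIdeal → ∀ (n : ℤ) (y : L),
      (∀ w ∈ abv L v, w.valuation L y ≤ WithZero.exp n) ↔
        ∀ j, v.valuation K (co D (F.e.symm y) j) ≤ WithZero.exp n

end Pool.Agent.C50
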