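import Pool.Agent.Lib.ZT.Res
import Pool.Agent.Lib.ZS.Ht

/-!
# The soundness block: parameters `Par` and the semantic form `Wit` of the final system

`D : Tor K L q`. `Par D` collects the constants of the system with the properties which are used in the
soundness proof. `Wit P c₀ t` is a solution of the system for `t` (only what is true at the visible primes of
`L`, at the primes above `v₁, v₂, v₃`, and the level `J = 2 M + c₀`).  The theorem to be proved (file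
`Sound.lean`) is `Sound D P`: for some `c₀`, `Wit P c₀ t` implies `t ∈ ℤ`.
-/

set_option autoImplicit false

namespace Pool.Agent.C50

open NumberField IsDedekindDomain Pool.Agent.ZD Pool.Agent.ZT Pool.Agent.ZS WithZero

variable {K L : Type} [Field K] [NumberField K] [Field L] [NumberField L] [Algebra K L] {q : ℕ}
  {D : Tor K L q}

/-- the parameters of the system -/
structure Par (D : Tor K L q) where
  /-- the primes which may be inverted -/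
  Sg : Set (HeightOneSpectrum (𝓞 K))
  v₁ : HeightOneSpectrum (𝓞 K)
  v₂ : HeightOneSpectrum (𝓞 K)
  v₃ : HeightOneSpectrum (𝓞 K)
  /-- the rational prime below `v₃` -/
  p : ℕ
  /-- `h = h_cl * m₂`, `Q₁ = h u₁` -/
  h : ℕ
  /-- all torus variables are `m`-th powers, `m = h_cl * μ * (p - 1)` -/
  m : ℕ
  /-- the number of roots of unity -/
  μ : ℕ
  g : ℕ
  n : ℕ
  /-- a basis of `L / K` (`Fin n`), integral -/
  ω : Fin n → L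
  /-- the period `e_0` -/
  β : L
  /-- `u₁ = P₁ ^ (μ (p - 1))` -/
  u₁ : Additive D.T
  u₂ : Additive D.T
  /-- the constant `P₁* ^ m` of the system -/
  Q₁ : Additive D.T
  hp : p.Prime
  p2 : p ≠ 2
  hpq : ¬ p ∣ q
  hord : orderOf (p : ZMod q) = q - 1
  m₁ : v₁ ∈ Sg
  m₂ : v₂ ∈ Sg
  m₃ : v₃ ∈ Sg
  h12 : v₁ ≠ v₂
  h13 : v₁ ≠ v₃
  h23 : v₂ ≠ v₃
  hv₃ : v₃ ∈ Spl K L
  hnm : nm v₃ = p
  hunr : ∀ w ∈ abv L v₃, w.valuation L (p : L) = exp (-1 : ℤ)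
  /-- the points of the torus have no zero and no pole above the other primes of `Sg` (these are inert in
  `K E / K`) -/
  hin : ∀ v ∈ Sg, v ≠ v₁ → v ≠ v₂ → v ≠ v₃ → ∀ (y : Additive D.T), ∀ w ∈ abv L v,
    w.valuation L (D.el y) = 1
  hg : 0 < g
  hβi : IsIntegral ℤ β
  hβ : D.τ β = β
  /-- the form `D(x)` has no zero modulo a prime of `Sg` -/
  hD : ∀ v ∈ Sg, ∀ w ∈ abv L v, ∀ x : K, w.valuation L (algebraMap K L x) ≤ 1 →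
    ∀ i < q, w.valuation L ((algebraMap K L x - (D.σ ^ i) β) ^ 2 + (g : L)) = 1
  hω : ∀ j, IsIntegral ℤ (ω j)
  hμ0 : 0 < μ
  hμ : ∀ (ζ : L) (k : ℕ), 0 < k → ζ ^ k = 1 → ζ ^ μ = 1
  m0 : 0 < m
  /-- the structure of the points with poles only above `v₁` -/
  str₁ : ∀ y : Additive D.T, (∀ w, w ∉ abv L v₁ → w.valuation L (D.el y) = 1) →
    ∃ k : Lam q, m • y = k • u₁ ∧ ∀ N : ℕ, (∀ w ∈ abv L v₁, w.valuation L (D.el y) ≤ exp (N : ℤ)) →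
      ∀ i, |cf k i| ≤ q * N
  str₂ : ∀ y : Additive D.T, (∀ w, w ∉ abv L v₂ → w.valuation L (D.el y) = 1) →
    ∃ k : Lam q, m • y = k • u₂
  u₁o : ∀ w, w ∉ abv L v₁ → w.valuation L (D.el u₁) = 1
  u₂o : ∀ w, w ∉ abv L v₂ → w.valuation L (D.el u₂) = 1
  u₁v : ∀ w ∈ abv L v₃, w.valuation L (D.el u₁ - 1) ≤ exp (-1 : ℤ)
  u₂v : ∀ w ∈ abv L v₃, w.valuation L (D.el u₂ - 1) ≤ exp (-1 : ℤ)
  u₁1 : D.el u₁ ≠ 1
  u₂1 : D.el u₂ ≠ 1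
  hQ₁ : Q₁ = h • u₁
  h0 : 0 < h
  /-- the primes dividing `h` are visible -/
  hS : ∀ v ∈ Sg, v.valuation K (h : K) = 1

/-- the form `D(x)`, `x ∈ K` -/
noncomputable def Par.frm (P : Par D) (x : K) : L :=
  Dv q (fun i => (D.σ ^ i) P.β) P.g (algebraMap K L x)

/-- the visible primes of `L` -/
def Par.vis (P : Par D) : Set (HeightOneSpectrum (𝓞 L)) := {w | w.under (𝓞 K) ∉ P.Sg}

/-- `N_{L/K}(w)` -/
noncomputable def nrm (D : Tor K L q) (w : L) : L :=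
  ∏ i ∈ Finset.range q, ((D.σ ^ i) w * (D.σ ^ i) (D.τ w))

/-- **The semantic form of the system.** `J = 2 M + c₀`. -/
structure Wit (P : Par D) (c₀ : ℕ) (t : K) where
  S : Additive D.T
  κ : Additive D.T
  a : Additive D.T
  c : Additive D.T
  G : Additive D.T
  b : Additive D.T
  d : Additive D.T
  w : L
  M : ℕ
  /-- the coordinates of `κ ^ m` -/
  x : Fin P.n → K
  tvis : ∀ v ∉ P.Sg, v.valuation K t ≤ 1
  t₃ : P.v₃.valuation K t ≤ 1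
  Si : ∀ w', w' ∈ P.vis ∨ w' ∈ abv L P.v₁ ∨ w' ∈ abv L P.v₂ → w'.valuation L (D.el S) ≤ 1
  κi : ∀ w', w' ∈ P.vis ∨ w' ∈ abv L P.v₂ ∨ w' ∈ abv L P.v₃ → w'.valuation L (D.el κ) ≤ 1
  ai : ∀ w', w' ∈ P.vis ∨ w' ∈ abv L P.v₂ ∨ w' ∈ abv L P.v₃ → w'.valuation L (D.el a) ≤ 1
  ci : ∀ w', w' ∈ P.vis ∨ w' ∈ abv L P.v₂ ∨ w' ∈ abv L P.v₃ → w'.valuation L (D.el c) ≤ 1
  Gi : ∀ w', w' ∈ P.vis ∨ w' ∈ abv L P.v₂ ∨ w' ∈ abv L P.v₃ → w'.valuation L (D.el G) ≤ 1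
  bi : ∀ w', w' ∈ P.vis ∨ w' ∈ abv L P.v₁ ∨ w' ∈ abv L P.v₃ → w'.valuation L (D.el b) ≤ 1
  di : ∀ w', w' ∈ P.vis ∨ w' ∈ abv L P.v₁ ∨ w' ∈ abv L P.v₃ → w'.valuation L (D.el d) ≤ 1
  -- (1)
  S1 : D.el S ≠ 1
  hκ : D.el κ ^ P.m = ∑ j, algebraMap K L (x j) * P.ω j
  divt : ∀ w' ∈ P.vis, w'.valuation L (D.el S - 1) ≤ w'.valuation L (P.frm t)
  divx : ∀ j, ∀ w' ∈ P.vis, w'.valuation L (D.el S - 1) ≤ w'.valuation L (P.frm (x j))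
  -- (2)
  wi : ∀ w' ∈ P.vis, w'.valuation L w ≤ 1
  w1 : ∀ w', w' ∈ abv L P.v₁ ∨ w' ∈ abv L P.v₂ ∨ w' ∈ abv L P.v₃ → w'.valuation L w = 1
  wp : ∀ w' ∈ P.vis, w'.valuation L (P.p : L) < 1 → w'.valuation L (w - 1) < 1
  wμ : (w * D.τ (D.σ w)) ^ P.μ ≠ (D.σ w * D.τ w) ^ P.μ
  -- (3), (4)
  divG : ∀ w' ∈ P.vis, w'.valuation L (∑ i ∈ Finset.range P.p, (D.el G ^ P.m) ^ i) ≤ w'.valuation L w
  divab : ∀ w' ∈ P.vis, w'.valuation L (D.el a ^ P.m - D.el b ^ P.m) ≤ w'.valuation L (nrm D w)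
  divcd : ∀ w' ∈ P.vis, w'.valuation L (D.el c ^ P.m - D.el d ^ P.m) ≤ w'.valuation L (nrm D w)
  -- (5)
  hM : ∀ w' ∈ abv L P.v₃, w'.valuation L (D.el S) ≤ exp (M : ℤ)
  Ja : ∀ w' ∈ abv L P.v₃, w'.valuation L (D.el a ^ P.m - D.el P.Q₁) ≤ exp (-(2 * M + c₀ : ℤ))
  Jc : ∀ w' ∈ abv L P.v₃, w'.valuation L (D.el c ^ P.m - D.el κ ^ P.m) ≤ exp (-(2 * M + c₀ : ℤ))
  Jb : ∀ w' ∈ abv L P.v₃, w'.valuation L (D.el b ^ P.m - 1) ≤ exp (-(2 * M + c₀ : ℤ))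
  JG : ∀ w' ∈ abv L P.v₃, w'.valuation L (D.el G ^ P.m - 1) ≤ exp (-(2 * M + c₀ : ℤ))
  b1 : D.el b ^ P.m ≠ 1
  Jd : ∀ w' ∈ abv L P.v₃,
    w'.valuation L ((D.el d ^ P.m - 1) - algebraMap K L t * (D.el b ^ P.m - 1)) ≤
      exp (-(2 * M + c₀ : ℤ)) * w'.valuation L (D.el b ^ P.m - 1)

/-- **Soundness** -/
def Sound (P : Par D) : Prop :=
  ∃ c₀ : ℕ, ∀ t : K, Nonempty (Wit P c₀ t) → ∃ z : ℤ, t = z

end Pool.Agent.C50
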