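import Pool.Agent.Lib.MP_673eb1_lc.C50.CDat
import Pool.Agent.Lib.MP_673eb1_lc.SelTR
import Pool.Agent.Lib.MP_673eb1_lc.PDG

/-!
MP_673eb1_lc, project C50: existence of the data (`S_Dat`).
-/

set_option autoImplicit false

open NumberField IsDedekindDomain

namespace Pool.Agent.C50

open Pool.Agent.Lib.MP_673eb1_lc Pool.Agent.ZD Pool.Agent.ZT

/-- The primes of prime norm `1` modulo `4` and of index zero split completely in the frame. -/
def S_Spl : Prop :=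
  ∀ (q f : ℕ) [Fact q.Prime] (D : PerData q f) (K L : Type) [Field K] [NumberField K] [Field L]
    [NumberField L] [Algebra K L] [IsGalois K L] (_ : Fr D K L) (v : HeightOneSpectrum (𝓞 K)),
    D.ind (nm v) = 0 → (nm v).Prime → nm v % 4 = 1 → ((f : ℕ) : 𝓞 K) ∉ v.asIdeal → v ∈ Spl K L

/-- a power of every prime is principal -/
private theorem dat_gen (L : Type) [Field L] [NumberField L] (w : HeightOneSpectrum (𝓞 L)) :
    ∃ π : 𝓞 L, Ideal.span {π} = w.asIdeal ^ (Fintype.card (ClassGroup (𝓞 L))) := by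
  have h1 : w.asIdeal ∈ nonZeroDivisors (Ideal (𝓞 L)) :=
    mem_nonZeroDivisors_of_ne_zero w.ne_bot
  have h2 : w.asIdeal ^ (Fintype.card (ClassGroup (𝓞 L))) ∈ nonZeroDivisors (Ideal (𝓞 L)) :=
    Submonoid.pow_mem _ h1 _
  have h3 : ClassGroup.mk0 ⟨_, h2⟩ = 1 := by
    have h4 : (⟨_, h2⟩ : nonZeroDivisors (Ideal (𝓞 L))) =
        ⟨_, h1⟩ ^ (Fintype.card (ClassGroup (𝓞 L))) := rfl
    rw [h4, map_pow, pow_card_eq_one]
  obtain ⟨π, hπ⟩ := ((ClassGroup.mk0_eq_one_iff h2).1 h3).principal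
  exact ⟨π, hπ.symm⟩

/-- the exponent of the roots of unity -/
private theorem dat_mu (L : Type) [Field L] [NumberField L] :
    ∃ mu : ℕ, 0 < mu ∧ ∀ (ζ : L) (k : ℕ), 0 < k → ζ ^ k = 1 → ζ ^ mu = 1 := by
  refine ⟨Units.torsionOrder L, Units.torsionOrder_pos L, fun ζ k hk h => ?_⟩
  have hint : IsIntegral ℤ ζ := by
    refine IsIntegral.of_pow hk ?_
    rw [h]
    exact isIntegral_one
  obtain ⟨z, hz⟩ : ∃ z : 𝓞 L, algebraMap (𝓞 L) L z = ζ := ⟨⟨ζ, hint⟩, rfl⟩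
  have hz1 : z ^ k = 1 := by
    apply FaithfulSMul.algebraMap_injective (𝓞 L) L
    rw [map_pow, hz, h, map_one]
  obtain ⟨u, hu⟩ : ∃ u : (𝓞 L)ˣ, (u : 𝓞 L) = z := by
    refine ⟨Units.ofPowEqOne z k hz1 hk.ne', rfl⟩
  have hu1 : u ^ k = 1 := by
    apply Units.ext
    rw [Units.val_pow_eq_pow_val, hu, hz1]
    rfl
  have hut : u ∈ Units.torsion L := by
    rw [Units.torsion, CommGroup.mem_torsion, isOfFinOrder_iff_pow_eq_one]
    exact ⟨k, hk, hu1⟩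
  have h5 : (⟨u, hut⟩ : Units.torsion L) ^ (Nat.card (Units.torsion L)) = 1 := pow_card_eq_one'
  have h6 : u ^ (Units.torsionOrder L) = 1 := congrArg Subtype.val h5
  have h7 := congrArg (fun x : (𝓞 L)ˣ => algebraMap (𝓞 L) L (x : 𝓞 L)) h6
  beta_reduce at h7
  rw [Units.val_pow_eq_pow_val, hu, map_pow, hz, Units.val_one, map_one] at h7
  exact h7

/-- a number which is the negative of a nonresidue -/
private theorem dat_res (l : ℕ) (hl : l.Prime) (hl2 : l ≠ 2) :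
    ∃ n : ℕ, ∀ g : ℕ, g ≡ n [MOD l] → ∀ x : ℤ, ¬ (l : ℤ) ∣ x ^ 2 + g := by
  have hlF : Fact l.Prime := ⟨hl⟩
  obtain ⟨a, ha⟩ := FiniteField.exists_nonsquare (F := ZMod l) (by rw [ZMod.ringChar_zmod_n]; exact hl2)
  refine ⟨(-a).val, fun g hg x hx => ha ?_⟩
  have h1 : ((g : ℕ) : ZMod l) = -a := by
    have := (ZMod.natCast_eq_natCast_iff _ _ _).2 hg
    rw [this, ZMod.natCast_zmod_val]
  have h2 : ((x ^ 2 + g : ℤ) : ZMod l) = 0 := (ZMod.intCast_zmod_eq_zero_iff_dvd _ _).2 hx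
  push_cast at h2
  rw [h1] at h2
  refine ⟨(x : ZMod l), ?_⟩
  linear_combination -h2

/-- the constant of the height form -/
private theorem dat_g (l : Fin 3 → ℕ) (hl : ∀ i, (l i).Prime) (hl2 : ∀ i, l i ≠ 2)
    (hinj : Function.Injective l) :
    ∃ g : ℕ, 0 < g ∧ ∀ i, ∀ x : ℤ, ¬ ((l i : ℤ) ∣ x ^ 2 + g) := by
  have hco : ∀ i j, i ≠ j → (l i).Coprime (l j) := fun i j hij =>
    (Nat.coprime_primes (hl i) (hl j)).2 fun h => hij (hinj h)
  obtain ⟨n0, h0⟩ := dat_res (l 0) (hl 0) (hl2 0)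
  obtain ⟨n1, h1⟩ := dat_res (l 1) (hl 1) (hl2 1)
  obtain ⟨n2, h2⟩ := dat_res (l 2) (hl 2) (hl2 2)
  obtain ⟨k, hk0, hk1⟩ := Nat.chineseRemainder (hco 0 1 (by decide)) n0 n1
  have hco2 : (l 0 * l 1).Coprime (l 2) :=
    Nat.Coprime.mul_left (hco 0 2 (by decide)) (hco 1 2 (by decide))
  obtain ⟨g, hg0, hg2⟩ := Nat.chineseRemainder hco2 k n2
  have hg : ∀ i, ∀ x : ℤ, ¬ ((l i : ℤ) ∣ x ^ 2 + g) := by
    intro i
    fin_cases i
    · exact h0 g ((Nat.ModEq.of_mul_right _ hg0).trans hk0)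
    · exact h1 g ((Nat.ModEq.of_mul_left _ hg0).trans hk1)
    · exact h2 g hg2
  refine ⟨g, Nat.pos_of_ne_zero ?_, hg⟩
  rintro rfl
  apply hg 0 0
  simp

/-- **Existence of the data.** -/
theorem dat_of (hSpl : S_Spl) (hBR1 : S_BR1) : S_Dat := by
  classical
  intro K _ _ hK K' _ _ _ _ ε hε
  obtain ⟨q, f, hq, D, h1, h2, h3, h4, h5, h6⟩ := sel_data K' ε hε (Module.finrank ℚ K)
  obtain ⟨L, iL1, iL2, iL3, iL4, ⟨F⟩⟩ := exists_frame D K h3 D.hodd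
  obtain ⟨C, hC0, hC⟩ := hBR1 q f D K L F
  obtain ⟨mu, hmu0, hmu⟩ := dat_mu L
  obtain ⟨hcl, hhcl⟩ : ∃ hcl : ℕ, hcl = Fintype.card (ClassGroup (𝓞 L)) := ⟨_, rfl⟩
  have hcl0 : 0 < hcl := by
    rw [hhcl]
    exact Fintype.card_pos
  obtain ⟨m2, hm2⟩ : ∃ m2 : ℕ, m2 = Nat.card (𝓞 L ⧸ Ideal.span {(C : 𝓞 L)})ˣ := ⟨_, rfl⟩
  have hm20 : m2 ≠ 0 := by
    have hne : Ideal.span {(C : 𝓞 L)} ≠ ⊥ := by
      rw [Ne, Ideal.span_singleton_eq_bot]
      exact Nat.cast_ne_zero.2 hC0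
    have hfin : Finite (𝓞 L ⧸ Ideal.span {(C : 𝓞 L)}) := Ideal.finiteQuotientOfFreeOfNeBot _ hne
    rw [hm2]
    exact Nat.card_pos.ne'
  -- the excluded numbers
  obtain ⟨n, hn⟩ : ∃ n : ℕ, n = 2 * f * C * hcl * mu * m2 * q := ⟨_, rfl⟩
  have hn0 : n ≠ 0 := by
    rw [hn]
    exact mul_ne_zero (mul_ne_zero (mul_ne_zero (mul_ne_zero (mul_ne_zero (mul_ne_zero two_ne_zero
      D.hf.ne_zero) hC0) hcl0.ne') hmu0.ne') hm20) hq.out.ne_zero
  obtain ⟨S, hS⟩ : ∃ S : Set ℕ, S = {l | l ∣ n} ∪ bad L := ⟨_, rfl⟩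
  have hSfin : S.Finite := by
    rw [hS]
    refine Set.Finite.union ?_ (finite_bad L)
    refine (Set.finite_le_nat n).subset fun l hl => Nat.le_of_dvd (Nat.pos_of_ne_zero hn0) hl
  -- the primes
  have hex : ∀ T : Set ℕ, T.Finite → ∃ v : HeightOneSpectrum (𝓞 K), Deg1 v ∧ D.ind (nm v) = 0 ∧
      ((f : ℕ) : 𝓞 K) ∉ v.asIdeal ∧ orderOf ((nm v : ℕ) : ZMod q) = q - 1 ∧ nm v ∉ S ∧
      nm v ∉ T ∧ ∀ w ∈ abv K' v, Deg1 w := by
    intro T hT
    obtain ⟨v, hv⟩ := (sel_primes K K' D h5 (S ∪ T) (hSfin.union hT)).nonempty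
    obtain ⟨a1, a2, a3, a4, a5, -, a6⟩ := hv
    exact ⟨v, a1, a2, a3, a4, fun h => a5 (Or.inl h), fun h => a5 (Or.inr h), a6⟩
  obtain ⟨v0, hv0⟩ := hex ∅ Set.finite_empty
  obtain ⟨v1, hv1⟩ := hex {nm v0} (Set.finite_singleton _)
  obtain ⟨v2, hv2⟩ := hex {nm v0, nm v1} (Set.toFinite _)
  obtain ⟨v, hv⟩ : ∃ v : Fin 3 → HeightOneSpectrum (𝓞 K), v = ![v0, v1, v2] := ⟨_, rfl⟩
  have hvv : ∀ i, Deg1 (v i) ∧ D.ind (nm (v i)) = 0 ∧ ((f : ℕ) : 𝓞 K) ∉ (v i).asIdeal ∧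
      orderOf ((nm (v i) : ℕ) : ZMod q) = q - 1 ∧ nm (v i) ∉ S ∧ ∀ w ∈ abv K' (v i), Deg1 w := by
    intro i
    rw [hv]
    fin_cases i
    · exact ⟨hv0.1, hv0.2.1, hv0.2.2.1, hv0.2.2.2.1, hv0.2.2.2.2.1, hv0.2.2.2.2.2.2⟩
    · exact ⟨hv1.1, hv1.2.1, hv1.2.2.1, hv1.2.2.2.1, hv1.2.2.2.2.1, hv1.2.2.2.2.2.2⟩
    · exact ⟨hv2.1, hv2.2.1, hv2.2.2.1, hv2.2.2.2.1, hv2.2.2.2.2.1, hv2.2.2.2.2.2.2⟩
  have hinj : Function.Injective fun i => nm (v i) := by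
    have e0 : v 0 = v0 := by rw [hv]; rfl
    have e1 : v 1 = v1 := by rw [hv]; rfl
    have e2 : v 2 = v2 := by rw [hv]; rfl
    have n01 : nm v1 ≠ nm v0 := fun h => hv1.2.2.2.2.2.1 h
    have n02 : nm v2 ≠ nm v0 := fun h => hv2.2.2.2.2.2.1 (Or.inl h)
    have n12 : nm v2 ≠ nm v1 := fun h => hv2.2.2.2.2.2.1 (Or.inr h)
    intro i j hij
    beta_reduce at hij
    fin_cases i <;> fin_cases j
    · rfl
    · exact absurd (by rw [← e0, ← e1]; exact hij.symm) n01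
    · exact absurd (by rw [← e0, ← e2]; exact hij.symm) n02
    · exact absurd (by rw [← e0, ← e1]; exact hij) n01
    · rfl
    · exact absurd (by rw [← e1, ← e2]; exact hij.symm) n12
    · exact absurd (by rw [← e0, ← e2]; exact hij) n02
    · exact absurd (by rw [← e1, ← e2]; exact hij) n12
    · rfl
  have hsp : ∀ i, v i ∈ Spl K L := fun i =>
    hSpl q f D K L F (v i) (hvv i).2.1 (hvv i).1.1 (hvv i).1.2.1 (hvv i).2.2.1
  have hw : ∀ i, ∃ w : HeightOneSpectrum (𝓞 L), w ∈ abv L (v i) := fun i => abv_nonempty (v i)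
  choose w hw using hw
  have hnd : ∀ i k, k ∣ n → ¬ nm (v i) ∣ k := by
    intro i k hk h
    apply (hvv i).2.2.2.2.1
    rw [hS]
    exact Or.inl (h.trans hk)
  have hgen : ∀ i, ∃ π : 𝓞 L, Ideal.span {π} = (w i).asIdeal ^ hcl := by
    intro i
    rw [hhcl]
    exact dat_gen L (w i)
  choose π hπ using hgen
  obtain ⟨g, hg0, hg⟩ := dat_g (fun i => nm (v i)) (fun i => (hvv i).1.1) (fun i h => by
    have h7 := (hvv i).1.2.1
    rw [h] at h7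
    omega) hinj
  have hnmw : ∀ i, nm (w i) = nm (v i) := by
    intro i
    obtain ⟨e, f', he, hf', hef, hnm, -⟩ := local_data (L := L) (v i)
    have h7 : (abv L (v i)).ncard = Module.finrank K L := hsp i
    rw [h7] at hef
    have h8 : e * f' = 1 := by
      have hpos : 0 < Module.finrank K L := Module.finrank_pos
      apply Nat.eq_of_mul_eq_mul_left hpos
      rw [hef, mul_one]
    have h9 : f' = 1 := Nat.eq_one_of_mul_eq_one_left h8
    rw [hnm (w i) (hw i), h9, pow_one]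
  have hunr : ∀ i, ∀ w' ∈ abv L (v i), w'.valuation L (nm (v i) : L) = WithZero.exp (-1 : ℤ) := by
    intro i w' hw'
    have h7 : ((nm (v i) : ℕ) : 𝓞 L) ∈ w'.asIdeal := by
      have h8 := mem_abv.1 hw'
      have h9 : ((nm (v i) : ℕ) : 𝓞 K) ∈ w'.asIdeal.comap (algebraMap (𝓞 K) (𝓞 L)) := by
        rw [h8]
        exact ZD.nm_mem (v i)
      rw [Ideal.mem_comap, map_natCast] at h9
      exact h9
    have h8 : ((nm (v i) : ℕ) : 𝓞 L) ∉ w'.asIdeal ^ 2 := by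
      intro h9
      apply (hvv i).2.2.2.2.1
      rw [hS]
      exact Or.inr ⟨(hvv i).1.1, w', h9⟩
    have h9 := val_eq_exp h7 h8
    rw [map_natCast] at h9
    exact h9
  let c : CDat F :=
    { v := v
      w := w
      l := fun i => nm (v i)
      hw := hw
      nmv := fun i => rfl
      nmw := hnmw
      lp := fun i => (hvv i).1.1
      l4 := fun i => (hvv i).1.2.1
      linj := hinj
      spl := hsp
      unr := hunr
      C := C
      C0 := hC0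
      hC := hC
      lC := fun i => hnd i C ⟨2 * f * hcl * mu * m2 * q, by rw [hn]; ring⟩
      lf := fun i => hnd i (2 * f) ⟨C * hcl * mu * m2 * q, by rw [hn]; ring⟩
      π := π
      hcl := hcl
      hcl0 := hcl0
      hπ := hπ
      mu := mu
      mu0 := hmu0
      hmu := hmu
      m2 := m2
      hm2 := hm2
      lh := fun i => hnd i (hcl * m2) ⟨2 * f * C * mu * q, by rw [hn]; ring⟩
      pm := hnd 2 (hcl * mu * m2) ⟨2 * f * C * q, by rw [hn]; ring⟩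
      pq := hnd 2 q ⟨2 * f * C * hcl * mu * m2, by rw [hn]; ring⟩
      pord := (hvv 2).2.2.2.1
      g := g
      g0 := hg0
      hg := hg }
  refine ⟨q, f, hq, D, L, iL1, iL2, iL3, F, c, h1, h2, fun i => ?_⟩
  exact ⟨(hvv i).1, (hvv i).2.1, (hvv i).2.2.1, (hvv i).2.2.2.2.2⟩

end Pool.Agent.C50
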