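import Pool.Agent.Lib.MP_673eb1_lc.C50.CompSpec

/-!
MP_673eb1_lc, project C50: `S_Exp`.
-/

set_option autoImplicit false

namespace Pool.Agent.C50

theorem exp_ : S_Exp := by
  intro p u J hp hu hu1
  have hc : Nat.Coprime u (p ^ J) := Nat.Coprime.pow_right J hu
  obtain ⟨e, he1, he2⟩ := Nat.chineseRemainder hc 0 1
  refine ⟨e + u * p ^ J, ?_, ?_, ?_⟩
  · have h1 : 0 < u * p ^ J := Nat.mul_pos hu1 (pow_pos hp.pos J)
    omega
  · exact (Nat.dvd_add_right ((Nat.modEq_zero_iff_dvd).1 he1)).2 (dvd_mul_right _ _)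
  · rw [Nat.add_mul_mod_self_right]
    exact he2

end Pool.Agent.C50
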