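import Pool.Agent.Lib.MP_673eb1_lc.C50.CompSpec
import Pool.Agent.Lib.ZT.Str

/-!
MP_673eb1_lc, project C50: `S_Ord`, `S_WCh`, `S_Exp` (helper17).
-/

set_option autoImplicit false

open NumberField IsDedekindDomain WithZero

namespace Pool.Agent.C50

open Pool.Agent.Lib.MP_673eb1_lc Pool.Agent.ZD Pool.Agent.ZT

theorem owe_exp : S_Exp := by
  intro p u J hp hu h1
  have hc : u.Coprime (p ^ J) := hu.pow_right J
  have h2 := Nat.ModEq.pow_totient hc
  have h3 : 0 < (p ^ J).totient := Nat.totient_pos.2 (pow_pos hp.pos J)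
  exact ⟨u ^ (p ^ J).totient, Nat.one_le_pow _ _ h1, dvd_pow_self u h3.ne', h2⟩

section

variable {L : Type} [Field L] [NumberField L]

/-- units modulo `a` -/
theorem owe_unit {a : 𝓞 L} (ha : a ≠ 0) {y : 𝓞 L}
    (hy : ∀ w : HeightOneSpectrum (𝓞 L), w.valuation L (a : L) < 1 → w.valuation L (y : L) = 1) :
    y ^ (Nat.card (𝓞 L ⧸ Ideal.span {a})ˣ) - 1 ∈ Ideal.span {a} := by
  have hfin : Finite (𝓞 L ⧸ Ideal.span {a}) := by
    refine Ideal.finiteQuotientOfFreeOfNeBot _ ?_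
    rwa [Ne, Ideal.span_singleton_eq_bot]
  have h1 : IsUnit (Ideal.Quotient.mk (Ideal.span {a}) y) := by
    have h2 : Ideal.span {y} ⊔ Ideal.span {a} = ⊤ := by
      by_contra h
      obtain ⟨M, hM, hle⟩ := Ideal.exists_le_maximal _ h
      have hy1 : y ∈ M := hle (Ideal.mem_sup_left (Ideal.mem_span_singleton_self y))
      have ha1 : a ∈ M := hle (Ideal.mem_sup_right (Ideal.mem_span_singleton_self a))
      have hne : M ≠ ⊥ := by
        rintro rfl
        exact ha ((Ideal.mem_bot).1 ha1)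
      have h3 := hy ⟨M, hM.isPrime, hne⟩
        ((HeightOneSpectrum.valuation_lt_one_iff_mem (K := L) _ a).2 ha1)
      have h4 := (HeightOneSpectrum.valuation_lt_one_iff_mem (K := L)
        (⟨M, hM.isPrime, hne⟩ : HeightOneSpectrum (𝓞 L)) y).2 hy1
      exact absurd h3 h4.ne
    have h3 : (1 : 𝓞 L) ∈ Ideal.span {y} ⊔ Ideal.span {a} := by rw [h2]; trivial
    rw [Submodule.mem_sup] at h3
    obtain ⟨b, hb, c, hc, hbc⟩ := h3
    obtain ⟨d, hd⟩ := Ideal.mem_span_singleton.1 hb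
    refine IsUnit.of_mul_eq_one (Ideal.Quotient.mk (Ideal.span {a}) d) ?_
    rw [← map_mul, ← hd, ← map_one (Ideal.Quotient.mk (Ideal.span {a})), ← hbc, map_add,
      Ideal.Quotient.eq_zero_iff_mem.2 hc, add_zero]
  obtain ⟨u, hu⟩ := h1
  rw [← Ideal.Quotient.mk_eq_mk_iff_sub_mem, map_pow, map_one, ← hu]
  have h4 : u ^ Nat.card (𝓞 L ⧸ Ideal.span {a})ˣ = 1 := pow_card_eq_one'
  rw [← Units.val_pow_eq_pow_val, h4, Units.val_one]

theorem owe_val_of_mem {a b : 𝓞 L} (h : b ∈ Ideal.span {a}) (w : HeightOneSpectrum (𝓞 L)) :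
    w.valuation L (algebraMap (𝓞 L) L b) ≤ w.valuation L (algebraMap (𝓞 L) L a) := by
  obtain ⟨c, rfl⟩ := Ideal.mem_span_singleton.1 h
  rw [map_mul, map_mul]
  exact mul_le_of_le_one_right zero_le (w.valuation_le_one c)

end

theorem owe_ord : S_Ord := by
  intro L _ _ a ha x hx w hw
  -- the ideal of denominators
  let I : Ideal (𝓞 L) :=
    { carrier := {z | ∃ y : 𝓞 L, algebraMap (𝓞 L) L z * x = algebraMap (𝓞 L) L y}
      zero_mem' := ⟨0, by rw [map_zero, zero_mul]⟩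
      add_mem' := by
        rintro z z' ⟨y, hy⟩ ⟨y', hy'⟩
        exact ⟨y + y', by rw [map_add, map_add, add_mul, hy, hy']⟩
      smul_mem' := by
        rintro c z ⟨y, hy⟩
        exact ⟨c * y, by rw [smul_eq_mul, map_mul, map_mul, mul_assoc, hy]⟩ }
  have hI : I ⊔ Ideal.span {a} = ⊤ := by
    by_contra h
    obtain ⟨M, hM, hle⟩ := Ideal.exists_le_maximal _ h
    have ha1 : a ∈ M := hle (Ideal.mem_sup_right (Ideal.mem_span_singleton_self a))
    have hne : M ≠ ⊥ := by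
      rintro rfl
      exact ha ((Ideal.mem_bot).1 ha1)
    obtain ⟨v, hv⟩ : ∃ v : HeightOneSpectrum (𝓞 L), v.asIdeal = M := ⟨⟨M, hM.isPrime, hne⟩, rfl⟩
    have h3 := hx v ((HeightOneSpectrum.valuation_lt_one_iff_mem (K := L) v a).2 (by rw [hv]; exact ha1))
    obtain ⟨b, d, hbd⟩ := v.exists_primeCompl_mul_eq_of_integer x h3.le
    have h4 : (d : 𝓞 L) ∈ I := ⟨b, by rw [mul_comm]; exact hbd⟩
    exact d.2 (by
      have h5 := hle (Ideal.mem_sup_left h4)
      rw [← hv] at h5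
      exact h5)
  have h1 : (1 : 𝓞 L) ∈ I ⊔ Ideal.span {a} := by rw [hI]; trivial
  rw [Submodule.mem_sup] at h1
  obtain ⟨z, ⟨y, hy⟩, c, hc, hzc⟩ := h1
  have hz1 : z - 1 ∈ Ideal.span {a} := by
    have : z - 1 = -c := by rw [← hzc]; ring
    rw [this]
    exact (Ideal.span {a}).neg_mem hc
  have hzv : ∀ v : HeightOneSpectrum (𝓞 L), v.valuation L (a : L) < 1 →
      v.valuation L (z : L) = 1 := by
    intro v hv
    have h2 := (owe_val_of_mem hz1 v).trans_lt hv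
    have h3 : (algebraMap (𝓞 L) L (z - 1)) = (z : L) - 1 := by rw [map_sub, map_one]
    rw [h3] at h2
    have h4 : (z : L) = 1 + ((z : L) - 1) := by ring
    rw [h4]
    exact Valuation.map_one_add_of_lt (v.valuation L) h2
  have hyv : ∀ v : HeightOneSpectrum (𝓞 L), v.valuation L (a : L) < 1 →
      v.valuation L (y : L) = 1 := by
    intro v hv
    have h2 : (y : L) = (z : L) * x := hy.symm
    rw [h2, map_mul, hzv v hv, hx v hv, mul_one]
  obtain ⟨n, hn⟩ : ∃ n, n = Nat.card (𝓞 L ⧸ Ideal.span {a})ˣ := ⟨_, rfl⟩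
  have e1 := owe_unit ha hyv
  have e2 := owe_unit ha hzv
  rw [← hn] at e1 e2 ⊢
  have e3 : y ^ n - z ^ n ∈ Ideal.span {a} := by
    have : y ^ n - z ^ n = (y ^ n - 1) - (z ^ n - 1) := by ring
    rw [this]
    exact (Ideal.span {a}).sub_mem e1 e2
  have e4 := owe_val_of_mem e3 w
  have e5 : algebraMap (𝓞 L) L (y ^ n - z ^ n) = (z : L) ^ n * (x ^ n - 1) := by
    rw [map_sub, map_pow, map_pow, ← hy, mul_pow]
    ring
  rw [e5, map_mul, map_pow, hzv w hw, one_pow, one_mul] at e4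
  exact e4

theorem owe_wch : S_WCh := by
  intro L _ _ Q N hN hQ
  obtain ⟨π, h0, h1, h2⟩ := exists_gen Q
  have hN' : ((N : ℕ) : 𝓞 L) ≠ 0 := by exact_mod_cast hN
  have hNL : (((N : ℕ) : 𝓞 L) : L) = (N : L) := map_natCast (algebraMap (𝓞 L) L) N
  obtain ⟨n, hn⟩ : ∃ n, n = Nat.card (𝓞 L ⧸ Ideal.span {((N : ℕ) : 𝓞 L)})ˣ := ⟨_, rfl⟩
  have hfin : Finite (𝓞 L ⧸ Ideal.span {((N : ℕ) : 𝓞 L)}) := by
    refine Ideal.finiteQuotientOfFreeOfNeBot _ ?_
    rwa [Ne, Ideal.span_singleton_eq_bot]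
  have hn0 : 0 < n := by rw [hn]; exact Nat.card_pos
  have hπL : (π : L) ≠ 0 := fun h => h0 (RingOfIntegers.ext h)
  have hval : ∀ u : HeightOneSpectrum (𝓞 L), u ≠ Q → u.valuation L (π : L) = 1 := fun u hu =>
    (ord_eq_zero_iff u hπL).1 (h2 u hu)
  have hu := owe_unit hN' (y := π) fun w hw => hval w fun h => by
    rw [h, hNL, hQ] at hw
    exact lt_irrefl _ hw
  rw [← hn] at hu
  obtain ⟨y, hy⟩ := Ideal.mem_span_singleton.1 hu
  refine ⟨classNumber L * n, π ^ n, ?_, ?_, ?_, y, ?_⟩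
  · exact Nat.one_le_iff_ne_zero.2 (mul_ne_zero (classNumber_ne_zero L) hn0.ne')
  · have h3 : Q.valuation L (π : L) = exp (-(classNumber L : ℤ)) := by
      have h4 : Q.valuation L (π : L) ≠ 0 := (_root_.map_ne_zero _).2 hπL
      have h5 : log (Q.valuation L (π : L)) = -(classNumber L : ℤ) := by
        have h6 : -log (Q.valuation L (π : L)) = classNumber L := h1
        rw [← h6, neg_neg]
      rw [← h5, exp_log h4]
    have h4 : ((π ^ n : 𝓞 L) : L) = (π : L) ^ n := map_pow (algebraMap (𝓞 L) L) π n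
    rw [h4, map_pow, h3, ← exp_nsmul]
    congr 1
    rw [nsmul_eq_mul]
    push_cast
    ring
  · intro Q' hQ'
    have h4 : ((π ^ n : 𝓞 L) : L) = (π : L) ^ n := map_pow (algebraMap (𝓞 L) L) π n
    rw [h4, map_pow, hval Q' hQ', one_pow]
  · rw [← hy]
    ring

end Pool.Agent.C50
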