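import Pool.Agent.Lib.MP_673eb1_lc.C50.CDat
import Pool.Agent.Lib.MP_673eb1_lc.C50.Bridge
import Pool.Agent.Lib.MP_673eb1_lc.HFb

/-!
MP_673eb1_lc, project C50: the field `hD` of `Par` (the height form is a unit at the inverted primes).
-/

set_option autoImplicit false

namespace Pool.Agent.C50

open NumberField IsDedekindDomain Pool.Agent.Lib.MP_673eb1_lc Pool.Agent.ZD Pool.Agent.ZT
  Pool.Agent.ZS WithZero

variable {q f : ℕ} [Fact q.Prime] {D : PerData q f} {K L : Type} [Field K] [NumberField K] [Field L]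
  [NumberField L] [Algebra K L]

/-- the embedding of `PR D K` -/
private noncomputable def rL (F : Fr D K L) : PR D K →+* L :=
  (F.e : LL D K →+* L).comp (algebraMap (PR D K) (LL D K))

private theorem rL_ofPR (F : Fr D K L) (x : PR D K) : rL F x = F.e (ofPR D x) := rfl

private theorem rL_sh (F : Fr D K L) (x : PR D K) : rL F (PR.sh D x) = F.T.σ (rL F x) := by
  rw [rL_ofPR, rL_ofPR, ← F.es]
  congr 1

private theorem rL_sh_iter (F : Fr D K L) (x : PR D K) (i : ℕ) :
    rL F ((PR.sh D)^[i] x) = (F.T.σ ^ i) (rL F x) := by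
  induction i with
  | zero => rfl
  | succ i ih => rw [Function.iterate_succ_apply', rL_sh, ih, pow_succ', AlgEquiv.mul_apply]

private theorem rL_alg (F : Fr D K L) (x : K) : rL F (algebraMap K (PR D K) x) = algebraMap K L x := by
  rw [← F.e.commutes x, rL_ofPR]
  congr 1

/-- the product of the factors of the height form is in `K` -/
theorem prod_hD (F : Fr D K L) (g : ℕ) (x : K) :
    ∏ i ∈ Finset.range q, ((algebraMap K L x - (F.T.σ ^ i) (F.e (ofPR D (PR.e D 0)))) ^ 2 + (g : L)) =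
      algebraMap K L (HF.Df D g x) := by
  rw [← rL_alg F (HF.Df D g x), HF.Df_spec]
  unfold HF.PR.nrm
  rw [map_prod]
  refine Finset.prod_congr rfl fun i _ => ?_
  rw [rL_sh_iter, map_add, map_pow, map_sub, map_natCast, rL_alg, map_add, map_pow, map_sub,
    AlgEquiv.commutes, map_natCast, rL_ofPR]

private theorem nat_mem {v : HeightOneSpectrum (𝓞 K)} {l n : ℕ} (hl : l.Prime) (hv : nm v = l)
    (hn : ((n : ℕ) : 𝓞 K) ∈ v.asIdeal) : l ∣ n := by
  by_contra h
  have h1 : Nat.Coprime l n := (Nat.Prime.coprime_iff_not_dvd hl).2 h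
  have h2 : ((l : ℕ) : 𝓞 K) ∈ v.asIdeal := by
    rw [← hv]
    exact Ideal.absNorm_mem _
  have h3 : (1 : 𝓞 K) ∈ v.asIdeal := by
    have h4 := Nat.gcd_eq_gcd_ab l n
    rw [Nat.Coprime.gcd_eq_one h1] at h4
    have h5 : (1 : 𝓞 K) = (l : 𝓞 K) * ((Nat.gcdA l n : ℤ) : 𝓞 K) +
        (n : 𝓞 K) * ((Nat.gcdB l n : ℤ) : 𝓞 K) := by
      have h6 := congrArg (fun z : ℤ => (z : 𝓞 K)) h4
      simpa using h6
    rw [h5]
    exact v.asIdeal.add_mem (v.asIdeal.mul_mem_right _ h2) (v.asIdeal.mul_mem_right _ hn)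
  exact v.isPrime.ne_top ((Ideal.eq_top_iff_one _).2 h3)

private theorem not_sq {l g : ℕ} (h : ∀ x : ℤ, ¬ ((l : ℤ) ∣ x ^ 2 + g)) :
    ¬ IsSquare (((-(g : ℤ)) : ℤ) : ZMod l) := by
  rintro ⟨y, hy⟩
  obtain ⟨z, rfl⟩ := ZMod.intCast_surjective y
  apply h z
  rw [← ZMod.intCast_zmod_eq_zero_iff_dvd]
  push_cast at hy ⊢
  linear_combination -hy

/-- the field `hD` -/
theorem hD_par (F : Fr D K L) (c : CDat F) {W : Set (HeightOneSpectrum (𝓞 K))} (hW : c.Ok W) :
    ∀ v ∈ W, ∀ w ∈ abv L v, ∀ x : K, w.valuation L (algebraMap K L x) ≤ 1 →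
      ∀ i < q, w.valuation L ((algebraMap K L x -
        (F.T.σ ^ i) (F.e (ofPR D (PR.e D 0)))) ^ 2 + (c.g : L)) = 1 := by
  intro v hv w hw x hx
  have hu : w.under (𝓞 K) = v := hw
  have hxv : v.valuation K x ≤ 1 := by
    by_contra hlt
    push Not at hlt
    have h1 : v.valuation K x⁻¹ < 1 := by
      rw [map_inv₀]
      exact inv_lt_one_of_one_lt₀ hlt
    have h2 := (val_under w x⁻¹).1
    rw [hu, map_inv₀, map_inv₀] at h2
    have h3 := h2.2 h1
    have h4 : 1 < w.valuation L (algebraMap K L x) := by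
      by_contra h5
      push Not at h5
      have h6 : w.valuation L (algebraMap K L x) ≠ 0 := by
        rw [Valuation.ne_zero_iff, Ne, map_eq_zero]
        rintro rfl
        rw [map_zero] at hlt
        exact absurd hlt (by simp)
      have h7 := mul_lt_one_of_nonneg_of_lt_one_left (a := (w.valuation L (algebraMap K L x))⁻¹)
        zero_le h3 h5
      rw [inv_mul_cancel₀ h6] at h7
      exact absurd h7 (lt_irrefl _)
    exact absurd hx (not_le.2 h4)
  -- the form is a unit at `v`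
  have hval : v.valuation K (HF.Df D c.g x) = 1 := by
    have h0 : v.valuation K (HF.Df D c.g x) = max 1 (v.valuation K x) ^ (2 * q) := by
      rcases hW.2 v hv with ⟨i, rfl⟩ | ⟨h1, -⟩
      · refine HF.val_Df_deg1 D c.g (c.v i) ?_ ?_ ?_ x
        · rw [c.nmv]
          exact c.lp i
        · intro h1
          exact c.lf i ((nat_mem (c.lp i) (c.nmv i) h1).mul_left 2)
        · rw [c.nmv]
          exact not_sq (c.hg i)
      · exact HF.val_Df_inert D c.g v h1 x
    rw [h0, max_eq_left hxv, one_pow]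
  have hprod : ∏ i ∈ Finset.range q, w.valuation L ((algebraMap K L x -
      (F.T.σ ^ i) (F.e (ofPR D (PR.e D 0)))) ^ 2 + (c.g : L)) = 1 := by
    rw [← map_prod, prod_hD]
    have h1 := (val_under w (HF.Df D c.g x)).2
    rw [hu] at h1
    exact h1.2 hval
  have hle : ∀ i, w.valuation L ((algebraMap K L x -
      (F.T.σ ^ i) (F.e (ofPR D (PR.e D 0)))) ^ 2 + (c.g : L)) ≤ 1 := by
    intro i
    have h1 : IsIntegral ℤ ((F.T.σ ^ i) (F.e (ofPR D (PR.e D 0)))) := (int_e F 0).map (F.T.σ ^ i)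
    have h2 : w.valuation L ((F.T.σ ^ i) (F.e (ofPR D (PR.e D 0)))) ≤ 1 :=
      w.valuation_le_one (⟨_, h1⟩ : 𝓞 L)
    refine ((w.valuation L).map_add _ _).trans (max_le ?_ (val_nat_le w _))
    rw [map_pow]
    exact pow_le_one' (((w.valuation L).map_sub _ _).trans (max_le hx h2)) 2
  intro i hi
  by_contra hne
  have hlt := lt_of_le_of_ne (hle i) hne
  have h1 : ∏ i ∈ Finset.range q, w.valuation L ((algebraMap K L x -
      (F.T.σ ^ i) (F.e (ofPR D (PR.e D 0)))) ^ 2 + (c.g : L)) < 1 := by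
    rw [← Finset.mul_prod_erase _ _ (Finset.mem_range.2 hi)]
    refine (mul_le_of_le_one_right' ?_).trans_lt hlt
    exact Finset.prod_le_one' fun j _ => hle j
  exact absurd hprod h1.ne

end Pool.Agent.C50
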