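import Pool.Agent.Lib.MP_673eb1_lc.C50.Snd
import Pool.Agent.Lib.MP_673eb1_lc.C50.ParHD

/-!
MP_673eb1_lc, project C50: soundness `S_Snd`.
-/

set_option autoImplicit false

open NumberField IsDedekindDomain

namespace Pool.Agent.C50

theorem snd : S_Snd :=
  snd_of fun _ _ _ _ _ _ _ _ _ _ _ F c _ _ hW => hD_par F c hW

end Pool.Agent.C50
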