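import Pool.Agent.Lib.MP_673eb1_lc.C50.CDat
import Pool.Agent.Lib.MP_673eb1_lc.C50.Enc
import Pool.Agent.Lib.MP_673eb1_lc.DioF
import Pool.Agent.Lib.MP_673eb1_lc.LInt

/-!
MP_673eb1_lc, project C50: assembly. Completeness, soundness and the existence of the data imply Theorem TR.
-/

set_option autoImplicit false

open NumberField IsDedekindDomain

namespace Pool.Agent.C50

open Pool.Agent.Lib.MP_673eb1_lc Pool.Agent.ZD Pool.Agent.ZT

/-- the primes which contain a nonzero natural number -/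
private theorem tr_fin {K : Type} [Field K] [NumberField K] (n : ℕ) (hn : n ≠ 0) :
    {v : HeightOneSpectrum (𝓞 K) | (n : 𝓞 K) ∈ v.asIdeal}.Finite := by
  have h1 : (Ideal.span {(n : 𝓞 K)}) ≠ 0 := by
    rw [Ne, Ideal.zero_eq_bot, Ideal.span_singleton_eq_bot]
    exact Nat.cast_ne_zero.2 hn
  refine (Ideal.finite_factors h1).subset fun v hv => ?_
  change v.asIdeal ∣ _
  rw [Ideal.dvd_span_singleton]
  exact hv

/-- there is a prime above every prime number -/
private theorem tr_above {K : Type} [Field K] [NumberField K] (p : ℕ) (hp : p.Prime) :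
    ∃ v : HeightOneSpectrum (𝓞 K), (p : 𝓞 K) ∈ v.asIdeal := by
  have hnu : ¬ IsUnit (p : 𝓞 K) := by
    intro hu
    have h1 : IsUnit ((p : ℕ) : ℤ) := by
      have h2 : IsUnit (Algebra.norm ℤ ((p : ℕ) : 𝓞 K)) := hu.map _
      have h3 : Algebra.norm ℤ ((p : ℕ) : 𝓞 K) = (p : ℤ) ^ Module.finrank ℤ (𝓞 K) := by
        have := Algebra.norm_algebraMap (S := 𝓞 K) (p : ℤ)
        rw [← this]
        congr 1
        rw [eq_intCast, Int.cast_natCast]
      rw [h3] at h2
      have h4 : 0 < Module.finrank ℤ (𝓞 K) := by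
        rw [RingOfIntegers.rank]
        exact Module.finrank_pos
      exact (isUnit_pow_iff h4.ne').1 h2
    have h5 := Int.isUnit_iff_natAbs_eq.1 h1
    rw [Int.natAbs_natCast] at h5
    exact hp.one_lt.ne' h5
  obtain ⟨M, hM, hpM⟩ := exists_max_ideal_of_mem_nonunits (mem_nonunits_iff.2 hnu)
  refine ⟨⟨M, hM.isPrime, ?_⟩, hpM⟩
  rintro rfl
  rw [Ideal.mem_bot] at hpM
  exact hp.ne_zero (by exact_mod_cast hpM)

/-- a prime of prime norm `l` contains the prime number `p` only if `p = l` -/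
private theorem tr_nm {K : Type} [Field K] [NumberField K] {v : HeightOneSpectrum (𝓞 K)} {l p : ℕ}
    (hl : l.Prime) (hp : p.Prime) (hv : nm v = l) (h : (p : 𝓞 K) ∈ v.asIdeal) : p = l := by
  by_contra hne
  have h1 : (l : 𝓞 K) ∈ v.asIdeal := by
    rw [← hv]
    exact Ideal.absNorm_mem v.asIdeal
  have h2 : IsCoprime (p : ℤ) (l : ℤ) := by
    rw [Nat.isCoprime_iff_coprime]
    exact (Nat.coprime_primes hp hl).2 hne
  obtain ⟨a, b, hab⟩ := h2
  apply v.isPrime.ne_top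
  rw [Ideal.eq_top_iff_one]
  have h3 : (1 : 𝓞 K) = a * p + b * l := by
    have := congrArg (Int.cast (R := 𝓞 K)) hab
    push_cast at this
    rw [← this]
  rw [h3]
  exact v.asIdeal.add_mem (Ideal.mul_mem_left _ _ h) (Ideal.mul_mem_left _ _ h1)

/-- **Theorem TR** from completeness, soundness and the existence of the data. -/
theorem tr_of (hComp : S_Comp) (hSnd : S_Snd) (hDat : S_Dat) : S_TR := by
  intro K _ _ hK K' _ _ _ _ ε hε
  obtain ⟨q, f, hq, D, L, _, _, _, F, c, h1, h2, h3⟩ := hDat K K' ε hε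
  -- the number
  obtain ⟨n, hn⟩ : ∃ n : ℕ, n = 2 * c.C * c.hcl * c.m2 * c.l 0 * c.l 1 * c.l 2 * f := ⟨_, rfl⟩
  have hm2 : c.m2 ≠ 0 := by
    intro h
    apply c.pm
    rw [h, mul_zero]
    exact dvd_zero _
  have hn0 : n ≠ 0 := by
    rw [hn]
    refine mul_ne_zero (mul_ne_zero (mul_ne_zero (mul_ne_zero (mul_ne_zero (mul_ne_zero
      (mul_ne_zero two_ne_zero c.C0) c.hcl0.ne') hm2) (c.lp 0).ne_zero) (c.lp 1).ne_zero)
      (c.lp 2).ne_zero) D.hf.ne_zero
  have hdiv : ∀ (k : ℕ) (v : HeightOneSpectrum (𝓞 K)), k ∣ n → (k : 𝓞 K) ∈ v.asIdeal →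
      (n : 𝓞 K) ∈ v.asIdeal := by
    rintro k v ⟨r, hr⟩ hk
    rw [hr, Nat.cast_mul]
    exact Ideal.mul_mem_right _ _ hk
  refine ⟨q, f, hq, D, {v | (n : 𝓞 K) ∈ v.asIdeal}, c.v, h1, h2, tr_fin n hn0, ?_, h3, ?_, ?_⟩
  · intro i j hij
    apply c.linj
    rw [← c.nmv i, ← c.nmv j, hij]
  · intro v hv
    exact hdiv 2 v ⟨c.C * c.hcl * c.m2 * c.l 0 * c.l 1 * c.l 2 * f, by rw [hn]; ring⟩ hv
  · intro W hW1 hW2
    -- two visible primes
    have hvis : ∀ p : ℕ, p.Prime → p ∣ n → (∀ i, ((p : ℕ) : 𝓞 K) ∉ (c.v i).asIdeal) →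
        ∃ v : HeightOneSpectrum (𝓞 K), v ∉ W ∧ ((p : ℕ) : 𝓞 K) ∈ v.asIdeal := by
      intro p hp hpn hpi
      obtain ⟨v, hv⟩ := tr_above (K := K) p hp
      refine ⟨v, fun hvW => ?_, hv⟩
      rcases hW2 v hvW with ⟨i, rfl⟩ | ⟨h4, -⟩
      · exact hpi i hv
      · exact h4 (hdiv p v hpn hv)
    have hf2 : (2 : ℕ) ≠ f := by
      intro h
      have h5 := D.hfh
      rw [← h] at h5
      have h6 : 2 < q := lt_of_le_of_ne hq.out.two_le (Ne.symm D.hodd)
      rw [Nat.mod_eq_of_lt h6] at h5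
      omega
    have hG : GoodR (Wring K W) := by
      refine goodR_Wring W 2 f Nat.prime_two D.hf hf2 (hvis 2 Nat.prime_two ?_ ?_)
        (hvis f D.hf ?_ fun i => (h3 i).2.2.1)
      · exact ⟨c.C * c.hcl * c.m2 * c.l 0 * c.l 1 * c.l 2 * f, by rw [hn]; ring⟩
      · intro i h
        have h5 := tr_nm (c.lp i) Nat.prime_two (c.nmv i) h
        have h6 := c.l4 i
        rw [← h5] at h6
        omega
      · exact ⟨2 * c.C * c.hcl * c.m2 * c.l 0 * c.l 1 * c.l 2, by rw [hn]; ring⟩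
    have hOk : c.Ok W := by
      refine ⟨hW1, fun v hv => ?_⟩
      rcases hW2 v hv with h4 | ⟨h4, h5⟩
      · exact Or.inl h4
      · exact Or.inr ⟨h5, fun h6 => h4 (hdiv _ v ⟨f, hn⟩ h6)⟩
    obtain ⟨c0, hc0⟩ := hSnd q f D K L F c W hK hOk
    have hV : ∀ i, Dio (Wring K W) ((c.sp c0).V i) := by
      intro i
      have h5 := (h3 i).1.2.2
      rw [c.nmv i] at h5
      exact dio_lint (Wring K W) hG (c.v i) (c.l i) (c.lp i) (c.nmv i) h5 (c.l4 i)
    have hD := dio_Sys (R := Wring K W) (c.sp c0) hG hV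
    have hset : {x : K | ∃ m : ℤ, (m : K) = x} =
        {t : K | Sys (c.sp c0) (Wring K W : Set K) t} := by
      ext t
      constructor
      · rintro ⟨z, rfl⟩
        refine Sys.mono ?_ (hComp q f D K L F c c0 z)
        intro x hx v hv
        refine hx v fun h => hv ?_
        obtain ⟨i, rfl⟩ := h
        exact hW1 i
      · intro ht
        obtain ⟨z, hz⟩ := hc0 t ht
        exact ⟨z, hz.symm⟩
    rw [hset]
    exact hD

end Pool.Agent.C50
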