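import Pool.Agent.Lib.MP_673eb1_lc.C50.Comp
import Pool.Agent.Lib.MP_673eb1_lc.C50.CmpC
import Pool.Agent.Lib.MP_673eb1_lc.C50.BR1
import Pool.Agent.Lib.MP_673eb1_lc.C50.OWE
import Pool.Agent.Lib.MP_673eb1_lc.C50.SndM
import Pool.Agent.Lib.MP_673eb1_lc.C50.TR
import Pool.Agent.Lib.MP_673eb1_lc.C50.Dat
import Pool.Agent.Lib.MP_673eb1_lc.PDI

/-!
MP_673eb1_lc, project C50: Theorem TR, assembled.
-/

set_option autoImplicit false

open NumberField IsDedekindDomain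

namespace Pool.Agent.C50

open Pool.Agent.Lib.MP_673eb1_lc Pool.Agent.ZD Pool.Agent.ZT

/-- the splitting fact -/
theorem spl : S_Spl := fun _ _ _ D _ _ _ _ _ _ _ _ F v h0 hp h4 hf =>
  mem_Spl_of_deg1 D F.e v hf hp h4 h0

/-- **Theorem TR**, from the remaining piece. -/
theorem main_of (hB : S_BR0) : S_TR :=
  tr_of (comp_of owe_ord (ex owe_wch owe_exp) hB) snd (dat_of spl br1)

end Pool.Agent.C50
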