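import Pool.Agent.Lib.MP_673eb1_lc.Defs
import Pool.Agent.Lib.MP_673eb1_lc.DefsDio

/-!
MP_673eb1_lc, project C50: the system `Sys R t` which defines the integers over the ring `R`.

`K` is totally real, `L = QR D (-1 : K) = (K ⊗ ℤ[e_c])[i]`, of degree `2 q` over `K`;
`σ = QR.sg D (-1)`, `τ = star` (complex conjugation).  All conditions are in coordinates.
-/

set_option autoImplicit false

open NumberField IsDedekindDomain

namespace Pool.Agent.C50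

open Pool.Agent.Lib.MP_673eb1_lc

variable {q f : ℕ} [Fact q.Prime] {K : Type} [Field K]

/-- The field `L`. -/
abbrev LL (D : PerData q f) (K : Type) [Field K] : Type := QR D (-1 : K)

/-- The coordinates of an element of `L`. -/
def co (D : PerData q f) (y : LL D K) (j : Bool × ZMod q) : K := if j.1 then y.im j.2 else y.re j.2

/-- All coordinates are in the set `R`. -/
def InR (D : PerData q f) (R : Set K) (y : LL D K) : Prop := ∀ j, co D y j ∈ R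

/-- The automorphism `σ`. -/
abbrev sL (D : PerData q f) (y : LL D K) : LL D K := QR.sg D (-1 : K) y

/-- The inclusion of `PR D K` in `L`. -/
def ofPR (D : PerData q f) (x : PR D K) : LL D K := ⟨x, 0⟩

/-- The height form `D(X) = ∏_c ((X - e_c)² + g)` (an element of `K`, here as an element of `L`). -/
noncomputable def hD (D : PerData q f) (g : ℕ) (x : K) : LL D K :=
  ∏ c : ZMod q, ((algebraMap K (LL D K) x - ofPR D (PR.e D c)) ^ 2 + (g : LL D K))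

/-- The norm `N_{L/K}` (as an element of `L`). -/
noncomputable def nL (D : PerData q f) (w : LL D K) : LL D K :=
  ∏ i ∈ Finset.range q, ((sL D)^[i] w * star ((sL D)^[i] w))

/-- The parameters of the system: `v i` = the primes `p_1, p_2, p_3`, `l i` their norms (prime numbers),
`P` the element `P_1*`, `m` and `mu` exponents, `g` the constant of the height form, `c`, `c0` the
constants of the `p_3`-adic conditions. -/
structure SPar (D : PerData q f) (K : Type) [Field K] [NumberField K] where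
  v : Fin 3 → HeightOneSpectrum (𝓞 K)
  l : Fin 3 → ℕ
  P : LL D K
  m : ℕ
  mu : ℕ
  g : ℕ
  c : ℕ
  c0 : ℕ

variable [NumberField K] {D : PerData q f}

/-- The valuation ring of `p_i`. -/
def SPar.V (A : SPar D K) (i : Fin 3) : Set K := {x | (A.v i).valuation K x ≤ 1}

/-- `X = 0 mod p^(c M + c0)`, where `M` is the pole order of `S` at `p_3`: for all coordinates `S_j` of `S` the
coordinates of `S_j ^ c X` are divisible by `p ^ c0` (`p_3`-adically). -/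
def SPar.Sm (A : SPar D K) (S X : LL D K) : Prop :=
  ∀ j j', (co D S j) ^ A.c * co D X j' / (A.l 2 : K) ^ A.c0 ∈ A.V 2

/-- **The system.** -/
def Sys (A : SPar D K) (R : Set K) (t : K) : Prop :=
  ∃ S k a c G b d w : LL D K,
    -- the seven elements of the torus
    (QR.IsT D (-1 : K) S ∧ InR D R S ∧ InR D (A.V 0) S ∧ InR D (A.V 1) S) ∧
    (QR.IsT D (-1 : K) k ∧ InR D R k ∧ InR D (A.V 1) k ∧ InR D (A.V 2) k) ∧
    (QR.IsT D (-1 : K) a ∧ InR D R a ∧ InR D (A.V 1) a ∧ InR D (A.V 2) a) ∧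
    (QR.IsT D (-1 : K) c ∧ InR D R c ∧ InR D (A.V 1) c ∧ InR D (A.V 2) c) ∧
    (QR.IsT D (-1 : K) G ∧ InR D R G ∧ InR D (A.V 1) G ∧ InR D (A.V 2) G) ∧
    (QR.IsT D (-1 : K) b ∧ InR D R b ∧ InR D (A.V 0) b ∧ InR D (A.V 2) b) ∧
    (QR.IsT D (-1 : K) d ∧ InR D R d ∧ InR D (A.V 0) d ∧ InR D (A.V 2) d) ∧
    -- (0)
    (t ∈ R ∧ t ∈ A.V 2) ∧
    -- (1)
    S ≠ 1 ∧ (∃ z, InR D R z ∧ S - 1 = hD D A.g t * z) ∧
    (∀ j, ∃ z, InR D R z ∧ S - 1 = hD D A.g (co D (k ^ A.m) j) * z) ∧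
    -- (2)
    (∃ w' : LL D K, InR D R w' ∧ (∀ i, InR D (A.V i) w') ∧
      w = 1 + ((A.l 0 * A.l 1 * A.l 2 : ℕ) : LL D K) * w') ∧
    (w * star (sL D w)) ^ A.mu ≠ (sL D w * star w) ^ A.mu ∧
    -- (3)
    (∃ z, InR D R z ∧ ∑ i ∈ Finset.range (A.l 2), (G ^ A.m) ^ i = w * z) ∧
    -- (4)
    (∃ z, InR D R z ∧ a ^ A.m - b ^ A.m = nL D w * z) ∧
    (∃ z, InR D R z ∧ c ^ A.m - d ^ A.m = nL D w * z) ∧
    -- (5)
    A.Sm S (a ^ A.m - A.P ^ A.m) ∧ A.Sm S (c ^ A.m - k ^ A.m) ∧ A.Sm S (b ^ A.m - 1) ∧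
    A.Sm S (G ^ A.m - 1) ∧ b ^ A.m ≠ 1 ∧
    ∃ ga : LL D K, A.Sm S ga ∧
      (d ^ A.m - 1) - algebraMap K (LL D K) t * (b ^ A.m - 1) = (b ^ A.m - 1) * ga

/-- The system is monotone in `R`. -/
theorem Sys.mono {A : SPar D K} {R R' : Set K} (h : R ⊆ R') {t : K} (ht : Sys A R t) :
    Sys A R' t := by
  have hi : ∀ {y : LL D K}, InR D R y → InR D R' y := fun hy j => h (hy j)
  obtain ⟨S, k, a, c, G, b, d, w, h1, h2, h3, h4, h5, h6, h7, h8, h9, ⟨z1, hz1, e1⟩, h11,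
    ⟨w', hw', hw2, e2⟩, h13, ⟨z3, hz3, e3⟩, ⟨z4, hz4, e4⟩, ⟨z5, hz5, e5⟩, h17, h18, h19, h20, h21,
    h22⟩ := ht
  refine ⟨S, k, a, c, G, b, d, w, ⟨h1.1, hi h1.2.1, h1.2.2⟩, ⟨h2.1, hi h2.2.1, h2.2.2⟩,
    ⟨h3.1, hi h3.2.1, h3.2.2⟩, ⟨h4.1, hi h4.2.1, h4.2.2⟩, ⟨h5.1, hi h5.2.1, h5.2.2⟩,
    ⟨h6.1, hi h6.2.1, h6.2.2⟩, ⟨h7.1, hi h7.2.1, h7.2.2⟩, ⟨h h8.1, h8.2⟩, h9, ⟨z1, hi hz1, e1⟩, ?_,
    ⟨w', hi hw', hw2, e2⟩, h13, ⟨z3, hi hz3, e3⟩, ⟨z4, hi hz4, e4⟩, ⟨z5, hi hz5, e5⟩, h17, h18, h19,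
    h20, h21, h22⟩
  intro j
  obtain ⟨z, hz, e⟩ := h11 j
  exact ⟨z, hi hz, e⟩

end Pool.Agent.C50
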