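import Pool.Agent.Lib.MP_673eb1_lc.PDD
import Pool.Agent.Lib.MP_673eb1_lc.C50.Sys

/-!
MP_673eb1_lc, project C50: the norm one elements of `LL D K` have integral coordinates at the inert primes (AN).
-/

set_option autoImplicit false

open NumberField IsDedekindDomain

namespace Pool.Agent.Lib.MP_673eb1_lc

open Pool.Agent.ZD

variable {h f : ℕ} [Fact h.Prime] (D : PerData h f)

section

variable {S S' : Type*} [CommRing S] [CommRing S']

theorem QR.map_sg (a : S) (φ : S →+* S') (y : QR D a) :
    QR.map D a φ (QR.sg D a y) = QR.sg D (φ a) (QR.map D a φ y) := rfl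

theorem QR.map_sg_iter (a : S) (φ : S →+* S') (i : ℕ) (y : QR D a) :
    QR.map D a φ ((QR.sg D a)^[i] y) = (QR.sg D (φ a))^[i] (QR.map D a φ y) := by
  induction i generalizing y with
  | zero => rfl
  | succ i ih => rw [Function.iterate_succ_apply, Function.iterate_succ_apply, ih, QR.map_sg]

theorem QR.map_prod_sg (a : S) (φ : S →+* S') (y : QR D a) :
    QR.map D a φ (∏ i ∈ Finset.range h, (QR.sg D a)^[i] y) =
      ∏ i ∈ Finset.range h, (QR.sg D (φ a))^[i] (QR.map D a φ y) := by
  rw [map_prod]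
  exact Finset.prod_congr rfl fun i _ => QR.map_sg_iter D a φ i y

end

variable {K : Type} [Field K] [NumberField K] {v : HeightOneSpectrum (𝓞 K)}

omit [NumberField K] in
theorem QR.sg_smul (a : K) (c : K) (i : ℕ) (y : QR D a) :
    (QR.sg D a)^[i] (c • y) = c • (QR.sg D a)^[i] y := by
  rw [QR.sg_iterate, QR.sg_iterate]
  refine QuadraticAlgebra.ext ?_ ?_
  · ext k
    simp [PR.sh_iterate]
  · ext k
    simp [PR.sh_iterate]

/-- **(AN)** -/
theorem QR.coord_le {a : K} (a₀ : 𝓞 K) (ha : algebraMap (𝓞 K) K a₀ = a) (ha0 : a₀ ∉ v.asIdeal)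
    (hv : Inert D v) (h2 : ((2 : ℕ) : 𝓞 K) ∉ v.asIdeal) (y : QR D a)
    (hy : ∏ i ∈ Finset.range h, (QR.sg D a)^[i] y = 1) :
    (∀ c, v.valuation K (y.re c) ≤ 1) ∧ ∀ c, v.valuation K (y.im c) ≤ 1 := by
  subst ha
  have hh : h ≠ 0 := (Fact.out : h.Prime).ne_zero
  obtain ⟨x, hx⟩ : ∃ x : Bool × ZMod h → K, ∀ j, x j = if j.1 then y.im j.2 else y.re j.2 :=
    ⟨_, fun _ => rfl⟩
  have key : ∀ j, v.valuation K (x j) ≤ 1 := by
    by_contra hcon
    push Not at hcon
    obtain ⟨j, hj⟩ := hcon
    have hj0 : x j ≠ 0 := by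
      intro h0
      rw [h0, map_zero] at hj
      exact not_lt.2 zero_le hj
    obtain ⟨c, X, i₀, hc0, hX, hmem, hmax, hval⟩ := exists_prim v (ι := Bool × ZMod h) x j hj0
    have hc1 : v.valuation K c < 1 := by
      have h3 : 1 < v.valuation K (x i₀) := hj.trans_le (hmax j)
      by_contra h4
      push Not at h4
      have h5 : 1 < v.valuation K c * v.valuation K (x i₀) :=
        h3.trans_le (le_mul_of_one_le_left zero_le h4)
      rw [hval] at h5
      exact lt_irrefl _ h5
    -- the integral element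
    obtain ⟨Y, hY⟩ : ∃ Y : QR D a₀, Y = ⟨fun k => X (false, k), fun k => X (true, k)⟩ := ⟨_, rfl⟩
    have hYm : QR.map D a₀ (algebraMap (𝓞 K) K) Y = c • y := by
      refine QuadraticAlgebra.ext ?_ ?_
      · ext k
        have h3 := hX (false, k)
        rw [hx] at h3
        rw [hY]
        exact h3.symm
      · ext k
        have h3 := hX (true, k)
        rw [hx] at h3
        rw [hY]
        exact h3.symm
    have hprod : QR.map D a₀ (algebraMap (𝓞 K) K) (∏ i ∈ Finset.range h, (QR.sg D a₀)^[i] Y) =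
        (c ^ h) • (1 : QR D (algebraMap (𝓞 K) K a₀)) := by
      rw [QR.map_prod_sg, hYm]
      simp only [QR.sg_smul]
      rw [← hy, Finset.prod_congr rfl fun i _ => Algebra.smul_def c _, Finset.prod_mul_distrib,
        Finset.prod_const, Finset.card_range, ← map_pow, ← Algebra.smul_def]
    have hcoord : ∀ k, (∏ i ∈ Finset.range h, (QR.sg D a₀)^[i] Y).re k ∈ v.asIdeal ∧
        (∏ i ∈ Finset.range h, (QR.sg D a₀)^[i] Y).im k ∈ v.asIdeal := by
      intro k
      obtain ⟨Z, hZ⟩ : ∃ Z, Z = ∏ i ∈ Finset.range h, (QR.sg D a₀)^[i] Y := ⟨_, rfl⟩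
      rw [← hZ] at hprod ⊢
      have hck : v.valuation K (c ^ h) < 1 := by
        rw [map_pow]
        exact pow_lt_one₀ zero_le hc1 hh
      constructor
      · have h4 : algebraMap (𝓞 K) K (Z.re k) = -(c ^ h) := by
          have h5 := congrArg (fun z : QR D (algebraMap (𝓞 K) K a₀) => z.re k) hprod
          have h6 : ((c ^ h) • (1 : QR D (algebraMap (𝓞 K) K a₀))).re k = -(c ^ h) := by
            change c ^ h * (1 : PR D K) k = -(c ^ h)
            rw [PR.one_apply]
            ring
          rw [← h6]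
          exact h5
        have h9 : v.valuation K (algebraMap (𝓞 K) K (Z.re k)) < 1 := by
          rw [h4, Valuation.map_neg]
          exact hck
        exact (v.valuation_lt_one_iff_mem (K := K) _).1 h9
      · have h4 : algebraMap (𝓞 K) K (Z.im k) = 0 := by
          have h5 := congrArg (fun z : QR D (algebraMap (𝓞 K) K a₀) => z.im k) hprod
          have h6 : ((c ^ h) • (1 : QR D (algebraMap (𝓞 K) K a₀))).im k = 0 := by
            change c ^ h * (0 : PR D K) k = 0
            rw [PR.zero_apply, mul_zero]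
          rw [← h6]
          exact h5
        have h9 : v.valuation K (algebraMap (𝓞 K) K (Z.im k)) < 1 := by
          rw [h4, map_zero]
          exact zero_lt_one
        exact (v.valuation_lt_one_iff_mem (K := K) _).1 h9
    -- reduction
    have := finite_residue v
    let _ : Fintype (𝓞 K ⧸ v.asIdeal) := Fintype.ofFinite _
    have : v.asIdeal.IsMaximal := v.isMaximal
    let _ : Field (𝓞 K ⧸ v.asIdeal) := Ideal.Quotient.field v.asIdeal
    have hcard : Fintype.card (𝓞 K ⧸ v.asIdeal) = nm v := by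
      rw [← Nat.card_eq_fintype_card, card_residue]
    have hodd : Odd (Fintype.card (𝓞 K ⧸ v.asIdeal)) := by
      rw [hcard]
      exact Nat.coprime_two_right.1 (coprime_nm Nat.prime_two h2)
    have h7 : QR.map D a₀ (Ideal.Quotient.mk v.asIdeal) Y = 0 := by
      refine QR.aniso D (k := 𝓞 K ⧸ v.asIdeal) ?_ ?_ hodd _ ?_ _ ?_
      · rw [hcard]
        exact coprime_nm D.hf hv.1
      · rw [hcard]
        exact hv.2
      · intro h8
        exact ha0 (Ideal.Quotient.eq_zero_iff_mem.1 h8)
      · rw [← QR.map_prod_sg]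
        refine QuadraticAlgebra.ext ?_ ?_
        · ext k
          exact Ideal.Quotient.eq_zero_iff_mem.2 (hcoord k).1
        · ext k
          exact Ideal.Quotient.eq_zero_iff_mem.2 (hcoord k).2
    apply hmem
    rw [← Ideal.Quotient.eq_zero_iff_mem]
    obtain ⟨b, k⟩ := i₀
    cases b
    · have h8 := congrArg (fun z : QR D (Ideal.Quotient.mk v.asIdeal a₀) => z.re k) h7
      rw [hY] at h8
      exact h8
    · have h8 := congrArg (fun z : QR D (Ideal.Quotient.mk v.asIdeal a₀) => z.im k) h7
      rw [hY] at h8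
      exact h8
  constructor
  · intro c
    have h3 := key (false, c)
    rw [hx] at h3
    exact h3
  · intro c
    have h3 := key (true, c)
    rw [hx] at h3
    exact h3

end Pool.Agent.Lib.MP_673eb1_lc

namespace Pool.Agent.C50

open Pool.Agent.Lib.MP_673eb1_lc

/-- **(AN)** for `LL D K` -/
theorem co_le {q f : ℕ} [Fact q.Prime] (D : PerData q f) {K : Type} [Field K] [NumberField K]
    {v : HeightOneSpectrum (𝓞 K)} (hv : Inert D v) (h2 : ((2 : ℕ) : 𝓞 K) ∉ v.asIdeal) (y : LL D K)
    (hy : ∏ i ∈ Finset.range q, (QR.sg D (-1 : K))^[i] y = 1) (j : Bool × ZMod q) :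
    v.valuation K (co D y j) ≤ 1 := by
  have h1 := QR.coord_le D (a := (-1 : K)) (-1 : 𝓞 K) (by rw [map_neg, map_one]) (by
    intro h3
    apply v.isPrime.ne_top
    rw [Ideal.eq_top_iff_one]
    have := v.asIdeal.neg_mem h3
    rwa [neg_neg] at this) hv h2 y hy
  obtain ⟨b, c⟩ := j
  cases b
  · exact h1.1 c
  · exact h1.2 c

end Pool.Agent.C50
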