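import Pool.Agent.Lib.MP_673eb1_lc.C50.CDat
import Pool.Agent.Lib.MP_673eb1_lc.C50.Cond
import Pool.Agent.Lib.MP_673eb1_lc.C50.Enc
import Pool.Agent.Lib.MP_673eb1_lc.C50.ParAN
import Pool.Agent.Lib.MP_673eb1_lc.PDG
import Pool.Agent.Lib.MP_673eb1_lc.HFb
import Pool.Agent.Lib.ZT.StrG
import Pool.Agent.Lib.ZT.Pak

/-!
MP_673eb1_lc, project C50: preparations for `CDat.par` (the parameters `Par` from the data `CDat`).
-/

set_option autoImplicit false

open NumberField IsDedekindDomain

namespace Pool.Agent.C50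

open Pool.Agent.Lib.MP_673eb1_lc Pool.Agent.ZD Pool.Agent.ZT WithZero

section gen

variable {L : Type} [Field L] [NumberField L]

/-- the orders of a generator of a power of a prime -/
theorem ord_of_span {w : HeightOneSpectrum (𝓞 L)} {π : 𝓞 L} {n : ℕ}
    (h : Ideal.span {π} = w.asIdeal ^ n) : (π : L) ≠ 0 ∧ ord w (π : L) = n ∧
      ∀ w', w' ≠ w → ord w' (π : L) = 0 := by
  have hπ0 : π ≠ 0 := by
    rintro rfl
    rw [Ideal.span_singleton_zero] at h
    exact pow_ne_zero _ w.ne_bot h.symm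
  refine ⟨fun h0 => hπ0 (RingOfIntegers.ext h0), ?_, fun w' hw' => ?_⟩
  · unfold ord
    rw [HeightOneSpectrum.valuation_of_algebraMap, w.intValuation_eq_exp_neg_multiplicity hπ0, h,
      log_exp, neg_neg]
    congr 1
    exact multiplicity_pow_self w.ne_bot (by
      rw [Ideal.isUnit_iff]
      exact w.isPrime.ne_top) _
  · unfold ord
    rw [HeightOneSpectrum.valuation_of_algebraMap]
    have h2 : w'.intValuation π = 1 := by
      rw [HeightOneSpectrum.intValuation_eq_one_iff]
      intro h3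
      apply hw'
      have h4 : Ideal.span {π} ≤ w'.asIdeal := (Ideal.span_singleton_le_iff_mem _).2 h3
      rw [h] at h4
      have h5 := w'.isPrime.le_of_pow_le h4
      exact (HeightOneSpectrum.ext ((w.isMaximal.eq_of_le w'.isPrime.ne_top h5))).symm
    rw [h2, log_one, neg_zero]

/-- a natural number which is prime to the norm is a unit -/
theorem val_nat_oneS {v : HeightOneSpectrum (𝓞 L)} {l : ℕ} (hl : l.Prime) (hv : nm v = l) {n : ℕ}
    (hn : ¬ l ∣ n) : v.valuation L (n : L) = 1 := by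
  have h1 : ((n : ℕ) : 𝓞 L) ∉ v.asIdeal := by
    intro hmem
    have h2 : l.Coprime n := (Nat.Prime.coprime_iff_not_dvd hl).2 hn
    obtain ⟨a, b, hab⟩ := Nat.isCoprime_iff_coprime.2 h2
    apply v.isPrime.ne_top
    rw [Ideal.eq_top_iff_one]
    have h4 : (1 : 𝓞 L) = (a : 𝓞 L) * ((l : ℕ) : 𝓞 L) + (b : 𝓞 L) * ((n : ℕ) : 𝓞 L) := by
      have := congrArg (Int.cast : ℤ → 𝓞 L) hab
      push_cast at this
      exact this.symm
    rw [h4]
    refine v.asIdeal.add_mem (v.asIdeal.mul_mem_left _ ?_) (v.asIdeal.mul_mem_left _ hmem)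
    rw [← hv]
    exact nm_mem v
  have h5 : algebraMap (𝓞 L) L (n : 𝓞 L) = (n : L) := map_natCast _ n
  rw [← h5, HeightOneSpectrum.valuation_eq_one_iff_notMem]
  exact h1

/-- a divisor of a number prime to `v` is a unit at `v` -/
theorem val_nat_one_of_notMem {v : HeightOneSpectrum (𝓞 L)} {N n : ℕ} (hN : ((N : ℕ) : 𝓞 L) ∉ v.asIdeal)
    (hn : n ∣ N) : v.valuation L (n : L) = 1 := by
  have h5 : algebraMap (𝓞 L) L (n : 𝓞 L) = (n : L) := map_natCast _ n
  rw [← h5, HeightOneSpectrum.valuation_eq_one_iff_notMem]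
  intro h
  apply hN
  obtain ⟨m, rfl⟩ := hn
  push_cast
  exact v.asIdeal.mul_mem_right _ h

end gen

section frame

variable {q f : ℕ} [Fact q.Prime] {D : PerData q f} {K L : Type} [Field K] [NumberField K] [Field L]
  [NumberField L] [Algebra K L] (F : Fr D K L)

include F in
theorem galois_L : IsGalois K L := isGalois_of_equiv D F.e

end frame

section pak

variable {K L : Type} [Field K] [NumberField K] [Field L] [NumberField L] [Algebra K L] {q : ℕ}
  (D : Tor K L q)

/-- The package of `ZT/Pak.lean` with a given generator and a given exponent. -/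
theorem pakG [IsGalois K L] {v : HeightOneSpectrum (𝓞 K)} (hv : v ∈ Spl K L)
    {w : HeightOneSpectrum (𝓞 L)} (hw : w ∈ abv L v) {cn μ : ℕ} {π : 𝓞 L} (hz : (π : L) ≠ 0)
    (hπw : ord w (π : L) = cn) (hπ' : ∀ w', w' ≠ w → ord w' (π : L) = 0)
    (hμ : ∀ (ζ : L) (k : ℕ), 0 < k → ζ ^ k = 1 → ζ ^ μ = 1) :
    (∀ u, u ∉ abv L v → u.valuation L (D.el (D.gen1 hz)) = 1) ∧
    ord w (D.el (D.gen1 hz)) = cn ∧
    ∀ (n : ℕ) (y : Additive D.T), (∀ u, u ∉ abv L v → u.valuation L (D.el y) = 1) →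
        ∃ k : Lam q, (cn * μ * n) • y = k • ((μ * n) • (D.gen1 hz)) ∧
          ∀ N : ℕ, (∀ w ∈ abv L v, w.valuation L (D.el y) ≤ exp (N : ℤ)) → ∀ i, |cf k i| ≤ q * N := by
  classical
  obtain ⟨hP0, hP1, hP⟩ := D.strG hv hw hz hπw hπ' hμ
  have hq := D.pq.two_le
  refine ⟨fun w hw => (D.oh_eq_zero_iff w _).1 (hP0 w hw), ?_, ?_⟩
  · have h1 := hP1 0 (by omega)
    rw [pow_zero, cj_one, D.oh_apply] at h1
    rw [h1]
    simp
  · intro n y hy
    obtain ⟨k, hk1, hk2⟩ := hP y fun u hu => (D.oh_eq_zero_iff u y).2 (hy u hu)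
    refine ⟨k, ?_, ?_⟩
    · have h1 : (cn * μ * n) • y = n • ((μ * cn) • y) := by
        rw [← mul_smul]
        congr 1
        ring
      rw [h1, hk1, ← mul_smul, smul_comm k, mul_comm n]
    · intro N hN i
      by_cases hi : i < q - 1
      · rw [hk2 i hi]
        refine (Finset.abs_sum_le_sum_abs _ _).trans ?_
        have hb : ∀ j ∈ Finset.range (i + 1), |D.oh (cj (D.σ ^ j) w) y| ≤ (N : ℤ) := by
          intro j _
          rw [abs_le]
          constructor
          · rw [D.oh_apply]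
            exact ord_ge _ (D.el_ne y) (hN _ (cj_mem_abv _ hw))
          · have h1 := D.oh_τ (cj (D.σ ^ j) w) y
            have h2 := ord_ge _ (D.el_ne y) (hN _ (cj_mem_abv D.τ (cj_mem_abv (D.σ ^ j) hw)))
            rw [← D.oh_apply, h1] at h2
            linarith
        refine (Finset.sum_le_sum hb).trans ?_
        rw [Finset.sum_const, Finset.card_range, nsmul_eq_mul]
        refine mul_le_mul_of_nonneg_right ?_ (by positivity)
        exact_mod_cast (by omega : i + 1 ≤ q)
      · rw [cf_eq_zero D.pq k (by omega), abs_zero]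
        positivity

end pak

end Pool.Agent.C50
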