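import Pool.Agent.Lib.MP_673eb1_lc.C50.SndC

/-!
# Soundness of the final system
-/

set_option autoImplicit false

namespace Pool.Agent.C50

open NumberField IsDedekindDomain Pool.Agent.ZD Pool.Agent.ZT Pool.Agent.ZS WithZero Height

variable {K L : Type} [Field K] [NumberField K] [Field L] [NumberField L] [Algebra K L] {q : ℕ}
  {D : Tor K L q} (P : Par D)

/-- a rational element which is integral everywhere is an integer -/
theorem int_of_mul {t : K} {h : ℕ} (hh : 0 < h) {k : ℤ} (he : (h : K) * t = k)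
    (hi : ∀ v : HeightOneSpectrum (𝓞 K), v.valuation K t ≤ 1) : ∃ z : ℤ, t = z := by
  obtain ⟨a, ha⟩ := HeightOneSpectrum.mem_integers_of_valuation_le_one K t hi
  have hint : IsIntegral ℤ t := by
    rw [← ha]
    exact RingOfIntegers.isIntegral_coe a
  have hh0 : (h : K) ≠ 0 := by exact_mod_cast hh.ne'
  have h1 : t = algebraMap ℚ K ((k : ℚ) / h) := by
    rw [map_div₀, map_intCast, map_natCast, eq_div_iff hh0, mul_comm]
    exact he
  rw [h1] at hint
  have h2 : IsIntegral ℤ ((k : ℚ) / h) :=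
    (isIntegral_algebraMap_iff (algebraMap ℚ K).injective).1 hint
  obtain ⟨z, hz⟩ := IsIntegrallyClosed.isIntegral_iff.1 h2
  refine ⟨z, ?_⟩
  rw [h1, ← hz]
  simp

theorem real_of_fix {y : L} (hy : D.τ y = y) (φ : L →+* ℂ) : (φ y).im = 0 := by
  have h := D.cpx φ y
  rw [hy] at h
  exact Complex.conj_eq_iff_im.1 h.symm

theorem norm_el (y : Additive D.T) (φ : L →+* ℂ) : ‖φ (D.el y)‖ = 1 := by
  have h1 := congrArg φ (D.mem_T.1 (D.el_mem y)).1
  change φ (D.el y * D.τ (D.el y)) = φ 1 at h1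
  rw [map_mul, D.cpx, map_one, Complex.mul_conj] at h1
  have h2 : Complex.normSq (φ (D.el y)) = 1 := by exact_mod_cast h1
  rw [Complex.normSq_eq_norm_sq] at h2
  nlinarith [norm_nonneg (φ (D.el y))]

/-- the heights of `t` and of the coordinates of `κ ^ m` -/
theorem ht_all : ∃ C : ℝ, 0 < C ∧ ∀ (c₀ : ℕ) (t : K) (W : Wit P c₀ t),
    mulHeight₁ (algebraMap K L t) ≤ C * (∏ w ∈ (finite_abv (L := L) P.v₃).toFinset, Nr w) ^ W.M ∧
    ∀ j, mulHeight₁ (algebraMap K L (W.x j)) ≤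
      C * (∏ w ∈ (finite_abv (L := L) P.v₃).toFinset, Nr w) ^ W.M := by
  obtain ⟨C, hC, h⟩ := ht_bound q (fun i => (D.σ ^ i) P.β) P.g {w | w ∉ P.vis}
    (finite_abv (L := L) P.v₃).toFinset D.pq.pos P.hg (fun i => P.hβi.map (D.σ ^ i)) (by
      intro φ i
      refine real_of_fix (D := D) ?_ φ
      rw [D.app_comm D.τ, P.hβ])
  refine ⟨C, hC, fun c₀ t W => ?_⟩
  have key : ∀ x : K, (∀ w' ∈ P.vis, w'.valuation L (D.el W.S - 1) ≤ w'.valuation L (P.frm x)) →
      mulHeight₁ (algebraMap K L x) ≤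
        C * (∏ w ∈ (finite_abv (L := L) P.v₃).toFinset, Nr w) ^ W.M := by
    intro x hx
    refine h (algebraMap K L x) (D.el W.S) W.M (fun φ => ?_) ?_ (fun φ => (norm_el W.S φ).le) W.S1
      ?_ ?_ ?_
    · exact real_of_fix (D := D) (D.τ.commutes x) φ
    · intro w hw h1 i hi
      rw [Set.mem_ofPred_eq] at hw
      unfold Par.vis at hw
      rw [Set.mem_ofPred_eq, not_not] at hw
      exact P.hD _ hw w rfl x h1 i hi
    · intro w hw
      rw [Set.Finite.mem_toFinset] at hw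
      exact (only₃ P W.Si w hw).le
    · intro w hw
      rw [Set.Finite.mem_toFinset] at hw
      exact W.hM w hw
    · intro w hw
      rw [Set.mem_ofPred_eq, not_not] at hw
      exact hx w hw
  exact ⟨key t W.divt, fun j => key _ (W.divx j)⟩

/-- a value of a power -/
theorem le_of_pow_le {a b : ℤᵐ⁰} (hb : 1 ≤ b) {m : ℕ} (hm : 0 < m) (h : a ^ m ≤ b) : a ≤ b := by
  rcases le_total a 1 with h1 | h1
  · exact h1.trans hb
  · exact (le_self_pow₀ h1 hm.ne').trans h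

/-- **Soundness.** -/
theorem sound : Sound P := by
  classical
  obtain ⟨C, hC, hht⟩ := ht_all P
  obtain ⟨l₁, hl₁, x1, x2⟩ := exists_level P P.u₁v P.u₁1
  obtain ⟨l₂, hl₂, y1, y2⟩ := exists_level P P.u₂v P.u₂1
  set B := (finite_abv (L := L) P.v₃).toFinset with hB
  set Nb : ℝ := ∏ w ∈ B, Nr w with hNb
  obtain ⟨w₃, hw₃⟩ := abv_nonempty (L := L) P.v₃
  have hNb2 : 2 ≤ Nb := by
    have h1 : w₃ ∈ B := (Set.Finite.mem_toFinset _).2 hw₃
    rw [hNb, ← Finset.mul_prod_erase _ _ h1]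
    have h2 : (1 : ℝ) ≤ ∏ w ∈ B.erase w₃, Nr w := by
      calc (1 : ℝ) = ∏ _w ∈ B.erase w₃, (1 : ℝ) := by rw [Finset.prod_const_one]
        _ ≤ _ := Finset.prod_le_prod (fun _ _ => zero_le_one) fun w _ => one_le_Nr w
    have h3 := two_le_Nr w₃
    nlinarith
  obtain ⟨α, hα⟩ := pow_unbounded_of_one_lt C (one_lt_two)
  obtain ⟨γ, hγ⟩ := pow_unbounded_of_one_lt Nb (one_lt_two)
  obtain ⟨A₁, hA₁⟩ : ∃ A₁ : ℕ, A₁ = q * (α + γ) := ⟨_, rfl⟩
  obtain ⟨n₁, hn₁⟩ : ∃ n₁ : ℕ, n₁ = ∑ v : InfinitePlace L, v.mult := ⟨_, rfl⟩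
  obtain ⟨c₁, hc₁⟩ := exists_c (2 ^ totalWeight L * mulHeight₁ (P.h : L) * C) n₁ (A₁ + 1)
  obtain ⟨c₂, hc₂⟩ := exists_c 1 1 (A₁ + 1)
  refine ⟨l₁ + c₁ + c₂, ?_⟩
  rintro t ⟨W⟩
  obtain ⟨ht1, ht2⟩ := hht _ t W
  obtain ⟨n, hn⟩ := nat_near P W.t₃ (2 * W.M + (l₁ + c₁ + c₂))
  obtain ⟨k, hk, hkb⟩ := P.str₁ W.κ (only₁ P W.κi)
  have hdvd := main_dvd P hl₁ x1 x2 hl₂ y1 y2 W hn hk
  obtain ⟨E, hE⟩ : ∃ E : ℕ, E = 2 * W.M + (c₁ + c₂) := ⟨_, rfl⟩
  have hE' : 2 * W.M + (l₁ + c₁ + c₂) - l₁ = E := by omega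
  rw [hE', pow_dvd_iff] at hdvd
  -- the exponent of `κ`
  have hpow : C * Nb ^ W.M ≤ 2 ^ (α + γ * W.M) := by
    rw [pow_add, pow_mul]
    exact mul_le_mul hα.le (pow_le_pow_left₀ (by linarith) hγ.le _) (by positivity) (by positivity)
  have hκ : ∀ w ∈ abv L P.v₁, w.valuation L (D.el W.κ) ≤ exp ((α + γ * W.M : ℕ) : ℤ) := by
    intro w _
    have h1 : (1 : ℤᵐ⁰) ≤ exp ((α + γ * W.M : ℕ) : ℤ) := by
      rw [← exp_zero, exp_le_exp]
      positivity
    refine le_of_pow_le h1 P.m0 ?_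
    rw [← map_pow, W.hκ]
    refine val_sum_le w _ _ fun j _ => ?_
    rw [map_mul]
    refine (mul_le_of_le_one_right zero_le (w.valuation_le_one (⟨P.ω j, P.hω j⟩ : 𝓞 L))).trans ?_
    exact ht_pole ((ht2 j).trans hpow) w
  have hkb' : ∀ i, |(cf k i : ℝ)| ≤ (A₁ : ℝ) * (W.M + 1) := by
    intro i
    have h1 : |cf k i| ≤ q * (α + γ * W.M : ℕ) := hkb _ hκ i
    have h2 : |(cf k i : ℝ)| ≤ q * ((α : ℝ) + γ * W.M) := by
      have h3 : ((|cf k i| : ℤ) : ℝ) ≤ ((q * (α + γ * W.M : ℕ) : ℤ) : ℝ) := by exact_mod_cast h1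
      rw [Int.cast_abs] at h3
      push_cast at h3
      exact h3
    refine h2.trans ?_
    rw [hA₁]
    push_cast
    rw [mul_assoc]
    refine mul_le_mul_of_nonneg_left ?_ (by positivity)
    have h4 : (0 : ℝ) ≤ α := by positivity
    have h5 : (0 : ℝ) ≤ γ := by positivity
    have h6 : (0 : ℝ) ≤ W.M := by positivity
    nlinarith
  have hcfi : ∀ i, cf ((P.h : Lam q) * (n : Lam q) - k) i =
      (if i = 0 then (P.h : ℤ) * n else 0) - cf k i := by
    intro i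
    have h1 : (P.h : Lam q) * (n : Lam q) = (((P.h : ℤ) * n : ℤ) : Lam q) := by push_cast; rfl
    rw [cf_sub, h1, cf_int D.pq]
  have hp2 : (2 : ℝ) ≤ P.p := by exact_mod_cast P.hp.two_le
  have hcoef : ∀ i, i ≠ 0 → cf k i = 0 := by
    intro i hi
    have h1 := hdvd i
    rw [hcfi, if_neg hi, zero_sub, dvd_neg] at h1
    by_contra h0
    have h2 := Int.le_of_dvd (abs_pos.2 h0) ((dvd_abs _ _).2 h1)
    have h3 : ((P.p : ℝ)) ^ E ≤ |(cf k i : ℝ)| := by
      have h4 : (((P.p : ℤ) ^ E : ℤ) : ℝ) ≤ ((|cf k i| : ℤ) : ℝ) := by exact_mod_cast h2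
      rw [Int.cast_abs] at h4
      push_cast at h4
      exact h4
    have h5 := hc₂ W.M
    rw [one_mul, pow_one] at h5
    have h6 : (2 : ℝ) ^ (W.M + c₂) ≤ (P.p : ℝ) ^ E :=
      (pow_le_pow_right₀ one_le_two (by omega)).trans (pow_le_pow_left₀ (by norm_num) hp2 _)
    have h7 := hkb' i
    have h8 : (0 : ℝ) ≤ W.M := by positivity
    push_cast at h5
    nlinarith
  -- `h t = k₀`
  obtain ⟨k0, hk0⟩ : ∃ k0 : ℤ, k0 = cf k 0 := ⟨_, rfl⟩
  have hdvd0 : (P.p : ℤ) ^ E ∣ (P.h : ℤ) * n - k0 := by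
    have h1 := hdvd 0
    rw [hcfi, if_pos rfl, ← hk0] at h1
    exact h1
  have hzval : P.v₃.valuation K ((P.h : K) * t - k0) ≤ exp (-(E : ℤ)) := by
    obtain ⟨s, hs⟩ := hdvd0
    have h1 : (P.h : K) * t - k0 = (P.h : K) * (t - n) + (P.p : K) ^ E * (s : K) := by
      have h2 : ((P.h : K) * n - k0) = (P.p : K) ^ E * (s : K) := by exact_mod_cast hs
      rw [← h2]
      ring
    rw [h1]
    refine (Valuation.map_add _ _ _).trans (max_le ?_ ?_)
    · rw [map_mul]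
      refine (mul_le_of_le_one_left zero_le ?_).trans (hn.trans ?_)
      · have h3 := ZS.val_int_le_one P.v₃ (P.h : ℤ)
        rwa [Int.cast_natCast] at h3
      · rw [exp_le_exp]
        rw [hE]
        push_cast
        linarith
    · rw [map_mul, map_pow, (val_up P hw₃).1, ← exp_nsmul, nsmul_eq_mul]
      refine (mul_le_of_le_one_right zero_le (ZS.val_int_le_one _ _)).trans ?_
      rw [exp_le_exp]
      linarith
  have hz : (P.h : K) * t - k0 = 0 := by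
    by_contra hne
    have hne' : algebraMap K L ((P.h : K) * t - k0) ≠ 0 := by
      rw [Ne, map_eq_zero]
      exact hne
    have h1 := ht_floor B hne' E (by
      intro w hw
      rw [hB, Set.Finite.mem_toFinset] at hw
      rw [(val_up P hw).2]
      exact hzval)
    have h2 : mulHeight₁ (algebraMap K L ((P.h : K) * t - k0)) ≤
        2 ^ totalWeight L * (mulHeight₁ (P.h : L) * mulHeight₁ (algebraMap K L t)) *
          mulHeight₁ (k0 : L) := by
      rw [map_sub, map_mul, map_natCast, map_intCast]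
      refine (mulHeight₁_sub_le _ _).trans ?_
      exact mul_le_mul_of_nonneg_right (mul_le_mul_of_nonneg_left (mulHeight₁_mul_le _ _)
        (by positivity)) (mulHeight₁_nonneg _)
    have h3 : mulHeight₁ (k0 : L) ≤ (((A₁ + 1 : ℕ) : ℝ) * (W.M + 1)) ^ n₁ := by
      rw [hn₁]
      refine ht_int k0 ?_ ?_
      · have h8 : (0 : ℝ) ≤ W.M := by positivity
        have h9 : (0 : ℝ) ≤ A₁ := by positivity
        push_cast
        nlinarith
      · have h7 := hkb' 0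
        rw [← hk0] at h7
        have h8 : (0 : ℝ) ≤ W.M := by positivity
        push_cast
        nlinarith
    have h4 := hc₁ W.M
    have h5 : Nb ^ E = Nb ^ W.M * Nb ^ (W.M + c₁ + c₂) := by
      rw [← pow_add]
      congr 1
      omega
    have h6 : (2 : ℝ) ^ (W.M + c₁) ≤ Nb ^ (W.M + c₁ + c₂) :=
      (pow_le_pow_right₀ one_le_two (by omega)).trans (pow_le_pow_left₀ (by norm_num) hNb2 _)
    have hNbM : 0 < Nb ^ W.M := by positivity
    have hHh := mulHeight₁_nonneg (P.h : L)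
    have h7 : Nb ^ E ≤ (2 ^ totalWeight L * mulHeight₁ (P.h : L) * C) *
        (((A₁ + 1 : ℕ) : ℝ) * (W.M + 1)) ^ n₁ * Nb ^ W.M := by
      calc Nb ^ E ≤ _ := h1
        _ ≤ _ := h2
        _ ≤ 2 ^ totalWeight L * (mulHeight₁ (P.h : L) * (C * Nb ^ W.M)) *
            (((A₁ + 1 : ℕ) : ℝ) * (W.M + 1)) ^ n₁ := by
            refine mul_le_mul ?_ h3 (mulHeight₁_nonneg _) (by positivity)
            exact mul_le_mul_of_nonneg_left (mul_le_mul_of_nonneg_left ht1 hHh) (by positivity)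
        _ = _ := by ring
    rw [h5] at h7
    have h8 : Nb ^ W.M * Nb ^ (W.M + c₁ + c₂) < Nb ^ W.M * Nb ^ (W.M + c₁ + c₂) := by
      calc _ ≤ _ := h7
        _ < 2 ^ (W.M + c₁) * Nb ^ W.M := mul_lt_mul_of_pos_right h4 hNbM
        _ ≤ Nb ^ (W.M + c₁ + c₂) * Nb ^ W.M := mul_le_mul_of_nonneg_right h6 hNbM.le
        _ = _ := mul_comm _ _
    exact lt_irrefl _ h8
  refine int_of_mul P.h0 (k := k0) (sub_eq_zero.1 hz) fun v => ?_
  by_cases hv : v ∈ P.Sg
  · have h1 : v.valuation K ((P.h : K) * t) ≤ 1 := by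
      rw [sub_eq_zero.1 hz]
      exact ZS.val_int_le_one _ _
    rwa [map_mul, P.hS v hv, one_mul] at h1
  · exact W.tvis v hv

end Pool.Agent.C50
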