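import Pool.Agent.Lib.MP_673eb1_lc.C50.ParA
import Pool.Agent.Lib.MP_673eb1_lc.C50.Bridge
import Pool.Agent.Lib.MP_673eb1_lc.C50.Sound

/-!
MP_673eb1_lc, project C50: the parameters `Par` from the data `CDat`, and soundness `S_Snd`.
-/

set_option autoImplicit false

open NumberField IsDedekindDomain

namespace Pool.Agent.C50

open Pool.Agent.Lib.MP_673eb1_lc Pool.Agent.ZD Pool.Agent.ZT WithZero

variable {q f : ℕ} [Fact q.Prime] {D : PerData q f} {K L : Type} [Field K] [NumberField K] [Field L]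
  [NumberField L] [Algebra K L] {F : Fr D K L}

namespace CDat

variable (c : CDat F) {W : Set (HeightOneSpectrum (𝓞 K))}

theorem π0L (i : Fin 3) : (c.π i : L) ≠ 0 := (ord_of_span (c.hπ i)).1

/-- the point `P i` of the torus -/
noncomputable def P1 (i : Fin 3) : Additive F.T.T := F.T.gen1 (c.π0L i)

theorem el_P1 (i : Fin 3) : F.T.el (c.P1 i) = c.P0 i := by
  rw [P1, F.T.el_gen1, P0, mul_comm (F.T.σ (c.π i : L))]

/-- `u i = P i ^ (μ (p - 1))` -/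
noncomputable def u (i : Fin 3) : Additive F.T.T := (c.mu * (c.l 2 - 1)) • c.P1 i

theorem pk (i : Fin 3) :
    (∀ u, u ∉ abv L (c.v i) → u.valuation L (F.T.el (c.P1 i)) = 1) ∧
    ord (c.w i) (F.T.el (c.P1 i)) = c.hcl ∧
    ∀ (n : ℕ) (y : Additive F.T.T), (∀ u, u ∉ abv L (c.v i) → u.valuation L (F.T.el y) = 1) →
        ∃ k : Lam q, (c.hcl * c.mu * n) • y = k • ((c.mu * n) • (c.P1 i)) ∧
          ∀ N : ℕ, (∀ w ∈ abv L (c.v i), w.valuation L (F.T.el y) ≤ exp (N : ℤ)) →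
            ∀ i, |cf k i| ≤ q * N := by
  have := galois_L F
  have h := ord_of_span (c.hπ i)
  exact pakG F.T (c.spl i) (c.hw i) (c.π0L i) h.2.1 h.2.2 c.hmu

theorem v_ne {i j : Fin 3} (h : i ≠ j) : c.v i ≠ c.v j := by
  intro hv
  apply h
  apply c.linj
  rw [← c.nmv, ← c.nmv, hv]

theorem m2_pos : 0 < c.m2 := by
  rw [c.hm2]
  have : Finite (𝓞 L ⧸ Ideal.span {(c.C : 𝓞 L)}) := by
    refine Ideal.finiteQuotientOfFreeOfNeBot _ ?_
    rw [Ne, Ideal.span_singleton_eq_bot]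
    exact_mod_cast c.C0
  exact Nat.card_pos

theorem l_pos (i : Fin 3) : 0 < c.l i - 1 := by
  have := (c.lp i).two_le
  omega

theorem hin_par (hW : c.Ok W) : ∀ v ∈ W, v ≠ c.v 0 → v ≠ c.v 1 → v ≠ c.v 2 →
    ∀ (y : Additive F.T.T), ∀ w ∈ abv L v, w.valuation L (F.T.el y) = 1 := by
  intro v hv h0 h1 h2 y
  rcases hW.2 v hv with ⟨i, hi⟩ | ⟨hi, hN⟩
  · exfalso
    fin_cases i
    · exact h0 hi
    · exact h1 hi
    · exact h2 hi
  refine F.T.one_of_le_abv (F.T.el_mem y) ?_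
  intro w hw
  obtain ⟨Y, hY⟩ : ∃ Y, F.e Y = F.T.el y := ⟨F.e.symm (F.T.el y), F.e.apply_symm_apply _⟩
  have hT : ∏ i ∈ Finset.range q, (QR.sg D (-1 : K))^[i] Y = 1 := by
    apply F.e.injective
    rw [map_prod, map_one, ← (F.T.el_mem y).2]
    refine Finset.prod_congr rfl fun i _ => ?_
    have h := e_iter F Y i
    rw [hY] at h
    exact h
  have h2' : ((2 : ℕ) : 𝓞 K) ∉ v.asIdeal := by
    intro h
    apply hN
    have h3 : ((2 * c.C * c.hcl * c.m2 * c.l 0 * c.l 1 * c.l 2 : ℕ) : 𝓞 K) =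
        ((c.C * c.hcl * c.m2 * c.l 0 * c.l 1 * c.l 2 : ℕ) : 𝓞 K) * ((2 : ℕ) : 𝓞 K) := by
      push_cast
      ring
    rw [h3]
    exact v.asIdeal.mul_mem_left _ h
  have h4 := val_co F hw (y := Y) fun j => co_le D hi h2' Y hT j
  rw [hY] at h4
  exact h4

theorem hS_par (hW : c.Ok W) : ∀ v ∈ W, v.valuation K ((c.hcl * c.m2 : ℕ) : K) = 1 := by
  intro v hv
  rcases hW.2 v hv with ⟨i, rfl⟩ | ⟨hi, hN⟩
  · exact val_nat_oneS (c.lp i) (c.nmv i) (c.lh i)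
  · refine val_nat_one_of_notMem hN ⟨2 * c.C * c.l 0 * c.l 1 * c.l 2, ?_⟩
    ring

theorem u_out (i : Fin 3) : ∀ w, w ∉ abv L (c.v i) → w.valuation L (F.T.el (c.u i)) = 1 := by
  intro w hw
  rw [u, F.T.el_nsmul, map_pow, (c.pk i).1 w hw, one_pow]

theorem u_v3 {i : Fin 3} (hi : i ≠ 2) :
    ∀ w ∈ abv L (c.v 2), w.valuation L (F.T.el (c.u i) - 1) ≤ exp (-1 : ℤ) := by
  have := galois_L F
  intro w hw
  have h1 := F.T.mem_Fv_one (c.spl 2) (x := c.P1 i) (fun w hw => (c.pk i).1 w fun h => by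
    have h3 : w.under (𝓞 K) = c.v 2 := hw
    have h4 : w.under (𝓞 K) = c.v i := h
    exact c.v_ne hi (h4.symm.trans h3)) c.mu
  rw [c.nmv 2] at h1
  have h2 := h1 w hw
  exact_mod_cast h2

theorem u_ne (i : Fin 3) : F.T.el (c.u i) ≠ 1 := by
  refine F.T.nsmul_ne (w := c.w i) ?_ ?_
  · rw [(c.pk i).2.1]
    exact_mod_cast c.hcl0.ne'
  · exact (Nat.mul_pos c.mu0 (c.l_pos 2)).ne'

/-- the field `hD` -/
def HD (c : CDat F) (W : Set (HeightOneSpectrum (𝓞 K))) : Prop :=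
  ∀ v ∈ W, ∀ w ∈ abv L v, ∀ x : K, w.valuation L (algebraMap K L x) ≤ 1 →
    ∀ i < q, w.valuation L ((algebraMap K L x - (F.T.σ ^ i) (F.e (ofPR D (PR.e D 0)))) ^ 2 +
      (c.g : L)) = 1

/-- **The parameters of the soundness proof** -/
noncomputable def par (hW : c.Ok W) (hD : c.HD W) : Par F.T where
  Sg := W
  v₁ := c.v 0
  v₂ := c.v 1
  v₃ := c.v 2
  p := c.l 2
  h := c.hcl * c.m2
  m := c.m
  μ := c.mu
  g := c.g
  n := Fintype.card (Bool × ZMod q)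
  ω := fun j => F.e (bL D ((Fintype.equivFin (Bool × ZMod q)).symm j))
  β := F.e (ofPR D (PR.e D 0))
  u₁ := c.u 0
  u₂ := c.u 1
  Q₁ := (c.hcl * c.m2) • c.u 0
  hp := c.lp 2
  p2 := by
    have := c.l4 2
    omega
  hpq := c.pq
  hord := c.pord
  m₁ := hW.1 0
  m₂ := hW.1 1
  m₃ := hW.1 2
  h12 := c.v_ne (by decide)
  h13 := c.v_ne (by decide)
  h23 := c.v_ne (by decide)
  hv₃ := c.spl 2
  hnm := c.nmv 2
  hunr := c.unr 2
  hin := c.hin_par hW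
  hg := c.g0
  hβi := int_e F 0
  hβ := by
    rw [← F.et]
    congr 1
    refine QuadraticAlgebra.ext ?_ ?_
    · simp [ofPR]
    · simp [ofPR]
  hD := hD
  hω := fun j => int_bL F _
  hμ0 := c.mu0
  hμ := c.hmu
  m0 := Nat.mul_pos (Nat.mul_pos c.hcl0 c.mu0) (c.l_pos 2)
  str₁ := fun y hy => (c.pk 0).2.2 _ y hy
  str₂ := fun y hy => by
    obtain ⟨k, hk, -⟩ := (c.pk 1).2.2 (c.l 2 - 1) y hy
    exact ⟨k, hk⟩
  u₁o := c.u_out 0
  u₂o := c.u_out 1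
  u₁v := c.u_v3 (by decide)
  u₂v := c.u_v3 (by decide)
  u₁1 := c.u_ne 0
  u₂1 := c.u_ne 1
  hQ₁ := rfl
  h0 := Nat.mul_pos c.hcl0 c.m2_pos
  hS := c.hS_par hW

theorem link (hW : c.Ok W) (hD : c.HD W) (c₀ : ℕ) : Link F (c.sp c₀) (c.par hW hD) c₀ where
  v0 := rfl
  v1 := rfl
  v2 := rfl
  p := rfl
  l := fun i => by
    have h := nm_mem (c.v i)
    rw [c.nmv] at h
    exact h
  m := rfl
  μ := rfl
  g := rfl
  c := rfl
  c0 := rfl
  β := rfl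
  ω := ⟨(Fintype.equivFin (Bool × ZMod q)).symm, fun _ => rfl⟩
  Q := by
    change F.T.el ((c.hcl * c.m2) • c.u 0) = F.e (F.e.symm (c.Ps 0)) ^ c.m
    rw [F.e.apply_symm_apply, Ps, u, F.T.el_nsmul, F.T.el_nsmul, el_P1, ← pow_mul, ← pow_mul, m]
    congr 1
    ring

end CDat

end Pool.Agent.C50
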