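import Pool.Agent.Lib.MP_673eb1_lc.C50.ParOf

/-!
MP_673eb1_lc, project C50: soundness `S_Snd` from the field `hD`.
-/

set_option autoImplicit false

open NumberField IsDedekindDomain

namespace Pool.Agent.C50

open Pool.Agent.Lib.MP_673eb1_lc Pool.Agent.ZD Pool.Agent.ZT WithZero

/-- the form has no zero at the primes of an allowed set -/
def S_HD : Prop :=
  ∀ (q f : ℕ) [Fact q.Prime] (D : PerData q f) (K L : Type) [Field K] [NumberField K] [Field L]
    [NumberField L] [Algebra K L] (F : Fr D K L) (c : CDat F)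
    (W : Set (HeightOneSpectrum (𝓞 K))), IsTotallyReal K → c.Ok W → c.HD W

theorem snd_of (h : S_HD) : S_Snd := by
  intro q f _ D K L _ _ _ _ _ F c W hK hW
  obtain ⟨c₀, hc⟩ := sound (c.par hW (h q f D K L F c W hK hW))
  exact ⟨c₀, fun t ht => hc t (bridge (c.link hW _ c₀) ht)⟩

end Pool.Agent.C50
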