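import Pool.Agent.Lib.MP_673eb1_lc.C50.Cond
import Pool.Agent.Lib.ZT.Str

/-!
# Soundness: visible primes, units, the congruence submodule
-/

set_option autoImplicit false

namespace Pool.Agent.C50

open NumberField IsDedekindDomain Pool.Agent.ZD Pool.Agent.ZT Pool.Agent.ZS WithZero

variable {K L : Type} [Field K] [NumberField K] [Field L] [NumberField L] [Algebra K L] {q : ℕ}
  {D : Tor K L q} (P : Par D)

theorem vis_cj (g : L ≃ₐ[K] L) {w : HeightOneSpectrum (𝓞 L)} (h : w ∈ P.vis) : cj g w ∈ P.vis := by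
  unfold Par.vis at h ⊢
  rw [Set.mem_ofPred_eq] at h ⊢
  rwa [cj_under]

theorem not_vis_of_abv {v : HeightOneSpectrum (𝓞 K)} (hv : v ∈ P.Sg) {w : HeightOneSpectrum (𝓞 L)}
    (h : w ∈ abv L v) : w ∉ P.vis := by
  intro h2
  unfold Par.vis at h2
  rw [Set.mem_ofPred_eq] at h2
  unfold abv at h
  rw [Set.mem_ofPred_eq] at h
  rw [h] at h2
  exact h2 hv

/-- a point which is integral at the visible primes and at two of the `v_i` has no zero and no pole outside
the third one -/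
theorem only (v : HeightOneSpectrum (𝓞 K)) {y : Additive D.T}
    (h : ∀ w', (w' ∈ P.vis ∨ ∃ v', (v' = P.v₁ ∨ v' = P.v₂ ∨ v' = P.v₃) ∧ v' ≠ v ∧ w' ∈ abv L v') →
      w'.valuation L (D.el y) ≤ 1) : ∀ w, w ∉ abv L v → w.valuation L (D.el y) = 1 := by
  intro w hw
  obtain ⟨v', hv'⟩ : ∃ v', w ∈ abv L v' := ⟨w.under (𝓞 K), rfl⟩
  have hne : v' ≠ v := by
    rintro rfl
    exact hw hv'
  by_cases hS : v' ∈ P.Sg
  · by_cases h123 : v' = P.v₁ ∨ v' = P.v₂ ∨ v' = P.v₃
    · exact D.one_of_le_abv (D.el_mem y) (fun w' hw' => h w' (Or.inr ⟨v', h123, hne, hw'⟩)) w hv'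
    · push Not at h123
      exact P.hin v' hS h123.1 h123.2.1 h123.2.2 y w hv'
  · have hvis : w ∈ P.vis := by
      unfold Par.vis
      rw [Set.mem_ofPred_eq]
      unfold abv at hv'
      rw [Set.mem_ofPred_eq] at hv'
      rwa [hv']
    exact D.one_of_le (S := P.vis) (fun g _ hw => vis_cj P g hw) (D.el_mem y)
      (fun w' hw' => h w' (Or.inl hw')) w hvis

theorem only₁ {y : Additive D.T}
    (h : ∀ w', w' ∈ P.vis ∨ w' ∈ abv L P.v₂ ∨ w' ∈ abv L P.v₃ → w'.valuation L (D.el y) ≤ 1) :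
    ∀ w, w ∉ abv L P.v₁ → w.valuation L (D.el y) = 1 := by
  refine only P P.v₁ ?_
  rintro w' (h1 | ⟨v', rfl | rfl | rfl, h2, h3⟩)
  · exact h w' (Or.inl h1)
  · exact absurd rfl h2
  · exact h w' (Or.inr (Or.inl h3))
  · exact h w' (Or.inr (Or.inr h3))

theorem only₂ {y : Additive D.T}
    (h : ∀ w', w' ∈ P.vis ∨ w' ∈ abv L P.v₁ ∨ w' ∈ abv L P.v₃ → w'.valuation L (D.el y) ≤ 1) :
    ∀ w, w ∉ abv L P.v₂ → w.valuation L (D.el y) = 1 := by
  refine only P P.v₂ ?_
  rintro w' (h1 | ⟨v', rfl | rfl | rfl, h2, h3⟩)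
  · exact h w' (Or.inl h1)
  · exact h w' (Or.inr (Or.inl h3))
  · exact absurd rfl h2
  · exact h w' (Or.inr (Or.inr h3))

theorem only₃ {y : Additive D.T}
    (h : ∀ w', w' ∈ P.vis ∨ w' ∈ abv L P.v₁ ∨ w' ∈ abv L P.v₂ → w'.valuation L (D.el y) ≤ 1) :
    ∀ w, w ∉ abv L P.v₃ → w.valuation L (D.el y) = 1 := by
  refine only P P.v₃ ?_
  rintro w' (h1 | ⟨v', rfl | rfl | rfl, h2, h3⟩)
  · exact h w' (Or.inl h1)
  · exact h w' (Or.inr (Or.inl h3))
  · exact h w' (Or.inr (Or.inr h3))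
  · exact absurd rfl h2

/-- **The modulus has a visible prime factor** -/
theorem exists_vis (w : L) (wi : ∀ w' ∈ P.vis, w'.valuation L w ≤ 1)
    (w1 : ∀ w', w' ∈ abv L P.v₁ ∨ w' ∈ abv L P.v₂ ∨ w' ∈ abv L P.v₃ → w'.valuation L w = 1)
    (wμ : (w * D.τ (D.σ w)) ^ P.μ ≠ (D.σ w * D.τ w) ^ P.μ) :
    ∃ Q ∈ P.vis, Q.valuation L w < 1 := by
  by_contra hcon
  push Not at hcon
  have hw0 : w ≠ 0 := by
    rintro rfl
    apply wμ
    simp
  have hσ0 : D.σ w ≠ 0 := by simpa using hw0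
  have hτ0 : D.τ w ≠ 0 := by simpa using hw0
  have hτσ0 : D.τ (D.σ w) ≠ 0 := by simpa using hw0
  -- the values of conjugates
  have h1 : ∀ w' ∈ P.vis, w'.valuation L w = 1 := fun w' h => le_antisymm (wi w' h) (hcon w' h)
  obtain ⟨y, hy⟩ : ∃ y, y = (w * D.τ (D.σ w)) / (D.σ w * D.τ w) := ⟨_, rfl⟩
  have hval : ∀ w' : HeightOneSpectrum (𝓞 L), w'.valuation L y = 1 := by
    intro w'
    obtain ⟨v', hv'⟩ : ∃ v', w' ∈ abv L v' := ⟨w'.under (𝓞 K), rfl⟩
    have key : (∀ g : L ≃ₐ[K] L, w'.valuation L (g w) = 1) → w'.valuation L y = 1 := by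
      intro hg
      have e1 := hg 1
      have e2 := hg D.σ
      have e3 := hg D.τ
      have e4 := hg (D.τ * D.σ)
      change w'.valuation L w = 1 at e1
      change w'.valuation L (D.τ (D.σ w)) = 1 at e4
      rw [hy, map_div₀, map_mul, map_mul, e1, e2, e3, e4]
      simp
    by_cases hS : v' ∈ P.Sg
    · by_cases h123 : v' = P.v₁ ∨ v' = P.v₂ ∨ v' = P.v₃
      · apply key
        intro g
        rw [val_app]
        apply w1
        have h3 : cj g⁻¹ w' ∈ abv L v' := cj_mem_abv _ hv'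
        rcases h123 with rfl | rfl | rfl
        · exact Or.inl h3
        · exact Or.inr (Or.inl h3)
        · exact Or.inr (Or.inr h3)
      · push Not at h123
        have h3 := P.hin v' hS h123.1 h123.2.1 h123.2.2 (D.gen1 hw0) w' hv'
        rw [D.el_gen1] at h3
        rw [hy]
        exact h3
    · apply key
      intro g
      rw [val_app]
      apply h1
      apply vis_cj
      unfold Par.vis
      rw [Set.mem_ofPred_eq]
      unfold abv at hv'
      rw [Set.mem_ofPred_eq] at hv'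
      rwa [hv']
  obtain ⟨a, ha⟩ := HeightOneSpectrum.mem_integers_of_valuation_le_one L y fun w' => (hval w').le
  have hn : ∀ φ : L →+* ℂ, ‖φ y‖ = 1 := by
    intro φ
    have h3 : D.τ (D.σ w) = D.σ (D.τ w) := D.app_comm D.τ D.σ w
    rw [hy, map_div₀, map_mul, map_mul, D.cpx, D.cpx, norm_div, norm_mul, norm_mul,
      RCLike.norm_conj, RCLike.norm_conj, mul_comm (‖φ (D.σ w)‖)]
    apply div_self
    have h4 : φ w ≠ 0 := by simpa using hw0
    have h5 : φ (D.σ w) ≠ 0 := by simpa using hw0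
    exact mul_ne_zero (norm_ne_zero_iff.2 h4) (norm_ne_zero_iff.2 h5)
  obtain ⟨n, hn0, hn1⟩ := NumberField.Embeddings.pow_eq_one_of_norm_eq_one L ℂ (x := y)
    (by rw [← ha]; exact RingOfIntegers.isIntegral_coe a) hn
  have h2 := P.hμ y n hn0 hn1
  apply wμ
  rw [hy, div_pow, div_eq_one_iff_eq] at h2
  · exact h2
  · exact pow_ne_zero _ (mul_ne_zero hσ0 hτ0)

/-- the norm of the modulus is divisible by all conjugates of `Q` -/
theorem nrm_lt {w : L} (wi : ∀ w' ∈ P.vis, w'.valuation L w ≤ 1) {Q : HeightOneSpectrum (𝓞 L)}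
    (hQ : Q ∈ P.vis) (hQw : Q.valuation L w < 1) (g : L ≃ₐ[K] L) :
    (cj g Q).valuation L (nrm D w) < 1 := by
  have hle : ∀ h : L ≃ₐ[K] L, (cj g Q).valuation L (h w) ≤ 1 := by
    intro h
    rw [val_app]
    exact wi _ (vis_cj P _ (vis_cj P _ hQ))
  obtain ⟨i, hi, hgi⟩ := D.gen g
  have hgw : (cj g Q).valuation L (g w) < 1 := by
    rw [cj_val]
    exact hQw
  have hfac : ∀ j, (cj g Q).valuation L ((D.σ ^ j) w * (D.σ ^ j) (D.τ w)) ≤ 1 := by
    intro j
    rw [map_mul]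
    exact mul_le_one' (hle _) (hle (D.σ ^ j * D.τ))
  have hlt : (cj g Q).valuation L ((D.σ ^ i) w * (D.σ ^ i) (D.τ w)) < 1 := by
    rw [map_mul]
    rcases hgi with h | h
    · rw [← h]
      exact (mul_le_of_le_one_right zero_le (hle (g * D.τ))).trans_lt hgw
    · have h2 : (D.σ ^ i) (D.τ w) = g w := by
        rw [h]
        rfl
      rw [h2]
      exact (mul_le_of_le_one_left zero_le (hle _)).trans_lt hgw
  unfold nrm
  rw [map_prod, ← Finset.mul_prod_erase _ _ (Finset.mem_range.2 hi)]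
  refine (mul_le_of_le_one_right zero_le ?_).trans_lt hlt
  exact Finset.prod_le_one (fun _ _ => zero_le) fun j _ => hfac j

/-- congruences modulo the conjugates of `Q` -/
theorem sub_mem_Bq {w : L} (wi : ∀ w' ∈ P.vis, w'.valuation L w ≤ 1) {Q : HeightOneSpectrum (𝓞 L)}
    (hQ : Q ∈ P.vis) (hQw : Q.valuation L w < 1) {a b : Additive D.T}
    (hb : ∀ w' ∈ P.vis, w'.valuation L (D.el b) = 1)
    (hab : ∀ w' ∈ P.vis, w'.valuation L (D.el a - D.el b) ≤ w'.valuation L (nrm D w)) :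
    a - b ∈ D.Bq Q := by
  rw [D.mem_Bq]
  intro g
  have h1 : D.el (a - b) - 1 = (D.el a - D.el b) / D.el b := by
    rw [D.el_sub, sub_div, div_self (D.el_ne b)]
  have h2 := vis_cj P g hQ
  rw [h1, map_div₀, hb _ h2, div_one]
  exact (hab _ h2).trans_lt (nrm_lt P wi hQ hQw g)

/-- `(x ^ n - 1) - n (x - 1)` is divisible by `(x - 1) ^ 2` -/
theorem binom_val (w : HeightOneSpectrum (𝓞 L)) {x : L} (hx : w.valuation L x ≤ 1) (n : ℕ) :
    w.valuation L (x ^ n - 1 - n * (x - 1)) ≤ w.valuation L (x - 1) * w.valuation L (x - 1) := by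
  induction n with
  | zero => simp
  | succ n ih =>
    have h1 : x ^ (n + 1) - 1 - ((n + 1 : ℕ) : L) * (x - 1) =
        x * (x ^ n - 1 - n * (x - 1)) + n * ((x - 1) * (x - 1)) := by
      push_cast
      ring
    rw [h1]
    refine (Valuation.map_add _ _ _).trans (max_le ?_ ?_)
    · rw [map_mul]
      exact (mul_le_of_le_one_left zero_le hx).trans ih
    · rw [map_mul, map_mul]
      exact mul_le_of_le_one_left zero_le (val_nat_le w n)

end Pool.Agent.C50
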