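import Pool.Agent.Lib.MP_673eb1_lc.C50.SndB

/-!
# Soundness: the main divisibility
-/

set_option autoImplicit false

namespace Pool.Agent.C50

open NumberField IsDedekindDomain Pool.Agent.ZD Pool.Agent.ZT Pool.Agent.ZS WithZero

variable {K L : Type} [Field K] [NumberField K] [Field L] [NumberField L] [Algebra K L] {q : ℕ}
  {D : Tor K L q} (P : Par D)

theorem sub_mem_Fv {v : HeightOneSpectrum (𝓞 K)} {J : ℕ} {a b : Additive D.T}
    (hb : ∀ w ∈ abv L v, w.valuation L (D.el b) = 1)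
    (h : ∀ w ∈ abv L v, w.valuation L (D.el a - D.el b) ≤ exp (-(J : ℤ))) :
    a - b ∈ D.Fv v J := by
  intro w hw
  have h1 : D.el (a - b) - 1 = (D.el a - D.el b) / D.el b := by
    rw [D.el_sub, sub_div, div_self (D.el_ne b)]
  rw [h1, map_div₀, hb w hw, div_one]
  exact h w hw

theorem not_abv_of_vis {v : HeightOneSpectrum (𝓞 K)} (hv : v ∈ P.Sg) {w : HeightOneSpectrum (𝓞 L)}
    (h : w ∈ P.vis) : w ∉ abv L v := fun h2 => not_vis_of_abv P hv h2 h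

theorem not_abv_of_ne {v v' : HeightOneSpectrum (𝓞 K)} (hv : v ≠ v') {w : HeightOneSpectrum (𝓞 L)}
    (h : w ∈ abv L v) : w ∉ abv L v' := by
  intro h2
  unfold abv at h h2
  rw [Set.mem_ofPred_eq] at h h2
  exact hv (h.symm.trans h2)

/-- **The main divisibility.** -/
theorem main_dvd {l₁ l₂ : ℕ} (hl₁ : 1 ≤ l₁) (x1 : P.u₁ ∈ D.Fv P.v₃ l₁)
    (x2 : P.u₁ ∉ D.Fv P.v₃ (l₁ + 1)) (hl₂ : 1 ≤ l₂) (y1 : P.u₂ ∈ D.Fv P.v₃ l₂)
    (y2 : P.u₂ ∉ D.Fv P.v₃ (l₂ + 1)) {c₀ : ℕ} {t : K} (W : Wit P c₀ t) {n : ℕ}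
    (hn : P.v₃.valuation K (t - n) ≤ exp (-((2 * W.M + c₀ : ℕ) : ℤ))) {k : Lam q}
    (hk : P.m • W.κ = k • P.u₁) :
    (P.p : Lam q) ^ (2 * W.M + c₀ - l₁) ∣ (P.h : Lam q) * (n : Lam q) - k := by
  obtain ⟨J, hJ⟩ : ∃ J : ℕ, J = 2 * W.M + c₀ := ⟨_, rfl⟩
  have hJ' : (-(2 * W.M + c₀ : ℤ)) = -(J : ℤ) := by
    rw [hJ]
    push_cast
    ring
  rw [← hJ] at hn ⊢
  have hpr : Pr (Lam q) P.p := pr_lam D.pq P.hp P.hpq P.hord
  have hfil := D.fil P.hp P.p2 (v := P.v₃) P.hunr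
  obtain ⟨Q, hQ, hQw⟩ := exists_vis P W.w W.wi W.w1 W.wμ
  -- units
  have ua := only₁ P W.ai
  have uc := only₁ P W.ci
  have uG := only₁ P W.Gi
  have uκ := only₁ P W.κi
  have ub := only₂ P W.bi
  have ud := only₂ P W.di
  have hQp : Q.valuation L (P.p : L) = 1 := by
    refine le_antisymm (val_nat_le _ _) (not_lt.1 fun h => ?_)
    have h1 := W.wp Q hQ h
    have h2 : Q.valuation L W.w = 1 := by
      have h3 : W.w = 1 + (W.w - 1) := by ring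
      rw [h3, Valuation.map_add_eq_of_lt_left]
      · rw [map_one]
      · rw [map_one]
        exact h1
    rw [h2] at hQw
    exact lt_irrefl _ hQw
  obtain ⟨e, he, -⟩ := P.str₁ W.a ua
  obtain ⟨e', he', -⟩ := P.str₁ W.c uc
  obtain ⟨g, hg, -⟩ := P.str₁ W.G uG
  obtain ⟨f, hf⟩ := P.str₂ W.b ub
  obtain ⟨f', hf'⟩ := P.str₂ W.d ud
  have hviscj : ∀ g : L ≃ₐ[K] L, cj g Q ∈ P.vis := fun g => vis_cj P g hQ
  have hnmQ : nm Q - 1 ≠ 0 := by
    have := two_le_nm Q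
    omega
  have hx : (nm Q - 1) • P.u₁ ∈ D.Bq Q :=
    D.nm_smul_mem fun g => P.u₁o _ (not_abv_of_vis P P.m₁ (hviscj g))
  have hel : ∀ y : Additive D.T, D.el (P.m • y) = D.el y ^ P.m := fun y => D.el_nsmul _ _
  have pw : ∀ (y : Additive D.T) (w : HeightOneSpectrum (𝓞 L)), w.valuation L (D.el y) = 1 →
      w.valuation L (D.el (P.m • y)) = 1 := by
    intro y w h
    rw [hel, map_pow, h, one_pow]
  have v3not1 : ∀ w ∈ abv L P.v₃, w ∉ abv L P.v₁ := fun w hw => not_abv_of_ne P.h13.symm hw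
  have v3not2 : ∀ w ∈ abv L P.v₃, w ∉ abv L P.v₂ := fun w hw => not_abv_of_ne P.h23.symm hw
  refine core (F := D.Fv P.v₃) hpr P.hp hfil (D.Bq Q) (x := P.u₁) (y := P.u₂) hl₁ x1 x2 hl₂ y1 y2
    hnmQ hx (e := e) (f := f) (e' := e') (f' := f') (g := g) ?_ ?_ ?_ ?_ ?_ ?_ ?_ ?_
  · rw [← he, ← hf]
    refine sub_mem_Bq P W.wi hQ hQw (fun w' hw' => pw _ _ (ub _ (not_abv_of_vis P P.m₂ hw'))) ?_
    intro w' hw'
    rw [hel, hel]
    exact W.divab w' hw'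
  · rw [← he', ← hf']
    refine sub_mem_Bq P W.wi hQ hQw (fun w' hw' => pw _ _ (ud _ (not_abv_of_vis P P.m₂ hw'))) ?_
    intro w' hw'
    rw [hel, hel]
    exact W.divcd w' hw'
  · intro m' hm'
    rw [← hg]
    refine D.smul_notMem P.hp hQp (pw _ _ (uG _ (not_abv_of_vis P P.m₁ hQ))) ?_ m' hm'
    simp only [hel]
    exact (W.divG Q hQ).trans_lt hQw
  · have h1 : (e - (P.h : Lam q)) • P.u₁ = P.m • W.a - P.Q₁ := by
      rw [sub_smul, ← he, P.hQ₁, Nat.cast_smul_eq_nsmul]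
    rw [h1]
    refine sub_mem_Fv (fun w hw => ?_) fun w hw => ?_
    · rw [P.hQ₁, D.el_nsmul, map_pow, P.u₁o w (v3not1 w hw), one_pow]
    · rw [hel, ← hJ']
      exact W.Ja w hw
  · rw [sub_smul, ← he', ← hk]
    refine sub_mem_Fv (fun w hw => pw _ _ (uκ w (v3not1 w hw))) fun w hw => ?_
    rw [hel, hel, ← hJ']
    exact W.Jc w hw
  · rw [← hg]
    intro w hw
    rw [hel, ← hJ']
    exact W.JG w hw
  · rw [← hf]
    refine D.fil_sep ?_
    intro h0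
    apply W.b1
    rw [← hel, h0, D.el_zero]
  · intro m' hm'
    rw [sub_smul, mul_smul, ← hf', ← hf, Nat.cast_smul_eq_nsmul]
    rw [← hf] at hm'
    refine h7 P hn ?_ ?_ m' hm'
    · intro w hw
      rw [hel, ← hJ']
      exact W.Jb w hw
    · intro w hw
      rw [hel, hel, ← hJ']
      exact W.Jd w hw

end Pool.Agent.C50
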