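import Pool.Agent.Lib.MP_673eb1_lc.C50.Snd
import Pool.Agent.Lib.MP_673eb1_lc.C50.ParHD

/-!
MP_673eb1_lc, project C50: soundness, complete.
-/

set_option autoImplicit false

namespace Pool.Agent.C50

theorem hd : S_HD := by
  intro q f _ D K L _ _ _ _ _ F c W _ hW
  exact hD_par F c hW

/-- **Soundness** (complete). -/
theorem tSnd : S_Snd := snd_of hd

end Pool.Agent.C50
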