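import Pool.Agent.Lib.MP_673eb1_lc.C50.OWE

/-!
MP_673eb1_lc, project C50: `S_WCh` (helper17).
-/

set_option autoImplicit false

namespace Pool.Agent.C50

theorem wch : S_WCh := owe_wch

end Pool.Agent.C50
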